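import Pool.Agent.Helper94.PP.GoalsA1

/-!
# Project PP, packet WTS: the weight `x^(-s) (1 - exp(-x/Z))`
-/

namespace Pool.Agent.Helper49.PP

open Pool.Agent.Helper94.PP

theorem one_sub_exp_le {u b : ℝ} (hu : 0 < u) (hb0 : 0 ≤ b) (hb1 : b ≤ 1) :
    1 - Real.exp (-u) ≤ u ^ b := by
  rcases le_or_gt 1 u with h | h
  · have h1 : (1 : ℝ) ≤ u ^ b := Real.one_le_rpow h hb0
    have h2 := Real.exp_pos (-u)
    linarith
  · have h1 : u ^ (1 : ℝ) ≤ u ^ b := Real.rpow_le_rpow_of_exponent_ge hu h.le hb1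
    rw [Real.rpow_one] at h1
    have h2 := Real.add_one_le_exp (-u)
    linarith

theorem mul_exp_le {u b : ℝ} (hu : 0 < u) (hb0 : 0 ≤ b) (hb1 : b ≤ 1) :
    u * Real.exp (-u) ≤ u ^ b := by
  have h1 : u ^ (1 - b) ≤ Real.exp u := by
    rcases le_or_gt 1 u with h | h
    · have h2 : u ^ (1 - b) ≤ u ^ (1 : ℝ) := Real.rpow_le_rpow_of_exponent_le h (by linarith)
      rw [Real.rpow_one] at h2
      have h3 := Real.add_one_le_exp u
      linarith
    · have h2 : u ^ (1 - b) ≤ 1 := Real.rpow_le_one hu.le h.le (by linarith)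
      have h3 := Real.add_one_le_exp u
      linarith
  have h2 : u = u ^ b * u ^ (1 - b) := by
    rw [← Real.rpow_add hu]
    simp
  have h3 : 0 < u ^ b := Real.rpow_pos_of_pos hu b
  calc u * Real.exp (-u) = u ^ b * (u ^ (1 - b) * Real.exp (-u)) := by
        rw [← mul_assoc, ← h2]
    _ ≤ u ^ b * (Real.exp u * Real.exp (-u)) := by
        apply mul_le_mul_of_nonneg_left _ h3.le
        exact mul_le_mul_of_nonneg_right h1 (Real.exp_pos _).le
    _ = u ^ b := by
        rw [← Real.exp_add, add_neg_cancel, Real.exp_zero, mul_one]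

theorem rpow_neg_sub_le {x y s : ℝ} (hx : 1 ≤ x) (hxy : x ≤ y) (hs1 : 1 ≤ s) (hs2 : s ≤ 2) :
    x ^ (-s) - y ^ (-s) ≤ 2 * x⁻¹ * ((y - x) / x) := by
  have hx0 : 0 < x := by linarith
  have hy0 : 0 < y := by linarith
  have h1 : y ^ (-s) = x ^ (-s) * (x / y) ^ s := by
    rw [Real.div_rpow hx0.le hy0.le, Real.rpow_neg hx0.le, Real.rpow_neg hy0.le]
    have : x ^ s ≠ 0 := (Real.rpow_pos_of_pos hx0 s).ne'
    field_simp
  have h2 : 1 + s * (x / y - 1) ≤ (1 + (x / y - 1)) ^ s := by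
    apply one_add_mul_self_le_rpow_one_add _ hs1
    have : 0 ≤ x / y := by positivity
    linarith
  have h3 : (1 : ℝ) + (x / y - 1) = x / y := by ring
  rw [h3] at h2
  have h4 : x ^ (-s) ≤ x⁻¹ := by
    rw [← Real.rpow_neg_one]
    exact Real.rpow_le_rpow_of_exponent_le hx (by linarith)
  have h5 : 0 < x ^ (-s) := Real.rpow_pos_of_pos hx0 _
  have h6 : 1 - (x / y) ^ s ≤ 2 * ((y - x) / x) := by
    have h7 : 1 - x / y = (y - x) / y := by field_simp
    have h8 : (y - x) / y ≤ (y - x) / x := by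
      apply div_le_div_of_nonneg_left (by linarith) hx0 hxy
    have h9 : 0 ≤ (y - x) / y := div_nonneg (by linarith) hy0.le
    have h10 : s * ((y - x) / y) ≤ 2 * ((y - x) / y) := mul_le_mul_of_nonneg_right hs2 h9
    have h11 : s * (x / y - 1) = - (s * ((y - x) / y)) := by rw [← h7]; ring
    linarith
  have h6' : 0 ≤ 2 * ((y - x) / x) := by
    have : 0 ≤ (y - x) / x := div_nonneg (by linarith) hx0.le
    linarith
  calc x ^ (-s) - y ^ (-s) = x ^ (-s) * (1 - (x / y) ^ s) := by rw [h1]; ring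
    _ ≤ x ^ (-s) * (2 * ((y - x) / x)) := mul_le_mul_of_nonneg_left h6 h5.le
    _ ≤ x⁻¹ * (2 * ((y - x) / x)) := mul_le_mul_of_nonneg_right h4 h6'
    _ = 2 * x⁻¹ * ((y - x) / x) := by ring

theorem goalWTS : A1_WTS := by
  intro b s Z hb0 hb1 hs1 hs2 hZ
  have hpow : ∀ x : ℝ, 1 ≤ x → x⁻¹ * (x / Z) ^ b = Z ^ (-b) * x ^ (-(1 - b)) := by
    intro x hx
    have hx0 : 0 < x := by linarith
    rw [Real.div_rpow hx0.le hZ.le, Real.rpow_neg hZ.le, ← Real.rpow_neg_one x,
      show -(1 - b) = -1 + b by ring, Real.rpow_add hx0]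
    field_simp
  have hA : 0 < Z ^ (-b) := Real.rpow_pos_of_pos hZ _
  have hxs : ∀ x : ℝ, 1 ≤ x → x ^ (-s) ≤ x⁻¹ := by
    intro x hx
    rw [← Real.rpow_neg_one]
    exact Real.rpow_le_rpow_of_exponent_le hx (by linarith)
  refine ⟨?_, ?_⟩
  · intro x hx
    have hx0 : 0 < x := by linarith
    have hu : 0 < x / Z := by positivity
    have h1 := one_sub_exp_le hu hb0 hb1
    rw [← neg_div] at h1
    have h2 : 0 ≤ 1 - Real.exp (-x / Z) := by
      have : Real.exp (-x / Z) ≤ 1 := by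
        rw [Real.exp_le_one_iff, neg_div]
        linarith
      linarith
    have h3 : 0 < x ^ (-s) := Real.rpow_pos_of_pos hx0 _
    show |x ^ (-s) * (1 - Real.exp (-x / Z))| ≤ _
    rw [abs_of_nonneg (mul_nonneg h3.le h2)]
    have h4 : x ^ (-s) * (1 - Real.exp (-x / Z)) ≤ x⁻¹ * (x / Z) ^ b :=
      mul_le_mul (hxs x hx) h1 h2 (by positivity)
    rw [hpow x hx] at h4
    have h5 : 0 < x ^ (-(1 - b)) := Real.rpow_pos_of_pos hx0 _
    have h6 : 0 < Z ^ (-b) * x ^ (-(1 - b)) := mul_pos hA h5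
    calc x ^ (-s) * (1 - Real.exp (-x / Z)) ≤ Z ^ (-b) * x ^ (-(1 - b)) := h4
      _ ≤ 3 * Z ^ (-b) * x ^ (-(1 - b)) := by nlinarith
  · intro x y hx hxy
    have hx0 : 0 < x := by linarith
    have hy0 : 0 < y := by linarith
    have hu : 0 < x / Z := by positivity
    have h1 := one_sub_exp_le hu hb0 hb1
    rw [← neg_div] at h1
    have h2 : 0 ≤ 1 - Real.exp (-x / Z) := by
      have : Real.exp (-x / Z) ≤ 1 := by
        rw [Real.exp_le_one_iff, neg_div]
        linarith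
      linarith
    have h3 := mul_exp_le hu hb0 hb1
    rw [← neg_div] at h3
    have h4 := rpow_neg_sub_le hx hxy hs1 hs2
    have hys : 0 < y ^ (-s) := Real.rpow_pos_of_pos hy0 _
    have hyx : y ^ (-s) ≤ x ^ (-s) := Real.rpow_le_rpow_of_nonpos hx0 hxy (by linarith)
    have hd : 0 ≤ (y - x) / x := div_nonneg (by linarith) hx0.le
    -- the difference of the exponentials
    have h5 : Real.exp (-x / Z) - Real.exp (-y / Z) ≤ (x / Z) ^ b * ((y - x) / x) := by
      have e1 : Real.exp (-y / Z) = Real.exp (-x / Z) * Real.exp (-((y - x) / Z)) := by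
        rw [← Real.exp_add]
        congr 1
        field_simp
        ring
      have e2 := Real.add_one_le_exp (-((y - x) / Z))
      have e3 := Real.exp_pos (-x / Z)
      calc Real.exp (-x / Z) - Real.exp (-y / Z)
          = Real.exp (-x / Z) * (1 - Real.exp (-((y - x) / Z))) := by rw [e1]; ring
        _ ≤ Real.exp (-x / Z) * ((y - x) / Z) := by
            apply mul_le_mul_of_nonneg_left _ e3.le
            linarith
        _ = x / Z * Real.exp (-x / Z) * ((y - x) / x) := by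
            field_simp
        _ ≤ (x / Z) ^ b * ((y - x) / x) := mul_le_mul_of_nonneg_right h3 hd
    have h6 : 0 ≤ Real.exp (-x / Z) - Real.exp (-y / Z) := by
      have : Real.exp (-y / Z) ≤ Real.exp (-x / Z) := by
        apply Real.exp_le_exp.mpr
        apply div_le_div_of_nonneg_right _ hZ.le
        linarith
      linarith
    have h7 : 0 ≤ x ^ (-s) - y ^ (-s) := by linarith
    have hub : 0 < (x / Z) ^ b := Real.rpow_pos_of_pos hu _
    show |x ^ (-s) * (1 - Real.exp (-x / Z)) - y ^ (-s) * (1 - Real.exp (-y / Z))| ≤ _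
    have e : x ^ (-s) * (1 - Real.exp (-x / Z)) - y ^ (-s) * (1 - Real.exp (-y / Z)) =
        (x ^ (-s) - y ^ (-s)) * (1 - Real.exp (-x / Z)) -
          y ^ (-s) * (Real.exp (-x / Z) - Real.exp (-y / Z)) := by ring
    rw [e]
    have k1 : (x ^ (-s) - y ^ (-s)) * (1 - Real.exp (-x / Z)) ≤
        2 * x⁻¹ * ((y - x) / x) * (x / Z) ^ b :=
      mul_le_mul h4 h1 h2 (by positivity)
    have k2 : y ^ (-s) * (Real.exp (-x / Z) - Real.exp (-y / Z)) ≤
        x⁻¹ * ((x / Z) ^ b * ((y - x) / x)) :=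
      mul_le_mul (hyx.trans (hxs x hx)) h5 h6 (by positivity)
    have k3 : 0 ≤ (x ^ (-s) - y ^ (-s)) * (1 - Real.exp (-x / Z)) := mul_nonneg h7 h2
    have k4 : 0 ≤ y ^ (-s) * (Real.exp (-x / Z) - Real.exp (-y / Z)) := mul_nonneg hys.le h6
    have k5 : 3 * Z ^ (-b) * x ^ (-(1 - b)) * ((y - x) / x) =
        3 * (x⁻¹ * (x / Z) ^ b) * ((y - x) / x) := by
      rw [hpow x hx]; ring
    rw [k5, abs_le]
    constructor
    · have : 0 ≤ x⁻¹ * ((x / Z) ^ b * ((y - x) / x)) := by positivity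
      nlinarith
    · have : 0 ≤ x⁻¹ * ((x / Z) ^ b * ((y - x) / x)) := by positivity
      nlinarith

end Pool.Agent.Helper49.PP
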