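import Pool.Agent.Helper49.PP.Cover

/-!
# Components with many attachments
-/

namespace Pool.Agent.Helper49.PP

open Finset Pool.Agent.Helper41.PP

variable {V : Type} {G : SimpleGraph V} {f : ℕ → V} {N : ℕ} {D : V → Prop} {β : ℕ}

open Classical in
/-- The positions to which the component is attached. -/
noncomputable def ft (G : SimpleGraph V) (D : V → Prop) (f : ℕ → V) (N : ℕ)
    (K : (HD G D).ConnectedComponent) : Finset ℕ :=
  (range N).filter fun i => Att G D K (f i)

theorem mem_ft {K : (HD G D).ConnectedComponent} {i : ℕ} :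
    i ∈ ft G D f N K ↔ i < N ∧ Att G D K (f i) := by
  classical
  unfold ft
  rw [mem_filter, mem_range]

/-- The family of the positions and of components. -/
def SB (f : ℕ → V) : ℕ ⊕ (HD G D).ConnectedComponent → Set V :=
  Sum.elim (fun x => {f x}) (fun K => K.supp)

theorem fam_sum (h : Big G f N D β) {P : Finset ℕ} (hPN : ∀ i ∈ P, i < N)
    {𝒟 : Finset (HD G D).ConnectedComponent} (h𝒟 : ∀ K ∈ 𝒟, ∃ x, Att G D K x) :
    Fam G (P.disjSum 𝒟) (SB f) := by
  have hfd : ∀ i ∈ P, ∀ j ∈ P, i ≠ j → f i ≠ f j := by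
    intro i hi j hj hij h1
    exact hij (h.per.inj i j (hPN i hi) (hPN j hj) h1)
  constructor
  · rintro (x | K) _
    · exact single_conn _
    · exact supp_conn K
  · rintro (x | K) hx (y | K') hy hne
    · rw [inl_mem_disjSum] at hx hy
      simp only [SB, Sum.elim_inl, Set.disjoint_singleton]
      exact hfd x hx y hy (fun h1 => hne (by rw [h1]))
    · rw [inl_mem_disjSum] at hx
      rw [inr_mem_disjSum] at hy
      simp only [SB, Sum.elim_inl, Sum.elim_inr, Set.disjoint_singleton_left]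
      intro h1
      obtain ⟨z, hz⟩ := h𝒟 K' hy
      exact h.out _ (att_supp hz _ h1)
    · rw [inl_mem_disjSum] at hy
      rw [inr_mem_disjSum] at hx
      simp only [SB, Sum.elim_inl, Sum.elim_inr, Set.disjoint_singleton_right]
      intro h1
      obtain ⟨z, hz⟩ := h𝒟 K hx
      exact h.out _ (att_supp hz _ h1)
    · simp only [SB, Sum.elim_inr]
      exact supp_disj (fun h1 => hne (by rw [h1]))

open Classical in
/-- Counting attachments. -/
theorem att_count {d : ℕ} (hS : Sparse d G) (h : Big G f N D β) {P : Finset ℕ}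
    (hP : P.Nonempty) (hPN : ∀ i ∈ P, i < N) {𝒟 : Finset (HD G D).ConnectedComponent}
    (h𝒟 : ∀ K ∈ 𝒟, ∃ x, Att G D K x) :
    ∑ K ∈ 𝒟, (P.filter fun i => Att G D K (f i)).card < d * (P.card + 𝒟.card) := by
  have hF := fam_sum h hPN h𝒟
  set R : Finset ((ℕ ⊕ (HD G D).ConnectedComponent) × (ℕ ⊕ (HD G D).ConnectedComponent)) :=
    ((P ×ˢ 𝒟).filter fun p => Att G D p.2 (f p.1)).image fun p => (Sum.inl p.1, Sum.inr p.2)
    with hR
  have h1 : 2 * R.card ≤ DD G (P.disjSum 𝒟) (SB f) := by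
    refine two_card_le_DD ?_ ?_
    · intro p hp'
      obtain ⟨⟨x, K⟩, hq, rfl⟩ := mem_image.1 hp'
      obtain ⟨h2, h3⟩ := mem_filter.1 hq
      obtain ⟨hx, hK⟩ := mem_product.1 h2
      exact ⟨inl_mem_disjSum.2 hx, inr_mem_disjSum.2 hK, by simp, att_ad h3⟩
    · intro p hp' hp''
      obtain ⟨⟨x, K⟩, _, rfl⟩ := mem_image.1 hp'
      obtain ⟨⟨x', K'⟩, _, he⟩ := mem_image.1 hp''
      have := congrArg Prod.fst he
      simp at this
  have h2 : R.card = ∑ K ∈ 𝒟, (P.filter fun i => Att G D K (f i)).card := by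
    rw [hR, card_image_of_injective, card_filter, sum_product_right]
    · refine sum_congr rfl fun x _ => ?_
      rw [card_filter]
    · rintro ⟨x, K⟩ ⟨x', K'⟩ he
      simp only [Prod.mk.injEq, Sum.inl.injEq, Sum.inr.injEq] at he
      exact Prod.ext he.1 he.2
  have h4 := hS _ (P.disjSum 𝒟) (SB f) (by
    obtain ⟨x, hx⟩ := hP
    exact ⟨Sum.inl x, inl_mem_disjSum.2 hx⟩) hF
  rw [card_disjSum, mul_assoc] at h4
  omega

/-- Few components have many attachments. -/
theorem few_big {d : ℕ} (hS : Sparse d G) (h : Big G f N D β) {t : ℕ} (ht : 1 ≤ t)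
    {𝒟 : Finset (HD G D).ConnectedComponent} (h𝒟 : ∀ K ∈ 𝒟, t ≤ (ft G D f N K).card) :
    t * 𝒟.card < d * (N + 𝒟.card) := by
  classical
  have hN : 0 < N := lt_of_lt_of_le (by norm_num) h.per.two
  have h1 := att_count hS h (P := range N) ⟨0, mem_range.2 hN⟩ (fun i hi => mem_range.1 hi)
    (𝒟 := 𝒟) (by
      intro K hK
      obtain ⟨i, hi⟩ := card_pos.1 (lt_of_lt_of_le ht (h𝒟 K hK))
      exact ⟨f i, (mem_ft.1 hi).2⟩)
  rw [card_range] at h1
  have h2 : t * 𝒟.card ≤ ∑ K ∈ 𝒟, ((range N).filter fun i => Att G D K (f i)).card := by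
    calc t * 𝒟.card = ∑ _K ∈ 𝒟, t := by rw [sum_const, smul_eq_mul, mul_comm]
      _ ≤ _ := sum_le_sum fun K hK => by
        have := h𝒟 K hK
        unfold ft at this
        exact this
  omega

open Classical in
/-- At most half of the positions are attached to few components. -/
theorem half_big {d : ℕ} (hS : Sparse d G) (h : Big G f N D β)
    (𝒟 : Finset (HD G D).ConnectedComponent) :
    2 * ((range N).filter fun i => ∃ K ∈ 𝒟, Att G D K (f i)).card ≤ N + 2 * d * 𝒟.card := by
  have hN : 0 < N := lt_of_lt_of_le (by norm_num) h.per.two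
  set W := (range N).filter fun i => ∃ K ∈ 𝒟, Att G D K (f i) with hW
  have memW : ∀ i, i ∈ W ↔ i < N ∧ ∃ K ∈ 𝒟, Att G D K (f i) := by
    intro i
    rw [hW, mem_filter, mem_range]
  set W' := W.filter fun i => (i + 1) % N ∈ W with hW'
  have h1 : W.card + (W \ W').card ≤ N := by
    rw [← card_succ (I := W \ W') (N := N) (fun i hi => ((memW i).1 (mem_sdiff.1 hi).1).1)]
    rw [← card_union_of_disjoint]
    · refine (card_le_card (union_subset ?_ ?_)).trans (le_of_eq (card_range N))
      · exact fun i hi => mem_range.2 ((memW i).1 hi).1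
      · intro i hi
        obtain ⟨j, _, rfl⟩ := mem_image.1 hi
        exact mem_range.2 (Nat.mod_lt _ hN)
    · rw [disjoint_right]
      intro i hi hi'
      obtain ⟨j, hj, rfl⟩ := mem_image.1 hi
      rw [mem_sdiff] at hj
      exact hj.2 (mem_filter.2 ⟨hj.1, hi'⟩)
  have h2 : (W \ W').card + W'.card = W.card := card_sdiff_add_card_eq_card (filter_subset _ _)
  suffices h3 : W'.card ≤ 2 * d * 𝒟.card by omega
  rcases 𝒟.eq_empty_or_nonempty with h0 | hne
  · have : W' = ∅ := by
      rw [eq_empty_iff_forall_notMem]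
      intro i hi
      obtain ⟨_, K, hK, _⟩ := (memW i).1 (mem_filter.1 hi).1
      rw [h0] at hK
      exact notMem_empty K hK
    rw [this]
    simp
  obtain ⟨K0, _⟩ := hne
  obtain ⟨κ, hκ⟩ : ∃ κ : ℕ → (HD G D).ConnectedComponent, ∀ i ∈ W, κ i ∈ 𝒟 ∧
      Att G D (κ i) (f i) := by
    have : ∀ i, ∃ K, i ∈ W → K ∈ 𝒟 ∧ Att G D K (f i) := by
      intro i
      by_cases hi : i ∈ W
      · obtain ⟨_, K, hK, hKi⟩ := (memW i).1 hi
        exact ⟨K, fun _ => ⟨hK, hKi⟩⟩
      · exact ⟨K0, fun h => absurd h hi⟩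
    choose κ hκ using this
    exact ⟨κ, hκ⟩
  by_cases hW0 : W'.Nonempty
  swap
  · rw [not_nonempty_iff_eq_empty] at hW0
    rw [hW0]
    simp
  -- only the used components
  set 𝒰 := W.image κ with h𝒰
  have h𝒰𝒟 : 𝒰 ⊆ 𝒟 := by
    intro K hK
    obtain ⟨i, hi, rfl⟩ := mem_image.1 hK
    exact (hκ i hi).1
  set B : (HD G D).ConnectedComponent → Set V := fun K =>
    K.supp ∪ ⋃ i ∈ {i | i ∈ W ∧ κ i = K}, {f i} with hB
  have hF : Fam G 𝒰 B := by
    constructor
    · intro K hK
      refine star_conn (supp_conn K) _ _ (fun i _ => single_conn _) ?_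
      rintro i ⟨hi, rfl⟩
      exact (att_ad (hκ i hi).2).symm
    · intro K hK K' hK' hne
      obtain ⟨a, ha, hKa⟩ := mem_image.1 hK
      obtain ⟨b, hb, hKb⟩ := mem_image.1 hK'
      have hattK : Att G D K (f a) := hKa ▸ (hκ a ha).2
      have hattK' : Att G D K' (f b) := hKb ▸ (hκ b hb).2
      rw [Set.disjoint_left]
      rintro v (h3 | h3) (h4 | h4)
      · exact Set.disjoint_left.1 (supp_disj hne) h3 h4
      · simp only [Set.mem_iUnion] at h4
        obtain ⟨i, _, hv⟩ := h4
        have h5 := att_supp hattK v h3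
        rw [show v = f i from hv] at h5
        exact h.out _ h5
      · simp only [Set.mem_iUnion] at h3
        obtain ⟨i, _, hv⟩ := h3
        have h5 := att_supp hattK' v h4
        rw [show v = f i from hv] at h5
        exact h.out _ h5
      · simp only [Set.mem_iUnion] at h3 h4
        obtain ⟨i, ⟨hi, hiK⟩, hv⟩ := h3
        obtain ⟨j, ⟨hj, hjK⟩, hv'⟩ := h4
        have h5 : i = j := h.per.inj i j ((memW i).1 hi).1 ((memW j).1 hj).1
          ((show v = f i from hv).symm.trans (show v = f j from hv'))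
        rw [h5] at hiK
        exact hne (hiK.symm.trans hjK)
  have hmemB : ∀ i ∈ W, f i ∈ B (κ i) := by
    intro i hi
    right
    simp only [Set.mem_iUnion]
    exact ⟨i, ⟨hi, rfl⟩, rfl⟩
  have h3 : (W'.image fun i => (κ i, κ ((i + 1) % N))).card ≤ DD G 𝒰 B := by
    refine card_le_DD ?_
    intro p hp
    obtain ⟨i, hi, rfl⟩ := mem_image.1 hp
    have hi1 := (mem_filter.1 hi).1
    have hi2 := (mem_filter.1 hi).2
    refine ⟨mem_image_of_mem κ hi1, mem_image_of_mem κ hi2, ?_, ?_⟩
    · intro he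
      have h4 := (hκ i hi1).2
      have h5 := (hκ _ hi2).2
      rw [h.per.succ] at h5
      simp only at he
      rw [← he] at h5
      exact h.cons h4 h5
    · refine ⟨f i, hmemB i hi1, f ((i + 1) % N), hmemB _ hi2, ?_⟩
      rw [h.per.succ]
      exact h.per.adj i
  rw [card_image_of_injOn] at h3
  · have hne : 𝒰.Nonempty := by
      obtain ⟨i, hi⟩ := hW0
      exact ⟨κ i, mem_image_of_mem κ (mem_filter.1 hi).1⟩
    have h4 := hS _ 𝒰 B hne hF
    have h5 : 2 * d * 𝒰.card ≤ 2 * d * 𝒟.card :=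
      Nat.mul_le_mul_left _ (card_le_card h𝒰𝒟)
    omega
  · have key : ∀ i ∈ W', ∀ j ∈ W', κ i = κ j → κ ((i + 1) % N) = κ ((j + 1) % N) →
        ¬ i < j := by
      intro i hi j hj e1 e2 hij
      have hi1 := (mem_filter.1 hi).1
      have hi2 := (mem_filter.1 hi).2
      have hj1 := (mem_filter.1 hj).1
      have hj2 := (mem_filter.1 hj).2
      have h4 := (hκ _ hi2).2
      have h5 := (hκ _ hj2).2
      rw [h.per.succ] at h4 h5
      rw [← e2] at h5
      have h6 := (hκ _ hi1).2
      have h7 := (hκ _ hj1).2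
      rw [← e1] at h7
      have := ((memW j).1 hj1).1
      exact h.two hij (by omega) ⟨_, h6, h7⟩ ⟨_, h4, h5⟩
    intro i hi j hj he
    simp only [Prod.mk.injEq] at he
    rcases lt_trichotomy i j with h4 | h4 | h4
    · exact absurd h4 (key i hi j hj he.1 he.2)
    · exact h4
    · exact absurd h4 (key j hj i hi he.1.symm he.2.symm)

end Pool.Agent.Helper49.PP
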