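import Mathlib

/-!
# Families of disjoint connected sets (minors): deletion, contraction, Mader's bound for `K₅`
-/

namespace Pool.Agent.Helper49.PP

open Finset

variable {V ι : Type}

/-- There is an edge between the two sets. -/
def Ad (G : SimpleGraph V) (A B : Set V) : Prop := ∃ u ∈ A, ∃ v ∈ B, G.Adj u v

theorem Ad.symm {G : SimpleGraph V} {A B : Set V} (h : Ad G A B) : Ad G B A := by
  obtain ⟨u, hu, v, hv, huv⟩ := h
  exact ⟨v, hv, u, hu, huv.symm⟩

theorem ad_union {G : SimpleGraph V} {A B C : Set V} : Ad G A (B ∪ C) ↔ Ad G A B ∨ Ad G A C := by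
  constructor
  · rintro ⟨u, hu, v, hv | hv, huv⟩
    · exact Or.inl ⟨u, hu, v, hv, huv⟩
    · exact Or.inr ⟨u, hu, v, hv, huv⟩
  · rintro (⟨u, hu, v, hv, huv⟩ | ⟨u, hu, v, hv, huv⟩)
    · exact ⟨u, hu, v, Or.inl hv, huv⟩
    · exact ⟨u, hu, v, Or.inr hv, huv⟩

theorem ad_union' {G : SimpleGraph V} {A B C : Set V} : Ad G (B ∪ C) A ↔ Ad G B A ∨ Ad G C A :=
  ⟨fun h => (ad_union.1 h.symm).imp Ad.symm Ad.symm,
    fun h => (ad_union.2 (h.imp Ad.symm Ad.symm)).symm⟩

/-- A family of disjoint connected sets. -/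
structure Fam (G : SimpleGraph V) (s : Finset ι) (B : ι → Set V) : Prop where
  conn : ∀ i ∈ s, (G.induce (B i)).Connected
  disj : ∀ i ∈ s, ∀ j ∈ s, i ≠ j → Disjoint (B i) (B j)

theorem Fam.mono {G : SimpleGraph V} {s t : Finset ι} {B : ι → Set V} (h : Fam G s B)
    (hts : t ⊆ s) : Fam G t B :=
  ⟨fun i hi => h.conn i (hts hi), fun i hi j hj => h.disj i (hts hi) j (hts hj)⟩

open Classical in
/-- The neighbours. -/
noncomputable def nb (G : SimpleGraph V) (s : Finset ι) (B : ι → Set V) (i : ι) : Finset ι :=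
  s.filter fun j => j ≠ i ∧ Ad G (B i) (B j)

theorem mem_nb {G : SimpleGraph V} {s : Finset ι} {B : ι → Set V} {i j : ι} :
    j ∈ nb G s B i ↔ j ∈ s ∧ j ≠ i ∧ Ad G (B i) (B j) := by
  classical
  unfold nb
  simp

/-- Twice the number of edges. -/
noncomputable def DD (G : SimpleGraph V) (s : Finset ι) (B : ι → Set V) : ℕ :=
  ∑ i ∈ s, (nb G s B i).card

theorem nb_erase [DecidableEq ι] {G : SimpleGraph V} {s : Finset ι} {B : ι → Set V} {i j : ι} :
    nb G (s.erase j) B i = (nb G s B i).erase j := by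
  ext k
  rw [mem_nb, mem_erase, mem_erase, mem_nb]
  tauto

/-- Deletion. -/
theorem DD_erase [DecidableEq ι] {G : SimpleGraph V} {s : Finset ι} {B : ι → Set V} {i : ι}
    (hi : i ∈ s) : DD G s B = DD G (s.erase i) B + 2 * (nb G s B i).card := by
  classical
  unfold DD
  rw [← add_sum_erase _ _ hi]
  have h1 : ∀ j ∈ s.erase i, (nb G s B j).card =
      (nb G (s.erase i) B j).card + if j ∈ nb G s B i then 1 else 0 := by
    intro j hj
    rw [nb_erase]
    have hji := (mem_erase.1 hj).1
    have hjs := (mem_erase.1 hj).2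
    by_cases h : j ∈ nb G s B i
    · rw [if_pos h]
      have h2 : i ∈ nb G s B j := by
        rw [mem_nb] at h ⊢
        exact ⟨hi, Ne.symm hji, h.2.2.symm⟩
      have h3 := card_erase_of_mem h2
      have h4 : 0 < (nb G s B j).card := card_pos.2 ⟨i, h2⟩
      omega
    · rw [if_neg h]
      have h2 : i ∉ nb G s B j := by
        intro h2
        refine h ?_
        rw [mem_nb] at h2 ⊢
        exact ⟨hjs, hji, h2.2.2.symm⟩
      rw [erase_eq_of_notMem h2, add_zero]
  rw [sum_congr rfl h1, sum_add_distrib]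
  have h2 : ∑ j ∈ s.erase i, (if j ∈ nb G s B i then 1 else 0) = (nb G s B i).card := by
    rw [← sum_filter, sum_const, smul_eq_mul, mul_one]
    congr 1
    ext k
    rw [mem_filter, mem_erase]
    constructor
    · exact fun h => h.2
    · intro h
      have h3 := mem_nb.1 h
      exact ⟨⟨h3.2.1, h3.1⟩, h⟩
  rw [h2]
  ring

theorem DD_congr {G : SimpleGraph V} {s : Finset ι} {B B' : ι → Set V}
    (h : ∀ i ∈ s, B i = B' i) : DD G s B = DD G s B' := by
  unfold DD
  refine sum_congr rfl fun i hi => ?_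
  congr 1
  ext k
  rw [mem_nb, mem_nb]
  constructor
  · rintro ⟨h1, h2, h3⟩
    exact ⟨h1, h2, by rw [← h i hi, ← h k h1]; exact h3⟩
  · rintro ⟨h1, h2, h3⟩
    exact ⟨h1, h2, by rw [h i hi, h k h1]; exact h3⟩

/-- Contraction keeps disjoint connected families. -/
theorem Fam.contract [DecidableEq ι] {G : SimpleGraph V} {s : Finset ι} {B : ι → Set V} {i j : ι}
    (h : Fam G s B) (hi : i ∈ s) (hj : j ∈ s) (ha : Ad G (B i) (B j)) :
    Fam G (s.erase j) (Function.update B i (B i ∪ B j)) := by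
  constructor
  · intro k hk
    by_cases hki : k = i
    · rw [hki, Function.update_self]
      obtain ⟨u, hu, v, hv, huv⟩ := ha
      exact SimpleGraph.connected_induce_union (h.conn i hi).preconnected
        (h.conn j hj).preconnected hu hv huv
    · rw [Function.update_of_ne hki]
      exact h.conn k (mem_of_mem_erase hk)
  · intro k hk l hl hkl
    have hk' := mem_erase.1 hk
    have hl' := mem_erase.1 hl
    by_cases hki : k = i
    · have hli : l ≠ i := fun h' => hkl (hki.trans h'.symm)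
      rw [hki, Function.update_self, Function.update_of_ne hli, Set.disjoint_union_left]
      exact ⟨h.disj i hi l hl'.2 (Ne.symm hli), h.disj j hj l hl'.2 (Ne.symm hl'.1)⟩
    · rw [Function.update_of_ne hki]
      by_cases hli : l = i
      · rw [hli, Function.update_self, Set.disjoint_union_right]
        exact ⟨h.disj k hk'.2 i hi hki, h.disj k hk'.2 j hj hk'.1⟩
      · rw [Function.update_of_ne hli]
        exact h.disj k hk'.2 l hl'.2 hkl

/-- The number of edges after a contraction. -/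
theorem DD_contract [DecidableEq ι] {G : SimpleGraph V} {s : Finset ι} {B : ι → Set V} {i j : ι}
    (hi : i ∈ s) (hj : j ∈ s) (hij : i ≠ j) (ha : Ad G (B i) (B j)) :
    DD G s B = DD G (s.erase j) (Function.update B i (B i ∪ B j)) +
      2 * (nb G s B i ∩ nb G s B j).card + 2 := by
  have his : i ∈ s.erase j := mem_erase.2 ⟨hij, hi⟩
  rw [DD_erase hj, DD_erase (B := B) his,
    DD_erase (B := Function.update B i (B i ∪ B j)) his]
  have e1 : DD G ((s.erase j).erase i) (Function.update B i (B i ∪ B j)) =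
      DD G ((s.erase j).erase i) B := by
    refine DD_congr fun k hk => ?_
    rw [Function.update_of_ne (mem_erase.1 hk).1]
  rw [e1]
  -- the three sets
  have e2 : nb G (s.erase j) (Function.update B i (B i ∪ B j)) i =
      (nb G s B i).erase j ∪ (nb G s B j).erase i := by
    ext k
    simp only [mem_nb, mem_union, mem_erase, Function.update_self]
    by_cases hki : k = i
    · subst hki
      simp
    · rw [Function.update_of_ne hki, ad_union']
      tauto
  have e3 : (nb G s B i).erase j ∩ (nb G s B j).erase i = nb G s B i ∩ nb G s B j := by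
    ext k
    rw [mem_inter, mem_inter, mem_erase, mem_erase]
    constructor
    · rintro ⟨h1, h2⟩
      exact ⟨h1.2, h2.2⟩
    · rintro ⟨h1, h2⟩
      exact ⟨⟨(mem_nb.1 h2).2.1, h1⟩, (mem_nb.1 h1).2.1, h2⟩
  have hji : i ∈ nb G s B j := mem_nb.2 ⟨hi, hij, ha.symm⟩
  have h4 := card_union_add_card_inter ((nb G s B i).erase j) ((nb G s B j).erase i)
  rw [e3, card_erase_of_mem hji] at h4
  have h5 : 0 < (nb G s B j).card := card_pos.2 ⟨i, hji⟩
  rw [e2, nb_erase]
  omega

/-- `G` has no `K₅` minor. -/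
def NoK5 (G : SimpleGraph V) : Prop := ∀ B : Fin 5 → Set V,
  (∀ i, (G.induce (B i)).Connected) → (∀ i j, i ≠ j → Disjoint (B i) (B j)) →
    ¬ ∀ i j, i ≠ j → Ad G (B i) (B j)

theorem NoK5.elim {G : SimpleGraph V} (h : NoK5 G) {A B C D E : Set V}
    (hA : (G.induce A).Connected) (hB : (G.induce B).Connected) (hC : (G.induce C).Connected)
    (hD : (G.induce D).Connected) (hE : (G.induce E).Connected)
    (dAB : Disjoint A B) (dAC : Disjoint A C) (dAD : Disjoint A D) (dAE : Disjoint A E)
    (dBC : Disjoint B C) (dBD : Disjoint B D) (dBE : Disjoint B E)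
    (dCD : Disjoint C D) (dCE : Disjoint C E) (dDE : Disjoint D E)
    (aAB : Ad G A B) (aAC : Ad G A C) (aAD : Ad G A D) (aAE : Ad G A E)
    (aBC : Ad G B C) (aBD : Ad G B D) (aBE : Ad G B E)
    (aCD : Ad G C D) (aCE : Ad G C E) (aDE : Ad G D E) : False := by
  refine h ![A, B, C, D, E] ?_ ?_ ?_
  · intro i
    fin_cases i <;> assumption
  · intro i j hij
    fin_cases i <;> fin_cases j <;> first | exact absurd rfl hij | assumption | (apply Disjoint.symm; assumption)
  · intro i j hij
    fin_cases i <;> fin_cases j <;> first | exact absurd rfl hij | assumption | (apply Ad.symm; assumption)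

/-- Five indices, the first one adjacent to all others. -/
theorem NoK5.four {G : SimpleGraph V} (h : NoK5 G) {s : Finset ι} {B : ι → Set V}
    (hF : Fam G s B) {i a b c d : ι} (hi : i ∈ s) (ha : a ∈ nb G s B i) (hb : b ∈ nb G s B i)
    (hc : c ∈ nb G s B i) (hd : d ∈ nb G s B i) (hab : a ≠ b) (hac : a ≠ c) (had : a ≠ d)
    (hbc : b ≠ c) (hbd : b ≠ d) (hcd : c ≠ d) (aab : Ad G (B a) (B b)) (aac : Ad G (B a) (B c))
    (aad : Ad G (B a) (B d)) (abc : Ad G (B b) (B c)) (abd : Ad G (B b) (B d))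
    (acd : Ad G (B c) (B d)) : False := by
  rw [mem_nb] at ha hb hc hd
  exact h.elim (hF.conn i hi) (hF.conn a ha.1) (hF.conn b hb.1) (hF.conn c hc.1) (hF.conn d hd.1)
    (hF.disj _ hi _ ha.1 (Ne.symm ha.2.1)) (hF.disj _ hi _ hb.1 (Ne.symm hb.2.1))
    (hF.disj _ hi _ hc.1 (Ne.symm hc.2.1)) (hF.disj _ hi _ hd.1 (Ne.symm hd.2.1))
    (hF.disj _ ha.1 _ hb.1 hab) (hF.disj _ ha.1 _ hc.1 hac) (hF.disj _ ha.1 _ hd.1 had)
    (hF.disj _ hb.1 _ hc.1 hbc) (hF.disj _ hb.1 _ hd.1 hbd) (hF.disj _ hc.1 _ hd.1 hcd)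
    ha.2.2 hb.2.2 hc.2.2 hd.2.2 aab aac aad abc abd acd

/-- A vertex with four or five neighbours, each of which has three neighbours among them. -/
theorem NoK5.small [DecidableEq ι] {G : SimpleGraph V} (h : NoK5 G) {s : Finset ι}
    {B : ι → Set V} (hF : Fam G s B) {i : ι} (hi : i ∈ s) (h4 : 4 ≤ (nb G s B i).card)
    (h5 : (nb G s B i).card ≤ 5)
    (h3 : ∀ j ∈ nb G s B i, 3 ≤ (nb G s B i ∩ nb G s B j).card) : False := by
  classical
  -- at most one vertex is not adjacent
  have hone : ∀ j ∈ nb G s B i, ∀ k ∈ nb G s B i, ∀ l ∈ nb G s B i, j ≠ k → j ≠ l → k ≠ l →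
      ¬ Ad G (B j) (B k) → Ad G (B j) (B l) := by
    intro j hj k hk l hl hjk hjl hkl h1
    by_contra h2
    have h6 : nb G s B i ∩ nb G s B j ⊆ (((nb G s B i).erase j).erase k).erase l := by
      intro x hx
      rw [mem_inter] at hx
      have hx2 := mem_nb.1 hx.2
      simp only [mem_erase]
      refine ⟨?_, ?_, hx2.2.1, hx.1⟩
      · rintro rfl
        exact h2 hx2.2.2
      · rintro rfl
        exact h1 hx2.2.2
    have h7 := card_le_card h6
    rw [card_erase_of_mem (by simp only [mem_erase]; exact ⟨Ne.symm hkl, Ne.symm hjl, hl⟩),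
      card_erase_of_mem (by simp only [mem_erase]; exact ⟨Ne.symm hjk, hk⟩),
      card_erase_of_mem hj] at h7
    have h8 := h3 j hj
    omega
  rcases Nat.lt_or_ge (nb G s B i).card 5 with h6 | h6
  · -- four neighbours
    have h7 : (nb G s B i).card = 4 := by omega
    have hall : ∀ j ∈ nb G s B i, ∀ k ∈ nb G s B i, j ≠ k → Ad G (B j) (B k) := by
      intro j hj k hk hjk
      by_contra h2
      have h8 : nb G s B i ∩ nb G s B j ⊆ ((nb G s B i).erase j).erase k := by
        intro x hx
        rw [mem_inter] at hx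
        have hx2 := mem_nb.1 hx.2
        simp only [mem_erase]
        refine ⟨?_, hx2.2.1, hx.1⟩
        rintro rfl
        exact h2 hx2.2.2
      have h9 := card_le_card h8
      rw [card_erase_of_mem (by simp only [mem_erase]; exact ⟨Ne.symm hjk, hk⟩),
        card_erase_of_mem hj] at h9
      have h10 := h3 j hj
      omega
    obtain ⟨a, ha⟩ := card_pos.1 (by omega : 0 < (nb G s B i).card)
    have h8 : ((nb G s B i).erase a).card = 3 := by rw [card_erase_of_mem ha]; omega
    obtain ⟨b, c, d, hbc, hbd, hcd, he⟩ := card_eq_three.1 h8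
    have hb := mem_erase.1 (show b ∈ (nb G s B i).erase a by rw [he]; simp)
    have hc := mem_erase.1 (show c ∈ (nb G s B i).erase a by rw [he]; simp)
    have hd := mem_erase.1 (show d ∈ (nb G s B i).erase a by rw [he]; simp)
    exact h.four hF hi ha hb.2 hc.2 hd.2 (Ne.symm hb.1) (Ne.symm hc.1) (Ne.symm hd.1) hbc hbd hcd
      (hall a ha b hb.2 (Ne.symm hb.1)) (hall a ha c hc.2 (Ne.symm hc.1))
      (hall a ha d hd.2 (Ne.symm hd.1)) (hall b hb.2 c hc.2 hbc) (hall b hb.2 d hd.2 hbd)
      (hall c hc.2 d hd.2 hcd)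
  · have h7 : (nb G s B i).card = 5 := by omega
    -- two vertices, not adjacent if possible
    obtain ⟨a, ha, a', ha', haa, hor⟩ : ∃ a ∈ nb G s B i, ∃ a' ∈ nb G s B i, a ≠ a' ∧
        (¬ Ad G (B a) (B a') ∨ ∀ j ∈ nb G s B i, ∀ k ∈ nb G s B i, j ≠ k → Ad G (B j) (B k)) := by
      by_cases hex : ∃ a ∈ nb G s B i, ∃ a' ∈ nb G s B i, a ≠ a' ∧ ¬ Ad G (B a) (B a')
      · obtain ⟨a, ha, a', ha', haa, hn⟩ := hex
        exact ⟨a, ha, a', ha', haa, Or.inl hn⟩
      · push Not at hex
        obtain ⟨a, ha, a', ha', haa⟩ := one_lt_card.1 (by omega : 1 < (nb G s B i).card)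
        exact ⟨a, ha, a', ha', haa, Or.inr hex⟩
    have haj : ∀ j ∈ nb G s B i, j ≠ a → j ≠ a' → Ad G (B a) (B j) := by
      intro j hj h1 h2
      rcases hor with h8 | h8
      · exact hone a ha a' ha' j hj haa (Ne.symm h1) (Ne.symm h2) h8
      · exact h8 a ha j hj (Ne.symm h1)
    have haj' : ∀ j ∈ nb G s B i, j ≠ a → j ≠ a' → Ad G (B a') (B j) := by
      intro j hj h1 h2
      rcases hor with h8 | h8
      · exact hone a' ha' a ha j hj (Ne.symm haa) (Ne.symm h2) (Ne.symm h1)
          (fun h9 => h8 h9.symm)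
      · exact h8 a' ha' j hj (Ne.symm h2)
    have h8 : (((nb G s B i).erase a).erase a').card = 3 := by
      rw [card_erase_of_mem (mem_erase.2 ⟨Ne.symm haa, ha'⟩), card_erase_of_mem ha]
      omega
    have hmem : ∀ x ∈ ((nb G s B i).erase a).erase a', x ≠ a' ∧ x ≠ a ∧ x ∈ nb G s B i := by
      intro x hx
      have h9 := mem_erase.1 hx
      exact ⟨h9.1, mem_erase.1 h9.2⟩
    by_cases hT : ∀ j ∈ ((nb G s B i).erase a).erase a', ∀ k ∈ ((nb G s B i).erase a).erase a',
        j ≠ k → Ad G (B j) (B k)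
    · obtain ⟨b, c, d, hbc, hbd, hcd, he⟩ := card_eq_three.1 h8
      have mb : b ∈ ((nb G s B i).erase a).erase a' := by rw [he]; simp
      have mc : c ∈ ((nb G s B i).erase a).erase a' := by rw [he]; simp
      have md : d ∈ ((nb G s B i).erase a).erase a' := by rw [he]; simp
      have hb := hmem b mb
      have hc := hmem c mc
      have hd := hmem d md
      exact h.four hF hi ha hb.2.2 hc.2.2 hd.2.2 (Ne.symm hb.2.1) (Ne.symm hc.2.1)
        (Ne.symm hd.2.1) hbc hbd hcd (haj b hb.2.2 hb.2.1 hb.1) (haj c hc.2.2 hc.2.1 hc.1)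
        (haj d hd.2.2 hd.2.1 hd.1) (hT b mb c mc hbc) (hT b mb d md hbd) (hT c mc d md hcd)
    · push Not at hT
      obtain ⟨b, mb, c, mc, hbc, hn⟩ := hT
      have hb := hmem b mb
      have hc := hmem c mc
      have h9 : ((((nb G s B i).erase a).erase a').erase b).erase c ≠ ∅ := by
        intro h10
        have h11 : (((((nb G s B i).erase a).erase a').erase b).erase c).card = 1 := by
          rw [card_erase_of_mem (mem_erase.2 ⟨Ne.symm hbc, mc⟩), card_erase_of_mem mb, h8]
        rw [h10] at h11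
        simp at h11
      obtain ⟨d, hd0⟩ := nonempty_iff_ne_empty.2 h9
      simp only [mem_erase] at hd0
      obtain ⟨hdc, hdb, hda', hda, hd⟩ := hd0
      have adb : Ad G (B d) (B b) :=
        (hone b hb.2.2 c hc.2.2 d hd hbc (Ne.symm hdb) (Ne.symm hdc) hn).symm
      have adc : Ad G (B d) (B c) :=
        (hone c hc.2.2 b hb.2.2 d hd (Ne.symm hbc) (Ne.symm hdc) (Ne.symm hdb)
          (fun h10 => hn h10.symm)).symm
      -- the sets `i`, `d`, `a`, `c`, `a' ∪ b`
      have ma := mem_nb.1 ha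
      have ma' := mem_nb.1 ha'
      have mb' := mem_nb.1 hb.2.2
      have mc' := mem_nb.1 hc.2.2
      have md' := mem_nb.1 hd
      have aa'b : Ad G (B a') (B b) := haj' b hb.2.2 hb.2.1 hb.1
      have hconn : (G.induce (B a' ∪ B b)).Connected := by
        obtain ⟨u, hu, v, hv, huv⟩ := aa'b
        exact SimpleGraph.connected_induce_union (hF.conn _ ma'.1).preconnected
          (hF.conn _ mb'.1).preconnected hu hv huv
      exact h.elim (hF.conn i hi) (hF.conn d md'.1) (hF.conn a ma.1) (hF.conn c mc'.1) hconn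
        (hF.disj _ hi _ md'.1 (Ne.symm md'.2.1)) (hF.disj _ hi _ ma.1 (Ne.symm ma.2.1))
        (hF.disj _ hi _ mc'.1 (Ne.symm mc'.2.1))
        (Set.disjoint_union_right.2 ⟨hF.disj _ hi _ ma'.1 (Ne.symm ma'.2.1),
          hF.disj _ hi _ mb'.1 (Ne.symm mb'.2.1)⟩)
        (hF.disj _ md'.1 _ ma.1 hda) (hF.disj _ md'.1 _ mc'.1 hdc)
        (Set.disjoint_union_right.2 ⟨hF.disj _ md'.1 _ ma'.1 hda', hF.disj _ md'.1 _ mb'.1 hdb⟩)
        (hF.disj _ ma.1 _ mc'.1 (Ne.symm hc.2.1))
        (Set.disjoint_union_right.2 ⟨hF.disj _ ma.1 _ ma'.1 haa,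
          hF.disj _ ma.1 _ mb'.1 (Ne.symm hb.2.1)⟩)
        (Set.disjoint_union_right.2 ⟨hF.disj _ mc'.1 _ ma'.1 hc.1,
          hF.disj _ mc'.1 _ mb'.1 (Ne.symm hbc)⟩)
        md'.2.2 ma.2.2 mc'.2.2 (ad_union.2 (Or.inl ma'.2.2))
        (haj d hd hda hda').symm adc (ad_union.2 (Or.inr adb))
        (haj c hc.2.2 hc.2.1 hc.1) (ad_union.2 (Or.inr (haj b hb.2.2 hb.2.1 hb.1)))
        (ad_union.2 (Or.inl (haj' c hc.2.2 hc.2.1 hc.1).symm))

/-- Mader's bound. -/
theorem NoK5.mader [DecidableEq ι] {G : SimpleGraph V} (h : NoK5 G) : ∀ (n : ℕ) (s : Finset ι)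
    (B : ι → Set V), s.card = n → 3 ≤ n → Fam G s B → DD G s B + 12 ≤ 6 * n := by
  intro n
  induction n using Nat.strong_induction_on with
  | _ n ih =>
    intro s B hs hn hF
    by_contra hcon
    -- degrees are less than `n`
    have hdeg : ∀ i ∈ s, (nb G s B i).card + 1 ≤ n := by
      intro i hi
      have h1 : nb G s B i ⊆ s.erase i := by
        intro j hj
        rw [mem_nb] at hj
        exact mem_erase.2 ⟨hj.2.1, hj.1⟩
      have h2 := card_le_card h1
      rw [card_erase_of_mem hi] at h2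
      omega
    have hsum : DD G s B ≤ n * (n - 1) := by
      unfold DD
      calc ∑ i ∈ s, (nb G s B i).card ≤ ∑ _i ∈ s, (n - 1) :=
            sum_le_sum fun i hi => by have := hdeg i hi; omega
        _ = n * (n - 1) := by rw [sum_const, hs, smul_eq_mul]
    rcases Nat.lt_or_ge n 5 with h5 | h5
    · have h6 : n = 3 ∨ n = 4 := by omega
      rcases h6 with h6 | h6
      · subst h6
        omega
      · subst h6
        omega
    -- deletion
    have hdel : ∀ i ∈ s, DD G s B + 18 ≤ 6 * n + 2 * (nb G s B i).card := by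
      intro i hi
      have h1 := ih (n - 1) (by omega) (s.erase i) B (by rw [card_erase_of_mem hi, hs]) (by omega)
        (hF.mono (erase_subset _ _))
      have h2 := DD_erase (G := G) (B := B) hi
      omega
    -- contraction
    have hcontr : ∀ i ∈ s, ∀ j ∈ nb G s B i,
        DD G s B + 16 ≤ 6 * n + 2 * (nb G s B i ∩ nb G s B j).card := by
      intro i hi j hj
      have hj' := mem_nb.1 hj
      have h1 := ih (n - 1) (by omega) (s.erase j) (Function.update B i (B i ∪ B j))
        (by rw [card_erase_of_mem hj'.1, hs]) (by omega) (hF.contract hi hj'.1 hj'.2.2)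
      have h2 := DD_contract (G := G) (B := B) hi hj'.1 (Ne.symm hj'.2.1) hj'.2.2
      omega
    -- a vertex of minimum degree
    have hne : s.Nonempty := card_pos.1 (by omega)
    obtain ⟨i, hi, hmin⟩ := exists_min_image s (fun i => (nb G s B i).card) hne
    have h1 : n * (nb G s B i).card ≤ DD G s B := by
      unfold DD
      calc n * (nb G s B i).card = ∑ _j ∈ s, (nb G s B i).card := by
            rw [sum_const, hs, smul_eq_mul]
        _ ≤ _ := sum_le_sum fun j hj => hmin j hj
    have h2 := hdel i hi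
    have h4 : 4 ≤ (nb G s B i).card := by omega
    obtain ⟨j, hj⟩ := card_pos.1 (by omega : 0 < (nb G s B i).card)
    have h6 := hcontr i hi j hj
    have h7 : (nb G s B i ∩ nb G s B j).card + 1 ≤ (nb G s B i).card := by
      have h8 : nb G s B i ∩ nb G s B j ⊆ (nb G s B i).erase j := by
        intro x hx
        rw [mem_inter] at hx
        exact mem_erase.2 ⟨(mem_nb.1 hx.2).2.1, hx.1⟩
      have h9 := card_le_card h8
      rw [card_erase_of_mem hj] at h9
      omega
    have h8 : (nb G s B i).card ≤ 5 := by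
      by_contra h9
      have h10 : 6 ≤ (nb G s B i).card := by omega
      obtain ⟨m, rfl⟩ : ∃ m, n = m + 2 := ⟨n - 2, by omega⟩
      have h11 : m * 6 ≤ m * (nb G s B i).card := Nat.mul_le_mul_left m h10
      rw [add_mul] at h1
      omega
    exact h.small hF hi h4 h8 fun j hj => by
      have := hcontr i hi j hj
      omega

end Pool.Agent.Helper49.PP
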