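import Pool.Agent.Helper41.PP.Base
import Pool.Agent.Helper49.PP.Fam

/-!
# Sparse minors: independent positions and covering components
-/

namespace Pool.Agent.Helper49.PP

open Finset Pool.Agent.Helper41.PP

variable {V ι : Type}

/-- Every minor with `m > 0` vertices has less than `d * m` edges. -/
def Sparse (d : ℕ) (G : SimpleGraph V) : Prop :=
  ∀ (ι : Type) (s : Finset ι) (B : ι → Set V), s.Nonempty → Fam G s B →
    DD G s B < 2 * d * s.card

theorem NoK5.sparse {G : SimpleGraph V} (h : NoK5 G) : Sparse 3 G := by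
  classical
  intro ι s B hs hF
  have hpos := card_pos.2 hs
  have hsum : DD G s B ≤ s.card * (s.card - 1) := by
    unfold DD
    calc ∑ i ∈ s, (nb G s B i).card ≤ ∑ _i ∈ s, (s.card - 1) := by
          refine sum_le_sum fun i hi => ?_
          have h1 : nb G s B i ⊆ s.erase i := by
            intro j hj
            rw [mem_nb] at hj
            exact mem_erase.2 ⟨hj.2.1, hj.1⟩
          have h2 := card_le_card h1
          rwa [card_erase_of_mem hi] at h2
      _ = s.card * (s.card - 1) := by rw [sum_const, smul_eq_mul]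
  rcases Nat.lt_or_ge s.card 3 with h3 | h3
  · have h4 : s.card = 1 ∨ s.card = 2 := by omega
    rcases h4 with h4 | h4
    · rw [h4] at hsum ⊢
      omega
    · rw [h4] at hsum ⊢
      omega
  · have := h.mader s.card s B rfl h3 hF
    omega

/-- Counting adjacent ordered pairs. -/
theorem card_le_DD [DecidableEq ι] {G : SimpleGraph V} {s : Finset ι} {B : ι → Set V}
    {R : Finset (ι × ι)}
    (hR : ∀ p ∈ R, p.1 ∈ s ∧ p.2 ∈ s ∧ p.1 ≠ p.2 ∧ Ad G (B p.1) (B p.2)) :
    R.card ≤ DD G s B := by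
  classical
  rw [card_eq_sum_card_fiberwise (f := Prod.fst) (t := s) (fun p hp => (hR p hp).1)]
  unfold DD
  refine sum_le_sum fun i hi => ?_
  refine card_le_card_of_injOn Prod.snd ?_ ?_
  · intro p hp
    obtain ⟨h1, h2⟩ := mem_filter.1 hp
    obtain ⟨_, h3, h4, h5⟩ := hR p h1
    rw [h2] at h4 h5
    exact mem_nb.2 ⟨h3, Ne.symm h4, h5⟩
  · intro p hp q hq hpq
    have h1 := (mem_filter.1 hp).2
    have h2 := (mem_filter.1 hq).2
    exact Prod.ext (h1.trans h2.symm) hpq

/-- Counting adjacent unordered pairs. -/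
theorem two_card_le_DD [DecidableEq ι] {G : SimpleGraph V} {s : Finset ι} {B : ι → Set V}
    {R : Finset (ι × ι)}
    (hR : ∀ p ∈ R, p.1 ∈ s ∧ p.2 ∈ s ∧ p.1 ≠ p.2 ∧ Ad G (B p.1) (B p.2))
    (hs : ∀ p ∈ R, (p.2, p.1) ∉ R) : 2 * R.card ≤ DD G s B := by
  have h1 : (R ∪ R.image Prod.swap).card ≤ DD G s B := by
    refine card_le_DD fun p hp => ?_
    rcases mem_union.1 hp with h | h
    · exact hR p h
    · obtain ⟨q, hq, rfl⟩ := mem_image.1 h
      obtain ⟨h2, h3, h4, h5⟩ := hR q hq
      exact ⟨h3, h2, Ne.symm h4, h5.symm⟩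
  rw [card_union_of_disjoint, card_image_of_injective _ Prod.swap_injective] at h1
  · omega
  · rw [disjoint_left]
    intro p hp hp'
    obtain ⟨q, hq, rfl⟩ := mem_image.1 hp'
    exact hs q hq hp

/-- A star of connected sets is connected. -/
theorem star_conn {G : SimpleGraph V} {c : Set V} (hc : (G.induce c).Connected)
    (T : Set ι) (A : ι → Set V) (hA : ∀ i ∈ T, (G.induce (A i)).Connected)
    (hAd : ∀ i ∈ T, Ad G c (A i)) : (G.induce (c ∪ ⋃ i ∈ T, A i)).Connected := by
  have e : c ∪ ⋃ i ∈ T, A i = ⋃₀ (insert c ((fun i => c ∪ A i) '' T)) := by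
    ext v
    simp only [Set.mem_union, Set.mem_iUnion, Set.mem_sUnion, Set.mem_insert_iff, Set.mem_image]
    constructor
    · rintro (h | ⟨i, hi, h⟩)
      · exact ⟨c, Or.inl rfl, h⟩
      · exact ⟨c ∪ A i, Or.inr ⟨i, hi, rfl⟩, Or.inr h⟩
    · rintro ⟨t, rfl | ⟨i, hi, rfl⟩, h⟩
      · exact Or.inl h
      · rcases h with h | h
        · exact Or.inl h
        · exact Or.inr ⟨i, hi, h⟩
  rw [e]
  obtain ⟨⟨w, hw⟩⟩ := hc.nonempty
  have hcin : ∀ t ∈ insert c ((fun i => c ∪ A i) '' T), w ∈ t := by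
    intro t ht
    rcases ht with rfl | ⟨i, hi, rfl⟩
    · exact hw
    · exact Or.inl hw
  refine SimpleGraph.induce_sUnion_connected_of_pairwise_not_disjoint ⟨c, Set.mem_insert _ _⟩
    (fun hs ht => ⟨w, hcin _ hs, hcin _ ht⟩) ?_
  rintro t (rfl | ⟨i, hi, rfl⟩)
  · exact hc
  · obtain ⟨u, hu, v, hv, huv⟩ := hAd i hi
    exact SimpleGraph.connected_induce_union hc.preconnected (hA i hi).preconnected hu hv huv

section Cyc

variable {G : SimpleGraph V} {f : ℕ → V} {N : ℕ} {D : V → Prop} {β : ℕ}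

theorem att_supp {K : (HD G D).ConnectedComponent} {x : V} (h : Att G D K x) :
    ∀ v ∈ K.supp, D v := by
  obtain ⟨u, hu, huK, _⟩ := h
  intro v hv
  have h1 : (HD G D).connectedComponentMk v = K := hv
  obtain ⟨p⟩ := SimpleGraph.ConnectedComponent.exact (huK.trans h1.symm)
  exact (walk_D p hu v p.end_mem_support).1

theorem supp_conn (K : (HD G D).ConnectedComponent) : (G.induce K.supp).Connected := by
  have h1 : ((HD G D).induce K.supp).Connected :=
    (SimpleGraph.ConnectedComponent.maximal_connected_induce_supp K).1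
  refine h1.mono ?_
  intro u v huv
  exact huv.1

theorem att_ad {K : (HD G D).ConnectedComponent} {x : V} (h : Att G D K x) :
    Ad G {x} K.supp := by
  obtain ⟨u, _, huK, hxu⟩ := h
  exact ⟨x, rfl, u, huK, hxu⟩

theorem supp_disj {K K' : (HD G D).ConnectedComponent} (h : K ≠ K') :
    Disjoint K.supp K'.supp :=
  SimpleGraph.pairwise_disjoint_supp_connectedComponent _ h

theorem single_conn (x : V) : (G.induce ({x} : Set V)).Connected := by
  have : Nonempty ({x} : Set V) := ⟨⟨x, rfl⟩⟩
  have h : Subsingleton ({x} : Set V) := by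
    constructor
    rintro ⟨a, ha⟩ ⟨b, hb⟩
    have ha' : a = x := ha
    have hb' : b = x := hb
    exact Subtype.ext (ha'.trans hb'.symm)
  exact SimpleGraph.Connected.mk (SimpleGraph.Preconnected.of_subsingleton)

/-- There is a position all of whose linked positions are covered by few of its components. -/
theorem exists_small [Fintype V] {d : ℕ} (hS : Sparse d G) (h : Big G f N D β)
    (P : Finset ℕ) (hP : P.Nonempty) (hPN : ∀ i ∈ P, i < N) :
    ∃ x ∈ P, ∃ 𝒟 : Finset (HD G D).ConnectedComponent, 𝒟.card + 1 ≤ d * (d + 1) ∧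
      (∀ K ∈ 𝒟, Att G D K (f x)) ∧
      ∀ y ∈ P, y ≠ x → Lk G D f x y → ∃ K ∈ 𝒟, Att G D K (f y) := by
  classical
  -- a minimal family which gives all links
  let Cov : Finset (HD G D).ConnectedComponent → Prop := fun 𝒟 => ∀ x ∈ P, ∀ y ∈ P, x ≠ y →
    Lk G D f x y → ∃ K ∈ 𝒟, Att G D K (f x) ∧ Att G D K (f y)
  have hfin : Finite (HD G D).ConnectedComponent := inferInstance
  have := Fintype.ofFinite (HD G D).ConnectedComponent
  have hex : ((univ : Finset (Finset (HD G D).ConnectedComponent)).filter Cov).Nonempty := by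
    refine ⟨univ, mem_filter.2 ⟨mem_univ _, ?_⟩⟩
    rintro x _ y _ _ ⟨K, h1, h2⟩
    exact ⟨K, mem_univ _, h1, h2⟩
  obtain ⟨𝒟, h𝒟, hmin⟩ := exists_min_image _ card hex
  have hcov : Cov 𝒟 := (mem_filter.1 h𝒟).2
  have hpriv : ∀ K : (HD G D).ConnectedComponent, ∃ x y : ℕ, K ∈ 𝒟 → x ∈ P ∧ y ∈ P ∧ x ≠ y ∧
      Att G D K (f x) ∧ Att G D K (f y) ∧
      ∀ K' ∈ 𝒟, Att G D K' (f x) → Att G D K' (f y) → K' = K := by
    intro K
    by_cases hK : K ∈ 𝒟
    · have h1 : ¬ Cov (𝒟.erase K) := by
        intro h1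
        have h2 := hmin _ (mem_filter.2 ⟨mem_univ _, h1⟩)
        have h3 := card_erase_lt_of_mem hK
        omega
      simp only [Cov] at h1
      push Not at h1
      obtain ⟨x, hx, y, hy, hxy, hl, hn⟩ := h1
      obtain ⟨K0, hK0, h2, h3⟩ := hcov x hx y hy hxy hl
      have huniq : ∀ K' ∈ 𝒟, Att G D K' (f x) → Att G D K' (f y) → K' = K := by
        intro K' hK' h4 h5
        by_contra h6
        exact hn K' (mem_erase.2 ⟨h6, hK'⟩) h4 h5
      have h4 := huniq K0 hK0 h2 h3
      subst h4
      exact ⟨x, y, fun _ => ⟨hx, hy, hxy, h2, h3, huniq⟩⟩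
    · exact ⟨0, 0, fun h => absurd h hK⟩
  choose px py hp using hpriv
  have hfd : ∀ i ∈ P, ∀ j ∈ P, i ≠ j → f i ≠ f j := by
    intro i hi j hj hij h1
    exact hij (h.per.inj i j (hPN i hi) (hPN j hj) h1)
  -- the number of components of the family
  have hcard : 𝒟.card < d * P.card := by
    set B : ℕ → Set V := fun x => {f x} ∪ ⋃ K ∈ {K | K ∈ 𝒟 ∧ px K = x}, K.supp with hB
    have hF : Fam G P B := by
      constructor
      · intro x hx
        refine star_conn (single_conn _) _ _ (fun K _ => supp_conn K) ?_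
        rintro K ⟨hK, rfl⟩
        exact att_ad (hp K hK).2.2.2.1
      · intro x hx y hy hxy
        rw [Set.disjoint_left]
        rintro v (h1 | h1) (h2 | h2)
        · exact hfd x hx y hy hxy ((show v = f x from h1).symm.trans (show v = f y from h2))
        · simp only [Set.mem_iUnion] at h2
          obtain ⟨K, ⟨hK, _⟩, hv⟩ := h2
          have h3 := att_supp (hp K hK).2.2.2.1 v hv
          rw [show v = f x from h1] at h3
          exact h.out _ h3
        · simp only [Set.mem_iUnion] at h1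
          obtain ⟨K, ⟨hK, _⟩, hv⟩ := h1
          have h3 := att_supp (hp K hK).2.2.2.1 v hv
          rw [show v = f y from h2] at h3
          exact h.out _ h3
        · simp only [Set.mem_iUnion] at h1 h2
          obtain ⟨K, ⟨hK, hKx⟩, hv⟩ := h1
          obtain ⟨K', ⟨hK', hKy⟩, hv'⟩ := h2
          have h3 : K = K' := (show _ = K from hv).symm.trans (show _ = K' from hv')
          subst h3
          exact hxy (hKx.symm.trans hKy)
    have h1 : 2 * (𝒟.image fun K => (px K, py K)).card ≤ DD G P B := by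
      refine two_card_le_DD ?_ ?_
      · intro p hp'
        obtain ⟨K, hK, rfl⟩ := mem_image.1 hp'
        obtain ⟨h2, h3, h4, h5, h6, _⟩ := hp K hK
        refine ⟨h2, h3, h4, ?_⟩
        obtain ⟨u, _, huK, hyu⟩ := h6
        refine ⟨u, Or.inr ?_, f (py K), Or.inl rfl, hyu.symm⟩
        simp only [Set.mem_iUnion]
        exact ⟨K, ⟨hK, rfl⟩, huK⟩
      · intro p hp' hp''
        obtain ⟨K, hK, rfl⟩ := mem_image.1 hp'
        obtain ⟨K', hK', he⟩ := mem_image.1 hp''
        have e1 : px K' = py K := congrArg Prod.fst he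
        have e2 : py K' = px K := congrArg Prod.snd he
        obtain ⟨_, _, h4, h5, h6, h7⟩ := hp K hK
        obtain ⟨_, _, _, h5', h6', _⟩ := hp K' hK'
        rw [e1] at h5'
        rw [e2] at h6'
        have h8 := h7 K' hK' h6' h5'
        subst h8
        exact h4 (e2.symm ▸ e1 ▸ rfl)
    have h2 : (𝒟.image fun K => (px K, py K)).card = 𝒟.card := by
      refine card_image_of_injOn ?_
      intro K hK K' hK' he
      have e1 : px K = px K' := congrArg Prod.fst he
      have e2 : py K = py K' := congrArg Prod.snd he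
      obtain ⟨_, _, _, h5, h6, _⟩ := hp K hK
      obtain ⟨_, _, _, _, _, h7⟩ := hp K' hK'
      rw [e1] at h5
      rw [e2] at h6
      exact h7 K hK h5 h6
    have h3 := hS ℕ P B hP hF
    rw [h2] at h1
    rw [mul_assoc] at h3
    omega
  -- the number of attachments
  by_contra hcon
  push Not at hcon
  have hdeg : ∀ x ∈ P, d * (d + 1) ≤ (𝒟.filter fun K => Att G D K (f x)).card := by
    intro x hx
    by_contra h1
    push Not at h1
    obtain ⟨y, hy, hyx, hl, hn⟩ := hcon x hx (𝒟.filter fun K => Att G D K (f x)) h1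
      (fun K hK => (mem_filter.1 hK).2)
    obtain ⟨K, hK, h2, h3⟩ := hcov x hx y hy (Ne.symm hyx) hl
    exact hn K (mem_filter.2 ⟨hK, h2⟩) h3
  set B : ℕ ⊕ (HD G D).ConnectedComponent → Set V :=
    Sum.elim (fun x => {f x}) (fun K => K.supp) with hB
  have hF : Fam G (P.disjSum 𝒟) B := by
    constructor
    · rintro (x | K) _
      · exact single_conn _
      · exact supp_conn K
    · rintro (x | K) hx (y | K') hy hne
      · rw [inl_mem_disjSum] at hx hy
        simp only [hB, Sum.elim_inl, Set.disjoint_singleton]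
        exact hfd x hx y hy (fun h1 => hne (by rw [h1]))
      · rw [inl_mem_disjSum] at hx
        rw [inr_mem_disjSum] at hy
        simp only [hB, Sum.elim_inl, Sum.elim_inr, Set.disjoint_singleton_left]
        intro h1
        exact h.out _ (att_supp (hp K' hy).2.2.2.1 _ h1)
      · rw [inl_mem_disjSum] at hy
        rw [inr_mem_disjSum] at hx
        simp only [hB, Sum.elim_inl, Sum.elim_inr, Set.disjoint_singleton_right]
        intro h1
        exact h.out _ (att_supp (hp K hx).2.2.2.1 _ h1)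
      · simp only [hB, Sum.elim_inr]
        exact supp_disj (fun h1 => hne (by rw [h1]))
  set R : Finset ((ℕ ⊕ (HD G D).ConnectedComponent) × (ℕ ⊕ (HD G D).ConnectedComponent)) :=
    ((P ×ˢ 𝒟).filter fun p => Att G D p.2 (f p.1)).image fun p => (Sum.inl p.1, Sum.inr p.2)
    with hR
  have h1 : 2 * R.card ≤ DD G (P.disjSum 𝒟) B := by
    refine two_card_le_DD ?_ ?_
    · intro p hp'
      obtain ⟨⟨x, K⟩, hq, rfl⟩ := mem_image.1 hp'
      obtain ⟨h2, h3⟩ := mem_filter.1 hq
      obtain ⟨hx, hK⟩ := mem_product.1 h2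
      exact ⟨inl_mem_disjSum.2 hx, inr_mem_disjSum.2 hK, by simp, att_ad h3⟩
    · intro p hp' hp''
      obtain ⟨⟨x, K⟩, _, rfl⟩ := mem_image.1 hp'
      obtain ⟨⟨x', K'⟩, _, he⟩ := mem_image.1 hp''
      have := congrArg Prod.fst he
      simp at this
  have h2 : R.card = ∑ x ∈ P, (𝒟.filter fun K => Att G D K (f x)).card := by
    rw [hR, card_image_of_injective, card_filter, sum_product]
    · refine sum_congr rfl fun x _ => ?_
      rw [card_filter]
    · rintro ⟨x, K⟩ ⟨x', K'⟩ he
      simp only [Prod.mk.injEq, Sum.inl.injEq, Sum.inr.injEq] at he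
      exact Prod.ext he.1 he.2
  have h3 : P.card * (d * (d + 1)) ≤ R.card := by
    rw [h2]
    calc P.card * (d * (d + 1)) = ∑ _x ∈ P, d * (d + 1) := by rw [sum_const, smul_eq_mul]
      _ ≤ _ := sum_le_sum hdeg
  have h4 := hS _ (P.disjSum 𝒟) B (by
    obtain ⟨x, hx⟩ := hP
    exact ⟨Sum.inl x, inl_mem_disjSum.2 hx⟩) hF
  rw [card_disjSum] at h4
  have h5 : d * (P.card + 𝒟.card) ≤ d * (P.card + d * P.card) := by
    refine Nat.mul_le_mul_left d ?_
    omega
  have h6 : d * (P.card + d * P.card) = P.card * (d * (d + 1)) := by ring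
  rw [mul_assoc] at h4
  omega

end Cyc

end Pool.Agent.Helper49.PP
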