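import Pool.Agent.Helper49.PP.Fam

/-!
# Graphs drawn in the plane have no `K₅` minor

The argument avoids the Jordan curve theorem and general position. For two disjoint curves
`α`, `β` the function `α s - β t` has a continuous logarithm, which gives a relation between the
total changes of the argument of `α` seen from the ends of `β` and of `β` seen from the ends of `α`.
For five points which are joined by ten curves such that curves without common ends are disjoint the
fifteen relations are contradictory modulo `2`.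
-/

namespace Pool.Agent.Helper49.PP

open Complex

/-- Continuous logarithms on the plane. -/
theorem exists_log2 (F : ℝ × ℝ → ℂ) (hF : Continuous F) (h0 : ∀ p, F p ≠ 0) :
    ∃ L : ℝ × ℝ → ℂ, Continuous L ∧ ∀ p, exp (L p) = F p := by
  obtain ⟨L, ⟨_, hL⟩, _⟩ := isCoveringMapOn_exp.existsUnique_continuousMap_lifts
    (⟨F, hF⟩ : C(ℝ × ℝ, ℂ)) (a₀ := (0, 0)) (e₀ := log (F (0, 0))) (exp_log (h0 _))
    (fun p => h0 p)
  exact ⟨L, L.continuous, fun p => congrFun hL p⟩

/-- The change of the logarithm along a curve. -/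
theorem exists_ang (α : ℝ → ℂ) (hα : Continuous α) (q : ℂ) (h0 : ∀ s, α s ≠ q) :
    ∃ A : ℂ, exp A * (α 0 - q) = α 1 - q ∧
      ∀ ℓ : ℝ → ℂ, Continuous ℓ → (∀ s, exp (ℓ s) = α s - q) → ℓ 1 - ℓ 0 = A := by
  have hF : Continuous fun s => α s - q := hα.sub continuous_const
  have hF0 : ∀ s, α s - q ≠ 0 := fun s => sub_ne_zero.2 (h0 s)
  obtain ⟨L, ⟨hL0, hL⟩, hu⟩ := isCoveringMapOn_exp.existsUnique_continuousMap_lifts
    (⟨fun s => α s - q, hF⟩ : C(ℝ, ℂ)) (a₀ := 0) (e₀ := log (α 0 - q)) (exp_log (hF0 0))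
    (fun p => hF0 p)
  have hL' : ∀ s, exp (L s) = α s - q := fun s => congrFun hL s
  refine ⟨L 1 - L 0, ?_, ?_⟩
  · rw [exp_sub, hL' 1, hL' 0, div_mul_cancel₀ _ (hF0 0)]
  · intro ℓ hℓ hℓe
    have h1 : exp (L 0 - ℓ 0) = 1 := by
      rw [exp_sub, hL' 0, hℓe 0, div_self (hF0 0)]
    have h2 : (⟨fun s => ℓ s + (L 0 - ℓ 0), hℓ.add continuous_const⟩ : C(ℝ, ℂ)) = L := by
      refine hu _ ⟨?_, ?_⟩
      · change ℓ 0 + (L 0 - ℓ 0) = _
        rw [← hL0]
        ring
      · funext s
        change exp (ℓ s + (L 0 - ℓ 0)) = α s - q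
        rw [exp_add, h1, mul_one, hℓe s]
    have h3 : L 1 = ℓ 1 + (L 0 - ℓ 0) := by
      rw [← h2]
      change ℓ 1 + (L 0 - ℓ 0) = ℓ 1 + ((ℓ 0 + (L 0 - ℓ 0)) - ℓ 0)
      ring
    rw [h3]
    ring

/-- The relation for two disjoint curves. -/
theorem ang_rel (α β : ℝ → ℂ) (hα : Continuous α) (hβ : Continuous β) (h : ∀ s t, α s ≠ β t)
    {A₁ A₂ A₃ A₄ : ℂ}
    (h₁ : ∀ ℓ : ℝ → ℂ, Continuous ℓ → (∀ s, exp (ℓ s) = α s - β 0) → ℓ 1 - ℓ 0 = A₁)
    (h₂ : ∀ ℓ : ℝ → ℂ, Continuous ℓ → (∀ s, exp (ℓ s) = β s - α 1) → ℓ 1 - ℓ 0 = A₂)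
    (h₃ : ∀ ℓ : ℝ → ℂ, Continuous ℓ → (∀ s, exp (ℓ s) = α s - β 1) → ℓ 1 - ℓ 0 = A₃)
    (h₄ : ∀ ℓ : ℝ → ℂ, Continuous ℓ → (∀ s, exp (ℓ s) = β s - α 0) → ℓ 1 - ℓ 0 = A₄) :
    A₁ + A₂ = A₄ + A₃ := by
  obtain ⟨L, hL, hLe⟩ := exists_log2 (fun p => α p.1 - β p.2)
    ((hα.comp continuous_fst).sub (hβ.comp continuous_snd)) (fun p => sub_ne_zero.2 (h _ _))
  have e : exp (Real.pi * I) = -1 := exp_pi_mul_I
  rw [← h₁ (fun s => L (s, 0)) (hL.comp (by fun_prop)) (fun s => hLe (s, 0)),
    ← h₃ (fun s => L (s, 1)) (hL.comp (by fun_prop)) (fun s => hLe (s, 1)),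
    ← h₂ (fun t => L (1, t) + Real.pi * I) ((hL.comp (by fun_prop)).add continuous_const)
      (fun t => by rw [exp_add, hLe (1, t), e]; ring),
    ← h₄ (fun t => L (0, t) + Real.pi * I) ((hL.comp (by fun_prop)).add continuous_const)
      (fun t => by rw [exp_add, hLe (0, t), e]; ring)]
  ring

/-- Five points cannot be joined by ten curves such that curves without common ends are
disjoint. -/
theorem no_k5_curves (q : Fin 5 → ℂ) (c : Fin 5 → Fin 5 → ℝ → ℂ)
    (hc : ∀ i j, Continuous (c i j)) (h0 : ∀ i j, i < j → c i j 0 = q i)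
    (h1 : ∀ i j, i < j → c i j 1 = q j)
    (hd : ∀ i j k l, i < j → k < l → i ≠ k → i ≠ l → j ≠ k → j ≠ l →
      ∀ s t, c i j s ≠ c k l t) : False := by
  -- the points are different from the curves
  have hq : ∀ i j k, i < j → i ≠ k → j ≠ k → ∀ s, c i j s ≠ q k := by
    intro i j k hij hik hjk s
    obtain ⟨l, hl⟩ : ∃ l : Fin 5, l ≠ i ∧ l ≠ j ∧ l ≠ k := by
      revert i j k
      decide
    rcases lt_or_gt_of_ne hl.2.2 with h2 | h2
    · rw [← h1 l k h2]
      exact hd i j l k hij h2 (Ne.symm hl.1) hik (Ne.symm hl.2.1) hjk s 1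
    · rw [← h0 k l h2]
      exact hd i j k l hij h2 hik (Ne.symm hl.1) hjk (Ne.symm hl.2.1) s 0
  have hqq : ∀ x y, x ≠ y → q x ≠ q y := by
    intro x y hxy
    obtain ⟨z, hz⟩ : ∃ z : Fin 5, z ≠ x ∧ z ≠ y := by
      revert x y
      decide
    rcases lt_or_gt_of_ne hz.1 with h2 | h2
    · rw [← h1 z x h2]
      exact hq z x y h2 hz.2 hxy 1
    · rw [← h0 x z h2]
      exact hq x z y h2 hxy hz.2 0
  have hA : ∀ i j k, ∃ A : ℂ, i < j → i ≠ k → j ≠ k → exp A * (q i - q k) = q j - q k ∧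
      ∀ ℓ : ℝ → ℂ, Continuous ℓ → (∀ s, exp (ℓ s) = c i j s - q k) → ℓ 1 - ℓ 0 = A := by
    intro i j k
    by_cases h : i < j ∧ i ≠ k ∧ j ≠ k
    · obtain ⟨A, hA1, hA2⟩ := exists_ang (c i j) (hc i j) (q k) (hq i j k h.1 h.2.1 h.2.2)
      rw [h0 i j h.1, h1 i j h.1] at hA1
      exact ⟨A, fun _ _ _ => ⟨hA1, hA2⟩⟩
    · exact ⟨0, fun h2 h3 h4 => absurd ⟨h2, h3, h4⟩ h⟩
  choose A hA using hA
  -- integers
  have hn : ∀ i j k, ∃ n : ℤ, i < j → i ≠ k → j ≠ k →
      A i j k = log (q j - q k) - log (q i - q k) + n * (2 * Real.pi * I) := by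
    intro i j k
    by_cases h : i < j ∧ i ≠ k ∧ j ≠ k
    · have h2 := (hA i j k h.1 h.2.1 h.2.2).1
      have e1 : exp (A i j k - (log (q j - q k) - log (q i - q k))) = 1 := by
        rw [exp_sub, exp_sub, exp_log (sub_ne_zero.2 (hqq _ _ h.2.2)),
          exp_log (sub_ne_zero.2 (hqq _ _ h.2.1))]
        have h3 := sub_ne_zero.2 (hqq _ _ h.2.1)
        have h4 := sub_ne_zero.2 (hqq _ _ h.2.2)
        rw [← h2]
        rw [← h2] at h4
        field_simp
      obtain ⟨n, hn⟩ := exp_eq_one_iff.1 e1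
      exact ⟨n, fun _ _ _ => by rw [← hn]; ring⟩
    · exact ⟨0, fun h2 h3 h4 => absurd ⟨h2, h3, h4⟩ h⟩
  choose n hn using hn
  have he : ∀ x y, ∃ e : ℤ, x ≠ y →
      log (q x - q y) - log (q y - q x) = (1 + 2 * e) * (Real.pi * I) := by
    intro x y
    by_cases h : x ≠ y
    · have e1 : exp (log (q x - q y) - log (q y - q x) - Real.pi * I) = 1 := by
        rw [exp_sub, exp_sub, exp_log (sub_ne_zero.2 (hqq _ _ h)),
          exp_log (sub_ne_zero.2 (hqq _ _ (Ne.symm h))), exp_pi_mul_I]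
        have h3 := sub_ne_zero.2 (hqq _ _ (Ne.symm h))
        field_simp
        ring
      obtain ⟨e, he⟩ := exp_eq_one_iff.1 e1
      exact ⟨e, fun _ => by linear_combination he⟩
    · exact ⟨0, fun h2 => absurd h2 h⟩
  choose e he using he
  have hpi : ((Real.pi : ℂ) * I) ≠ 0 := mul_ne_zero (by exact_mod_cast Real.pi_ne_zero) I_ne_zero
  have hee : ∀ x y, x ≠ y → e x y + e y x = -1 := by
    intro x y hxy
    have h2 := he x y hxy
    have h3 := he y x (Ne.symm hxy)
    have h4 : ((e x y + e y x + 1 : ℤ) : ℂ) * (2 * (Real.pi * I)) = 0 := by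
      push_cast
      linear_combination -h2 - h3
    have h5 : ((e x y + e y x + 1 : ℤ) : ℂ) = 0 :=
      (mul_eq_zero.1 h4).resolve_right (mul_ne_zero two_ne_zero hpi)
    have h6 : e x y + e y x + 1 = 0 := by exact_mod_cast h5
    omega
  -- the relations
  have hrel : ∀ i j k l, i < j → k < l → i ≠ k → i ≠ l → j ≠ k → j ≠ l →
      n i j k + n k l j - n k l i - n i j l + e j k - e i k - e j l + e i l = 0 := by
    intro i j k l hij hkl hik hil hjk hjl
    have h2 := ang_rel (c i j) (c k l) (hc i j) (hc k l)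
      (hd i j k l hij hkl hik hil hjk hjl)
      (A₁ := A i j k) (A₂ := A k l j) (A₃ := A i j l) (A₄ := A k l i)
      (by rw [h0 k l hkl]; exact (hA i j k hij hik hjk).2)
      (by rw [h1 i j hij]; exact (hA k l j hkl (Ne.symm hjk) (Ne.symm hjl)).2)
      (by rw [h1 k l hkl]; exact (hA i j l hij hil hjl).2)
      (by rw [h0 i j hij]; exact (hA k l i hkl (Ne.symm hik) (Ne.symm hil)).2)
    rw [hn i j k hij hik hjk, hn k l j hkl (Ne.symm hjk) (Ne.symm hjl),
      hn k l i hkl (Ne.symm hik) (Ne.symm hil), hn i j l hij hil hjl] at h2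
    have e1 := he j k hjk
    have e2 := he i k hik
    have e3 := he j l hjl
    have e4 := he i l hil
    have h4 : ((n i j k + n k l j - n k l i - n i j l + e j k - e i k - e j l + e i l : ℤ) : ℂ) *
        (2 * (Real.pi * I)) = 0 := by
      push_cast
      linear_combination h2 - e1 + e2 + e3 - e4
    have h5 := (mul_eq_zero.1 h4).resolve_right (mul_ne_zero two_ne_zero hpi)
    exact_mod_cast h5
  have r1 := hrel 0 1 2 3 (by decide) (by decide) (by decide) (by decide) (by decide) (by decide)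
  have r2 := hrel 0 1 2 4 (by decide) (by decide) (by decide) (by decide) (by decide) (by decide)
  have r3 := hrel 0 1 3 4 (by decide) (by decide) (by decide) (by decide) (by decide) (by decide)
  have r4 := hrel 0 2 1 3 (by decide) (by decide) (by decide) (by decide) (by decide) (by decide)
  have r5 := hrel 0 2 1 4 (by decide) (by decide) (by decide) (by decide) (by decide) (by decide)
  have r6 := hrel 0 2 3 4 (by decide) (by decide) (by decide) (by decide) (by decide) (by decide)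
  have r7 := hrel 0 3 1 2 (by decide) (by decide) (by decide) (by decide) (by decide) (by decide)
  have r8 := hrel 0 3 1 4 (by decide) (by decide) (by decide) (by decide) (by decide) (by decide)
  have r9 := hrel 0 3 2 4 (by decide) (by decide) (by decide) (by decide) (by decide) (by decide)
  have r10 := hrel 0 4 1 2 (by decide) (by decide) (by decide) (by decide) (by decide) (by decide)
  have r11 := hrel 0 4 1 3 (by decide) (by decide) (by decide) (by decide) (by decide) (by decide)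
  have r12 := hrel 0 4 2 3 (by decide) (by decide) (by decide) (by decide) (by decide) (by decide)
  have r13 := hrel 1 2 3 4 (by decide) (by decide) (by decide) (by decide) (by decide) (by decide)
  have r14 := hrel 1 3 2 4 (by decide) (by decide) (by decide) (by decide) (by decide) (by decide)
  have r15 := hrel 1 4 2 3 (by decide) (by decide) (by decide) (by decide) (by decide) (by decide)
  have s1 := hee 1 0 (by decide)
  have s2 := hee 2 0 (by decide)
  have s3 := hee 3 0 (by decide)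
  have s4 := hee 4 0 (by decide)
  have s5 := hee 2 1 (by decide)
  have s6 := hee 3 1 (by decide)
  have s7 := hee 4 1 (by decide)
  have s8 := hee 3 2 (by decide)
  have s9 := hee 4 2 (by decide)
  have s10 := hee 4 3 (by decide)
  omega

end Pool.Agent.Helper49.PP
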