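import Pool.Agent.Helper49.PP.Draw

/-!
# Graphs drawn in the plane have no `K₅` minor: from drawings to curves
-/

namespace Pool.Agent.Helper49.PP

variable {V : Type}

/-- A drawing of the graph without crossings. -/
structure Drawing (G : SimpleGraph V) (p : V → ℝ × ℝ) (γ : V → V → unitInterval → ℝ × ℝ) :
    Prop where
  inj : Function.Injective p
  cont : ∀ u v : V, G.Adj u v → Continuous (γ u v)
  zero : ∀ u v : V, G.Adj u v → γ u v 0 = p u
  one : ∀ u v : V, G.Adj u v → γ u v 1 = p v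
  avoid : ∀ u v : V, G.Adj u v → ∀ w : V, w ≠ u → w ≠ v → ∀ t : unitInterval, γ u v t ≠ p w
  cross : ∀ u v w x : V, G.Adj u v → G.Adj w x → s(u, v) ≠ s(w, x) →
    ∀ t₁ t₂ : unitInterval, γ u v t₁ = γ w x t₂ →
      (γ u v t₁ = p u ∨ γ u v t₁ = p v) ∧ (γ u v t₁ = p w ∨ γ u v t₁ = p x)

/-- The points which belong to the set `S` of vertices. -/
def On (G : SimpleGraph V) (p : V → ℝ × ℝ) (γ : V → V → unitInterval → ℝ × ℝ) (S : Set V)
    (z : ℝ × ℝ) : Prop :=
  (∃ x ∈ S, z = p x) ∨ ∃ x ∈ S, ∃ y ∈ S, G.Adj x y ∧ ∃ t, z = γ x y t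

theorem On.mono {G : SimpleGraph V} {p : V → ℝ × ℝ} {γ : V → V → unitInterval → ℝ × ℝ}
    {S T : Set V} {z : ℝ × ℝ} (h : On G p γ S z) (hST : S ⊆ T) : On G p γ T z := by
  rcases h with ⟨x, hx, h⟩ | ⟨x, hx, y, hy, ha, t, h⟩
  · exact Or.inl ⟨x, hST hx, h⟩
  · exact Or.inr ⟨x, hST hx, y, hST hy, ha, t, h⟩

/-- Disjoint sets of vertices have disjoint drawings. -/
theorem Drawing.disj {G : SimpleGraph V} {p : V → ℝ × ℝ} {γ : V → V → unitInterval → ℝ × ℝ}
    (h : Drawing G p γ) {S T : Set V} (hST : Disjoint S T) {z : ℝ × ℝ} (h1 : On G p γ S z)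
    (h2 : On G p γ T z) : False := by
  have hne : ∀ x ∈ S, ∀ y ∈ T, x ≠ y := by
    rintro x hx y hy rfl
    exact Set.disjoint_left.1 hST hx hy
  rcases h1 with ⟨x, hx, h1⟩ | ⟨x, hx, y, hy, ha, t, h1⟩
  · rcases h2 with ⟨x', hx', h2⟩ | ⟨x', hx', y', hy', ha', t', h2⟩
    · exact hne x hx x' hx' (h.inj (h1.symm.trans h2))
    · exact h.avoid x' y' ha' x (hne x hx x' hx') (hne x hx y' hy') t' (h2.symm.trans h1)
  · rcases h2 with ⟨x', hx', h2⟩ | ⟨x', hx', y', hy', ha', t', h2⟩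
    · exact h.avoid x y ha x' (Ne.symm (hne x hx x' hx')) (Ne.symm (hne y hy x' hx')) t
        (h1.symm.trans h2)
    · have hs : s(x, y) ≠ s(x', y') := by
        intro h3
        rcases Sym2.eq_iff.1 h3 with h4 | h4
        · exact hne x hx x' hx' h4.1
        · exact hne x hx y' hy' h4.1
      obtain ⟨h5, h6⟩ := h.cross x y x' y' ha ha' hs t t' (h1.symm.trans h2)
      rcases h5 with h5 | h5 <;> rcases h6 with h6 | h6
      · exact hne x hx x' hx' (h.inj (h5.symm.trans h6))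
      · exact hne x hx y' hy' (h.inj (h5.symm.trans h6))
      · exact hne y hy x' hx' (h.inj (h5.symm.trans h6))
      · exact hne y hy y' hy' (h.inj (h5.symm.trans h6))

/-- The curve of a walk. -/
theorem Drawing.curve {G : SimpleGraph V} {p : V → ℝ × ℝ} {γ : V → V → unitInterval → ℝ × ℝ}
    (h : Drawing G p γ) {u v : V} (w : G.Walk u v) :
    ∃ c : Path (p u) (p v), ∀ t, On G p γ {x | x ∈ w.support} (c t) := by
  induction w with
  | nil => exact ⟨Path.refl _, fun t => Or.inl ⟨_, by simp, rfl⟩⟩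
  | @cons u v w ha w' ih =>
    obtain ⟨c, hc⟩ := ih
    let e : Path (p u) (p v) := ⟨⟨γ u v, h.cont u v ha⟩, h.zero u v ha, h.one u v ha⟩
    refine ⟨e.trans c, fun t => ?_⟩
    have h1 : (e.trans c) t ∈ Set.range (e.trans c) := ⟨t, rfl⟩
    rw [Path.trans_range] at h1
    rcases h1 with ⟨t', h2⟩ | ⟨t', h2⟩
    · rw [← h2]
      exact Or.inr ⟨u, by simp, v, by simp [w'.start_mem_support], ha, t', rfl⟩
    · rw [← h2]
      refine (hc t').mono ?_
      intro x hx
      simp only [SimpleGraph.Walk.support_cons, List.mem_cons, Set.mem_ofPred_eq] at hx ⊢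
      exact Or.inr hx

/-- Two vertices of a connected set are joined by a curve. -/
theorem Drawing.conn_curve {G : SimpleGraph V} {p : V → ℝ × ℝ}
    {γ : V → V → unitInterval → ℝ × ℝ} (h : Drawing G p γ) {S : Set V}
    (hS : (G.induce S).Connected) {u v : V} (hu : u ∈ S) (hv : v ∈ S) :
    ∃ c : ℝ → ℂ, Continuous c ∧ c 0 = Complex.equivRealProdCLM.symm (p u) ∧
      c 1 = Complex.equivRealProdCLM.symm (p v) ∧
      ∀ s, ∃ z, c s = Complex.equivRealProdCLM.symm z ∧ On G p γ S z := by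
  obtain ⟨w⟩ := hS.preconnected ⟨u, hu⟩ ⟨v, hv⟩
  let w' : G.Walk u v := w.map (SimpleGraph.Embedding.induce S).toHom
  have hw' : ∀ x ∈ w'.support, x ∈ S := by
    intro x hx
    have hx : x ∈ (w.map (SimpleGraph.Embedding.induce S).toHom).support := hx
    rw [SimpleGraph.Walk.support_map, List.mem_map] at hx
    obtain ⟨y, _, rfl⟩ := hx
    exact y.2
  obtain ⟨c, hc⟩ := h.curve w'
  refine ⟨fun s => Complex.equivRealProdCLM.symm (c.extend s),
    Complex.equivRealProdCLM.symm.continuous.comp c.continuous_extend, ?_, ?_, ?_⟩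
  · simp
  · simp
  · intro s
    refine ⟨c.extend s, rfl, ?_⟩
    have h1 : c.extend s ∈ Set.range c := by
      rw [← Path.extend_range c]
      exact ⟨s, rfl⟩
    obtain ⟨t, ht⟩ := h1
    rw [← ht]
    exact (hc t).mono hw'

/-- Graphs which are drawn in the plane without crossings have no `K₅` minor. -/
theorem Drawing.noK5 {G : SimpleGraph V} {p : V → ℝ × ℝ} {γ : V → V → unitInterval → ℝ × ℝ}
    (h : Drawing G p γ) : NoK5 G := by
  intro B hB hd ha
  have hr : ∀ i, ∃ x, x ∈ B i := fun i => by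
    obtain ⟨⟨x, hx⟩⟩ := (hB i).nonempty
    exact ⟨x, hx⟩
  choose r hr using hr
  have hc : ∀ i j, ∃ c : ℝ → ℂ, Continuous c ∧ (i ≠ j →
      c 0 = Complex.equivRealProdCLM.symm (p (r i)) ∧
      c 1 = Complex.equivRealProdCLM.symm (p (r j)) ∧
      ∀ s, ∃ z, c s = Complex.equivRealProdCLM.symm z ∧ On G p γ (B i ∪ B j) z) := by
    intro i j
    by_cases hij : i ≠ j
    · obtain ⟨u, hu, v, hv, huv⟩ := ha i j hij
      have h1 := SimpleGraph.connected_induce_union (hB i).preconnected (hB j).preconnected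
        hu hv huv
      obtain ⟨c, hc0, hc1, hc2, hc3⟩ := h.conn_curve h1 (Or.inl (hr i)) (Or.inr (hr j))
      exact ⟨c, hc0, fun _ => ⟨hc1, hc2, hc3⟩⟩
    · exact ⟨fun _ => 0, continuous_const, fun h1 => absurd h1 hij⟩
  choose c hcc hc using hc
  refine no_k5_curves (fun i => Complex.equivRealProdCLM.symm (p (r i))) c hcc
    (fun i j hij => (hc i j hij.ne).1) (fun i j hij => (hc i j hij.ne).2.1) ?_
  intro i j k l hij hkl hik hil hjk hjl s t hst
  obtain ⟨z, hz, hz2⟩ := (hc i j hij.ne).2.2 s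
  obtain ⟨z', hz', hz2'⟩ := (hc k l hkl.ne).2.2 t
  rw [hz, hz'] at hst
  have h1 : z = z' := Complex.equivRealProdCLM.symm.injective hst
  subst h1
  refine h.disj ?_ hz2 hz2'
  rw [Set.disjoint_union_left, Set.disjoint_union_right, Set.disjoint_union_right]
  exact ⟨⟨hd i k hik, hd i l hil⟩, hd j k hjk, hd j l hjl⟩

end Pool.Agent.Helper49.PP
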