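import Pool.Agent.Helper49.PP.Cover

/-!
# Sparse minors: the length of the cycle is at most a multiple of `c`
-/

namespace Pool.Agent.Helper49.PP

open Finset Pool.Agent.Helper41.PP

variable {V : Type} {G : SimpleGraph V} {f : ℕ → V} {N : ℕ} {D : V → Prop} {β : ℕ}

/-- Independent positions and a covering family of components. -/
theorem exists_cover [Fintype V] {d : ℕ} (hS : Sparse d G) (h : Big G f N D β) (k : ℕ)
    (hk : k + 1 = d * (d + 1)) : ∀ (n : ℕ) (P : Finset ℕ), P.card = n → (∀ i ∈ P, i < N) →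
    ∃ (I I0 : Finset ℕ) (𝒞 : Finset (HD G D).ConnectedComponent), I ⊆ P ∧
      (∀ x ∈ I, ∀ y ∈ I, x ≠ y → ¬ Lk G D f x y) ∧ (∀ K ∈ 𝒞, ∃ x, Att G D K x) ∧
      𝒞.card + k * I0.card ≤ k * I.card ∧ I0.card ≤ I.card ∧
      ∀ y ∈ P, y ∈ I0 ∨ ∃ K ∈ 𝒞, Att G D K (f y) := by
  classical
  intro n
  induction n using Nat.strong_induction_on with
  | _ n ih =>
    intro P hn hPN
    rcases P.eq_empty_or_nonempty with rfl | hP
    · exact ⟨∅, ∅, ∅, by simp, by simp, by simp, by simp, by simp, by simp⟩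
    obtain ⟨x, hx, 𝒟, h𝒟, hatt, hcov⟩ := exists_small hS h P hP hPN
    set P' : Finset ℕ := P.filter fun y => y ≠ x ∧ ∀ K ∈ 𝒟, ¬ Att G D K (f y) with hP'
    have hmemP' : ∀ y, y ∈ P' ↔ y ∈ P ∧ y ≠ x ∧ ∀ K ∈ 𝒟, ¬ Att G D K (f y) := by
      intro y
      rw [hP', mem_filter]
    have hlt : P'.card < n := by
      rw [← hn]
      refine card_lt_card ⟨filter_subset _ _, fun h1 => ?_⟩
      exact ((hmemP' x).1 (h1 hx)).2.1 rfl
    obtain ⟨I, I0, 𝒞, hI, hind, h𝒞a, hc, hc0, hcv⟩ := ih P'.card hlt P' rfl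
      (fun i hi => hPN i ((hmemP' i).1 hi).1)
    have hxI : x ∉ I := fun h1 => ((hmemP' x).1 (hI h1)).2.1 rfl
    have hind' : ∀ u ∈ insert x I, ∀ v ∈ insert x I, u ≠ v → ¬ Lk G D f u v := by
      have hx1 : ∀ v ∈ I, ¬ Lk G D f x v := by
        intro v hv hl
        obtain ⟨h1, h2, h3⟩ := (hmemP' v).1 (hI hv)
        obtain ⟨K, hK, h4⟩ := hcov v h1 h2 hl
        exact h3 K hK h4
      intro u hu v hv huv hl
      rcases mem_insert.1 hu with h1 | h1
      · rcases mem_insert.1 hv with h2 | h2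
        · exact huv (h1.trans h2.symm)
        · rw [h1] at hl
          exact hx1 v h2 hl
      · rcases mem_insert.1 hv with h2 | h2
        · rw [h2] at hl
          exact hx1 u h1 hl.symm
        · exact hind u h1 v h2 huv hl
    have hIP : insert x I ⊆ P := by
      intro y hy
      rcases mem_insert.1 hy with rfl | hy
      · exact hx
      · exact ((hmemP' y).1 (hI hy)).1
    have hcard := card_insert_of_notMem hxI
    have hk1 : k * (I.card + 1) = k * I.card + k := by ring
    rcases 𝒟.eq_empty_or_nonempty with h0 | h0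
    · refine ⟨insert x I, insert x I0, 𝒞, hIP, hind', h𝒞a, ?_, ?_, ?_⟩
      · have h1 := card_insert_le x I0
        have h2 := Nat.mul_le_mul_left k h1
        have h3 : k * (I0.card + 1) = k * I0.card + k := by ring
        rw [hcard, hk1]
        omega
      · have h1 := card_insert_le x I0
        omega
      · intro y hy
        by_cases hyx : y = x
        · exact Or.inl (mem_insert.2 (Or.inl hyx))
        · have h1 : y ∈ P' := by
            rw [hmemP', h0]
            exact ⟨hy, hyx, by simp⟩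
          rcases hcv y h1 with h2 | h2
          · exact Or.inl (mem_insert_of_mem h2)
          · exact Or.inr h2
    · refine ⟨insert x I, I0, 𝒞 ∪ 𝒟, hIP, hind', ?_, ?_, ?_, ?_⟩
      · intro K hK
        rcases mem_union.1 hK with h1 | h1
        · exact h𝒞a K h1
        · exact ⟨_, hatt K h1⟩
      · have h1 := card_union_le 𝒞 𝒟
        rw [hcard, hk1]
        omega
      · omega
      · intro y hy
        by_cases hyx : y = x
        · obtain ⟨K, hK⟩ := h0
          right
          rw [hyx]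
          exact ⟨K, mem_union_right _ hK, hatt K hK⟩
        · by_cases h1 : ∀ K ∈ 𝒟, ¬ Att G D K (f y)
          · rcases hcv y ((hmemP' y).2 ⟨hy, hyx, h1⟩) with h2 | ⟨K, hK, h2⟩
            · exact Or.inl h2
            · exact Or.inr ⟨K, mem_union_left _ hK, h2⟩
          · push Not at h1
            obtain ⟨K, hK, h2⟩ := h1
            exact Or.inr ⟨K, mem_union_right _ hK, h2⟩

/-- The positions which are covered together with their successors. -/
theorem covered_card {d : ℕ} (hS : Sparse d G) (h : Big G f N D β)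
    (𝒞 : Finset (HD G D).ConnectedComponent) (h𝒞 : ∀ K ∈ 𝒞, ∃ x, Att G D K x) (T : Finset ℕ)
    (hT : ∀ i ∈ T, i < N ∧ (∃ K ∈ 𝒞, Att G D K (f i)) ∧ ∃ K ∈ 𝒞, Att G D K (f (i + 1))) :
    T.card ≤ 2 * d * 𝒞.card := by
  classical
  rcases 𝒞.eq_empty_or_nonempty with h0 | h0
  · have h1 : T = ∅ := by
      rw [eq_empty_iff_forall_notMem]
      intro i hi
      obtain ⟨_, ⟨K, hK, _⟩, _⟩ := hT i hi
      rw [h0] at hK
      exact absurd hK (notMem_empty K)
    rw [h1, card_empty]
    exact Nat.zero_le _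
  have hNpos : 0 < N := lt_of_lt_of_le (by norm_num) h.per.two
  have h𝒞ne := h0
  obtain ⟨K0, hK0⟩ := h0
  -- a component for each position
  have hg : ∀ i : ℕ, ∃ K ∈ 𝒞, (∃ K ∈ 𝒞, Att G D K (f i)) → Att G D K (f i) := by
    intro i
    by_cases h1 : ∃ K ∈ 𝒞, Att G D K (f i)
    · obtain ⟨K, hK, h2⟩ := h1
      exact ⟨K, hK, fun _ => h2⟩
    · exact ⟨K0, hK0, fun h2 => absurd h2 h1⟩
  choose g hg𝒞 hgatt using hg
  let k : ℕ → (HD G D).ConnectedComponent := fun i => g (i % N)
  have hk𝒞 : ∀ i, k i ∈ 𝒞 := fun i => hg𝒞 _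
  have hkatt : ∀ i, (∃ K ∈ 𝒞, Att G D K (f i)) → Att G D (k i) (f i) := by
    intro i hi
    have h1 := hgatt (i % N)
    rw [h.per.mod i] at h1
    exact h1 hi
  have hkf : ∀ i j, f i = f j → k i = k j := by
    intro i j hij
    rw [← h.per.mod i, ← h.per.mod j] at hij
    have h1 := h.per.inj _ _ (Nat.mod_lt _ hNpos) (Nat.mod_lt _ hNpos) hij
    simp only [k, h1]
  have hout : ∀ K ∈ 𝒞, ∀ v ∈ K.supp, D v := by
    intro K hK
    obtain ⟨x, hx⟩ := h𝒞 K hK
    exact att_supp hx
  set B : (HD G D).ConnectedComponent → Set V := fun K => K.supp ∪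
    ⋃ i ∈ {i : ℕ | (∃ K ∈ 𝒞, Att G D K (f i)) ∧ k i = K}, {f i} with hB
  have hFB : Fam G 𝒞 B := by
    constructor
    · intro K _
      refine star_conn (supp_conn K) _ _ (fun i _ => single_conn _) ?_
      rintro i ⟨hi, rfl⟩
      exact (att_ad (hkatt i hi)).symm
    · intro K hK K' hK' hne
      rw [Set.disjoint_left]
      rintro v (h1 | h1) (h2 | h2)
      · exact (Set.disjoint_left.1 (supp_disj hne)) h1 h2
      · simp only [Set.mem_iUnion, Set.mem_singleton_iff] at h2
        obtain ⟨i, _, hv⟩ := h2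
        have h3 := hout K hK v h1
        rw [hv] at h3
        exact h.out _ h3
      · simp only [Set.mem_iUnion, Set.mem_singleton_iff] at h1
        obtain ⟨i, _, hv⟩ := h1
        have h3 := hout K' hK' v h2
        rw [hv] at h3
        exact h.out _ h3
      · simp only [Set.mem_iUnion, Set.mem_singleton_iff] at h1 h2
        obtain ⟨i, ⟨_, hi⟩, hv⟩ := h1
        obtain ⟨j, ⟨_, hj⟩, hv'⟩ := h2
        exact hne (hi.symm.trans ((hkf i j (hv.symm.trans hv')).trans hj))
  have h1 : (T.image fun i => (k i, k (i + 1))).card ≤ DD G 𝒞 B := by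
    refine card_le_DD ?_
    intro p hp
    obtain ⟨i, hi, rfl⟩ := mem_image.1 hp
    obtain ⟨_, h2, h3⟩ := hT i hi
    refine ⟨hk𝒞 i, hk𝒞 (i + 1), ?_, ?_⟩
    · intro h4
      have h4' : k i = k (i + 1) := h4
      have h5 := hkatt i h2
      rw [h4'] at h5
      exact h.cons h5 (hkatt (i + 1) h3)
    · refine ⟨f i, Or.inr ?_, f (i + 1), Or.inr ?_, h.per.adj i⟩
      · simp only [Set.mem_iUnion, Set.mem_singleton_iff]
        exact ⟨i, ⟨h2, rfl⟩, rfl⟩
      · simp only [Set.mem_iUnion, Set.mem_singleton_iff]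
        exact ⟨i + 1, ⟨h3, rfl⟩, rfl⟩
  have h2 : (T.image fun i => (k i, k (i + 1))).card = T.card := by
    refine card_image_of_injOn ?_
    intro i hi j hj hij
    have e1 : k i = k j := congrArg Prod.fst hij
    have e2 : k (i + 1) = k (j + 1) := congrArg Prod.snd hij
    obtain ⟨hiN, hi1, hi2⟩ := hT i hi
    obtain ⟨hjN, hj1, hj2⟩ := hT j hj
    have l1 : Lk G D f i j := ⟨k i, hkatt i hi1, e1 ▸ hkatt j hj1⟩
    have l2 : Lk G D f (i + 1) (j + 1) := ⟨k (i + 1), hkatt _ hi2, e2 ▸ hkatt _ hj2⟩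
    rcases lt_trichotomy i j with h3 | h3 | h3
    · exact (h.two h3 (by omega) l1 l2).elim
    · exact h3
    · exact (h.two h3 (by omega) l1.symm l2.symm).elim
  have h3 := hS _ 𝒞 B h𝒞ne hFB
  omega

/-- The length of the cycle. -/
theorem length_le [Fintype V] {d c : ℕ} (hd : 1 ≤ d) (hS : Sparse d G) (h : Big G f N D β)
    (hE : Exc G f N D β c) : N ≤ (2 * d * (d * (d + 1) - 1) + 2) * c := by
  classical
  have hNpos : 0 < N := lt_of_lt_of_le (by norm_num) h.per.two
  obtain ⟨k, hk⟩ : ∃ k, k + 1 = d * (d + 1) := ⟨d * (d + 1) - 1, by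
    have : 0 < d * (d + 1) := Nat.mul_pos hd (Nat.succ_pos d)
    omega⟩
  have hk1 : 1 ≤ k := by
    have : 1 * 2 ≤ d * (d + 1) := Nat.mul_le_mul hd (by omega)
    omega
  have hk2 : d * (d + 1) - 1 = k := by omega
  rw [hk2]
  set P : Finset ℕ := (range N).filter fun i => ¬ Hi G D f β i with hP
  obtain ⟨I, I0, 𝒞, hI, hind, h𝒞, hcard, hI0, hcov⟩ := exists_cover hS h k hk P.card P rfl
    (fun i hi => mem_range.1 (mem_filter.1 hi).1)
  have hIc : I.card ≤ c := h.indep hE
    (fun i hi => mem_range.1 (mem_filter.1 (hI hi)).1)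
    (fun i hi => (mem_filter.1 (hI hi)).2) hind
  -- the positions which are not covered
  set X : Finset ℕ := (range N).filter fun i => ¬ ∃ K ∈ 𝒞, Att G D K (f i) with hX
  have hXc : X.card ≤ c + I0.card := by
    have h1 : X ⊆ ((range N).filter fun i => Hi G D f β i) ∪ I0 := by
      intro i hi
      obtain ⟨h2, h3⟩ := mem_filter.1 hi
      by_cases h4 : Hi G D f β i
      · exact mem_union_left _ (mem_filter.2 ⟨h2, h4⟩)
      · rcases hcov i (mem_filter.2 ⟨h2, h4⟩) with h5 | h5
        · exact mem_union_right _ h5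
        · exact absurd h5 h3
    have h2 := card_le_card h1
    have h3 := card_union_le ((range N).filter fun i => Hi G D f β i) I0
    have h4 : ((range N).filter fun i => Hi G D f β i).card ≤ c := by
      refine h.high hE fun i hi => ?_
      obtain ⟨h5, h6⟩ := mem_filter.1 hi
      exact ⟨mem_range.1 h5, h6⟩
    omega
  set T : Finset ℕ := (range N).filter fun i => (∃ K ∈ 𝒞, Att G D K (f i)) ∧
    ∃ K ∈ 𝒞, Att G D K (f (i + 1)) with hT
  have hTc : T.card ≤ 2 * d * 𝒞.card := by
    refine covered_card hS h 𝒞 h𝒞 T fun i hi => ?_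
    obtain ⟨h1, h2⟩ := mem_filter.1 hi
    exact ⟨mem_range.1 h1, h2⟩
  have hN : N ≤ T.card + (X.card + X.card) := by
    have h1 : range N ⊆ T ∪ (X ∪ (range N).filter fun i => (i + 1) % N ∈ X) := by
      intro i hi
      by_cases h2 : ∃ K ∈ 𝒞, Att G D K (f i)
      · by_cases h3 : ∃ K ∈ 𝒞, Att G D K (f (i + 1))
        · exact mem_union_left _ (mem_filter.2 ⟨hi, h2, h3⟩)
        · refine mem_union_right _ (mem_union_right _ (mem_filter.2 ⟨hi, ?_⟩))
          refine mem_filter.2 ⟨mem_range.2 (Nat.mod_lt _ hNpos), ?_⟩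
          rw [h.per.mod]
          exact h3
      · exact mem_union_right _ (mem_union_left _ (mem_filter.2 ⟨hi, h2⟩))
    have h2 := card_le_card h1
    rw [card_range] at h2
    have h3 := card_union_le T (X ∪ (range N).filter fun i => (i + 1) % N ∈ X)
    have h4 := card_union_le X ((range N).filter fun i => (i + 1) % N ∈ X)
    have h5 : ((range N).filter fun i => (i + 1) % N ∈ X).card ≤ X.card := by
      refine card_le_card_of_injOn (fun i => (i + 1) % N) ?_ ?_
      · intro i hi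
        exact (mem_filter.1 hi).2
      · intro i hi j hj hij
        exact succ_inj (mem_range.1 (mem_filter.1 hi).1) (mem_range.1 (mem_filter.1 hj).1) hij
    omega
  -- the numbers
  have h1 : 2 * d * 𝒞.card + 2 * d * (k * I0.card) ≤ 2 * d * (k * I.card) := by
    rw [← mul_add]
    exact Nat.mul_le_mul_left _ hcard
  have h2 : 2 * d * (k * I.card) ≤ 2 * d * (k * c) :=
    Nat.mul_le_mul_left _ (Nat.mul_le_mul_left _ hIc)
  have h3 : 2 * I0.card ≤ 2 * d * (k * I0.card) := by
    have h4 : 2 * 1 * (1 * I0.card) ≤ 2 * d * (k * I0.card) :=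
      Nat.mul_le_mul (Nat.mul_le_mul_left 2 hd) (Nat.mul_le_mul_right _ hk1)
    omega
  have h4 : (2 * d * k + 2) * c = 2 * d * (k * c) + 2 * c := by ring
  rw [h4]
  omega

/-- The exact theorem for lists, sparse minors. -/
theorem sparse_list [Fintype V] {a b d : ℕ} (hd : 1 ≤ d) (hS : Sparse d G)
    (hab : (2 * d * (d * (d + 1) - 1) + 1) * (b - 1) ≤ a)
    (ht : ∀ l, IsP G l → l.length ≤ a + b) {X : Finset V} (hX : MinHit G b X)
    (R : List V) (hR : IsP G R) (hRX : ∀ v ∈ R, v ∈ X) : R.length ≤ a := by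
  classical
  by_contra hcon
  obtain ⟨f, N, D, β, c, hB, hE, hN, hβ⟩ := exists_big ht hX R hR hRX (by omega)
  have h1 := length_le hd hS hB hE
  have h2 : c ≤ b - 1 := by omega
  have h3 : (2 * d * (d * (d + 1) - 1) + 1) * c ≤ (2 * d * (d * (d + 1) - 1) + 1) * (b - 1) :=
    Nat.mul_le_mul_left _ h2
  have h4 : (2 * d * (d * (d + 1) - 1) + 2) * c =
      (2 * d * (d * (d + 1) - 1) + 1) * c + c := by ring
  omega

end Pool.Agent.Helper49.PP
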