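import Pool.Agent.Helper41.PP.Final2
import Pool.Agent.Helper49.PP.Range

/-!
# Path partitions of graphs with sparse minors
-/

namespace Pool.Agent.Helper49.PP

open Finset Pool.Agent.Helper41.PP

variable {V : Type}

theorem sparse_sets [Fintype V] {G : SimpleGraph V} {d : ℕ} (hd : 1 ≤ d) (hS : Sparse d G)
    (a b : ℕ) (h : ∀ (u v : V) (q : G.Walk u v), q.IsPath → q.support.length ≤ a + b)
    (hab : (2 * d * (d * (d + 1) - 1) + 1) * (b - 1) ≤ a)
    (M : Finset V) (hM : Tau G (M : Set V) b)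
    (hmax : ∀ M' : Finset V, Tau G (M' : Set V) b → M'.card ≤ M.card) :
    Tau G (M : Set V)ᶜ a := by
  classical
  have ht := list_of_walk h
  have hX := minHit_compl hM hmax
  rw [tau_iff]
  intro l hl hlM
  refine sparse_list hd hS hab ht hX l hl ?_
  intro v hv
  rw [Finset.mem_sdiff]
  exact ⟨Finset.mem_univ v, fun h1 => hlM v hv (Finset.mem_coe.2 h1)⟩

/-- The path partition theorem for graphs with sparse minors. -/
theorem sparse_partition [Fintype V] {G : SimpleGraph V} {d : ℕ} (hd : 1 ≤ d)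
    (hS : Sparse d G) (a b : ℕ)
    (h : ∀ (u v : V) (q : G.Walk u v), q.IsPath → q.support.length ≤ a + b)
    (hab : (2 * d * (d * (d + 1) - 1) + 1) * (b - 1) ≤ a ∨
      (2 * d * (d * (d + 1) - 1) + 1) * (a - 1) ≤ b) :
    ∃ S : Set V,
      (∀ (u v : ↥S) (q : (G.induce S).Walk u v), q.IsPath → q.support.length ≤ a) ∧
      (∀ (u v : ↥Sᶜ) (q : (G.induce Sᶜ).Walk u v), q.IsPath → q.support.length ≤ b) := by
  classical
  rcases hab with hab | hab
  · obtain ⟨M, hM, hmax⟩ := exists_maximum G b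
    refine ⟨(M : Set V)ᶜ, sparse_sets hd hS a b h hab M hM hmax, ?_⟩
    rw [compl_compl]
    exact hM
  · obtain ⟨M, hM, hmax⟩ := exists_maximum G a
    exact ⟨(M : Set V), hM, sparse_sets hd hS b a
      (fun u v q hq => (add_comm a b) ▸ h u v q hq) hab M hM hmax⟩

/-- The sparseness condition in terms of families of sets. -/
theorem sparse_of {G : SimpleGraph V} {d : ℕ}
    (h : ∀ (n : ℕ) (B : Fin n → Set V), 0 < n → (∀ i, (G.induce (B i)).Connected) →
      (∀ i j, i ≠ j → Disjoint (B i) (B j)) →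
      {p : Fin n × Fin n | p.1 < p.2 ∧ ∃ u ∈ B p.1, ∃ v ∈ B p.2, G.Adj u v}.ncard < d * n) :
    Sparse d G := by
  classical
  intro ι s B hs hF
  obtain ⟨n, hn, ⟨e⟩⟩ : ∃ n, n = s.card ∧ Nonempty (Fin n ≃ s) := ⟨_, rfl, ⟨s.equivFin.symm⟩⟩
  rw [← hn]
  have h1 := h n (fun i => B (e i)) (hn ▸ card_pos.2 hs) (fun i => hF.conn _ (e i).2)
    (fun i j hij => hF.disj _ (e i).2 _ (e j).2 (fun h2 => hij (e.injective (Subtype.ext h2))))
  set T : Finset (Fin n × Fin n) :=
    univ.filter fun p => p.1 < p.2 ∧ Ad G (B (e p.1)) (B (e p.2)) with hT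
  have h2 : {p : Fin n × Fin n | p.1 < p.2 ∧ ∃ u ∈ B (e p.1), ∃ v ∈ B (e p.2),
      G.Adj u v} = (T : Set (Fin n × Fin n)) := by
    ext p
    simp only [hT, coe_filter, mem_univ, true_and]
    rfl
  rw [h2, Set.ncard_coe_finset] at h1
  have h3 : (s.sigma fun i => nb G s B i) ⊆
      (T ∪ T.image Prod.swap).image fun p => (⟨(e p.1 : ι), (e p.2 : ι)⟩ : Σ _ : ι, ι) := by
    rintro ⟨i, j⟩ hij
    rw [mem_sigma] at hij
    obtain ⟨hi, hj⟩ := hij
    obtain ⟨hj, hji, ha⟩ := mem_nb.1 hj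
    have hi : i ∈ s := hi
    have hj : j ∈ s := hj
    have hji : j ≠ i := hji
    refine mem_image.2 ⟨(e.symm ⟨i, hi⟩, e.symm ⟨j, hj⟩), ?_, by simp⟩
    have hne : e.symm ⟨i, hi⟩ ≠ e.symm ⟨j, hj⟩ := by
      intro h4
      exact hji (congrArg Subtype.val (e.symm.injective h4)).symm
    rcases lt_or_gt_of_ne hne with h4 | h4
    · refine mem_union_left _ (mem_filter.2 ⟨mem_univ _, h4, ?_⟩)
      simpa using ha
    · refine mem_union_right _ (mem_image.2 ⟨(e.symm ⟨j, hj⟩, e.symm ⟨i, hi⟩), ?_, rfl⟩)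
      refine mem_filter.2 ⟨mem_univ _, h4, ?_⟩
      simpa using ha.symm
  have h4 : DD G s B ≤ 2 * T.card := by
    have h5 := (card_le_card h3).trans card_image_le
    rw [card_sigma] at h5
    have h6 := card_union_le T (T.image Prod.swap)
    have h7 : (T.image Prod.swap).card ≤ T.card := card_image_le
    unfold DD
    omega
  rw [mul_assoc]
  omega

end Pool.Agent.Helper49.PP
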