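import Pool.Agent.Helper49.PP.Sep

/-!
# Fragmentation of graphs without a `K₅` minor
-/

namespace Pool.Agent.Helper49.PP

open Finset

variable {V : Type} {G : SimpleGraph V}

/-- Halving the sizes of the connected sets. -/
theorem NoK5.halve [DecidableEq V] (hK : NoK5 G) (W : Finset V) {m r : ℕ} (hr : 1 ≤ r)
    (h3 : 3 * (2 * m) ≤ r * r) :
    ∀ (n : ℕ) (S U : Finset V), U.card ≤ n → S ⊆ W →
      (∀ F ⊆ W \ S, Cn G F → m < F.card → F ⊆ U) →
      (∀ F ⊆ W \ S, Cn G F → F.card ≤ 2 * m) →
      ∃ S' ⊆ W, m * S'.card ≤ m * S.card + 5 * r * U.card ∧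
        ∀ F ⊆ W \ S', Cn G F → F.card ≤ m := by
  classical
  intro n
  induction n with
  | zero =>
    intro S U hU hS hSU _
    refine ⟨S, hS, by omega, ?_⟩
    intro F hF hFc
    by_contra h1
    have h2 := card_le_card (hSU F hF hFc (by omega))
    omega
  | succ n ih =>
    intro S U hU hS hSU hS2
    by_cases hex : ∃ F ⊆ W \ S, Cn G F ∧ m < F.card
    · obtain ⟨F0, hF0, hF0c, hF0m⟩ := hex
      obtain ⟨F, hF, hmax⟩ := exists_max_image ((W \ S).powerset.filter fun F => Cn G F) card
        ⟨F0, mem_filter.2 ⟨mem_powerset.2 hF0, hF0c⟩⟩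
      have hF' := mem_filter.1 hF
      have hFW := mem_powerset.1 hF'.1
      have hFc := hF'.2
      have hFm : m < F.card := hF0m.trans_le (hmax F0 (mem_filter.2 ⟨mem_powerset.2 hF0, hF0c⟩))
      have hF2 := hS2 F hFW hFc
      have hFU := hSU F hFW hFc hFm
      obtain ⟨X, hXF, hXr, hX⟩ := hK.sep F hr (le_trans (Nat.mul_le_mul_left 3 hF2) h3)
      have hU1 : (U \ F).card + F.card = U.card := by
        rw [card_sdiff_add_card_eq_card hFU]
      have hnew : ∀ F' ⊆ W \ (S ∪ X), F' ⊆ W \ S := fun F' h1 =>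
        h1.trans (sdiff_subset_sdiff (Subset.refl W) subset_union_left)
      obtain ⟨S', hS', hcard, hgood⟩ := ih (S ∪ X) (U \ F) (by omega)
        (union_subset hS (hXF.trans (hFW.trans sdiff_subset))) (by
          intro F' hF' hF'c hF'm
          have h1 := hSU F' (hnew F' hF') hF'c hF'm
          intro x hx
          refine mem_sdiff.2 ⟨h1 hx, fun hxF => ?_⟩
          have h2 := hmax (F ∪ F') (mem_filter.2 ⟨mem_powerset.2 (union_subset hFW
            (hnew F' hF')), hFc.union_mem hF'c hxF hx⟩)
          have h3 : F ∪ F' = F := (eq_of_subset_of_card_le subset_union_left h2).symm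
          have h4 : F' ⊆ F := by
            rw [← h3]
            exact subset_union_right
          have h5 := hX F' (by
            intro y hy
            refine mem_sdiff.2 ⟨h4 hy, fun hyX => ?_⟩
            exact (mem_sdiff.1 (hF' hy)).2 (mem_union_right _ hyX)) hF'c
          omega)
        (fun F' hF' hF'c => hS2 F' (hnew F' hF') hF'c)
      refine ⟨S', hS', ?_, hgood⟩
      have h1 := card_union_le S X
      have h2 : m * (S ∪ X).card ≤ m * S.card + m * (5 * r) := by
        rw [← mul_add]
        exact Nat.mul_le_mul_left m (by omega)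
      have h4 : m * (5 * r) ≤ 5 * r * F.card := by
        rw [mul_comm]
        exact Nat.mul_le_mul_left _ hFm.le
      have h5 : 5 * r * U.card = 5 * r * (U \ F).card + 5 * r * F.card := by
        rw [← mul_add, hU1]
      omega
    · push Not at hex
      exact ⟨S, hS, by omega, hex⟩

/-- **Fragmentation**: for every `j` there are `50 * 2 ^ (-j) * |W|` vertices such that every
connected set without them has at most `4 ^ j` vertices. -/
theorem NoK5.frag [DecidableEq V] (hK : NoK5 G) (W : Finset V) (j : ℕ) :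
    ∃ S ⊆ W, 2 ^ j * S.card ≤ 50 * W.card ∧ ∀ F ⊆ W \ S, Cn G F → F.card ≤ 4 ^ j := by
  -- downward induction
  have key : ∀ i, i ≤ W.card → ∃ S ⊆ W, 2 ^ (W.card - i) * S.card ≤ 50 * W.card ∧
      ∀ F ⊆ W \ S, Cn G F → F.card ≤ 4 ^ (W.card - i) := by
    intro i
    induction i with
    | zero =>
      intro _
      refine ⟨∅, empty_subset W, by simp, ?_⟩
      intro F hF _
      have h1 := card_le_card (hF.trans sdiff_subset)
      have h2 : W.card < 4 ^ W.card := Nat.lt_pow_self (by norm_num)
      rw [Nat.sub_zero]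
      omega
    | succ i ih =>
      intro hi
      obtain ⟨S, hS, hcard, hF⟩ := ih (by omega)
      obtain ⟨l, hl⟩ : ∃ l, W.card - i = l + 1 := ⟨W.card - i - 1, by omega⟩
      have hl' : W.card - (i + 1) = l := by omega
      rw [hl] at hcard hF
      rw [hl']
      have e4 : (4 : ℕ) ^ l = 2 ^ l * 2 ^ l := by
        rw [← mul_pow]
        norm_num
      have hpos : 0 < 2 ^ l := by positivity
      obtain ⟨S1, hS1, hc1, hF1⟩ := hK.halve W (m := 2 * 4 ^ l) (r := 4 * 2 ^ l) (by omega)
        (by rw [e4]; nlinarith) W.card S W le_rfl hS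
        (fun F h1 _ _ => h1.trans sdiff_subset)
        (fun F h1 h2 => by
          have := hF F h1 h2
          rw [pow_succ] at this
          omega)
      obtain ⟨S2, hS2, hc2, hF2⟩ := hK.halve W (m := 4 ^ l) (r := 3 * 2 ^ l) (by omega)
        (by rw [e4]; nlinarith) W.card S1 W le_rfl hS1
        (fun F h1 _ _ => h1.trans sdiff_subset) hF1
      refine ⟨S2, hS2, ?_, hF2⟩
      have h1 : 2 ^ l * S1.card ≤ 2 ^ l * S.card + 10 * W.card := by
        have h2 : (2 * 2 ^ l) * (2 ^ l * S1.card) ≤
            (2 * 2 ^ l) * (2 ^ l * S.card + 10 * W.card) := by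
          rw [e4] at hc1
          nlinarith
        exact Nat.le_of_mul_le_mul_left h2 (by positivity)
      have h2 : 2 ^ l * S2.card ≤ 2 ^ l * S1.card + 15 * W.card := by
        have h3 : 2 ^ l * (2 ^ l * S2.card) ≤ 2 ^ l * (2 ^ l * S1.card + 15 * W.card) := by
          rw [e4] at hc2
          nlinarith
        exact Nat.le_of_mul_le_mul_left h3 (by positivity)
      rw [pow_succ] at hcard
      have h4 : 2 ^ l * 2 * S.card = 2 * (2 ^ l * S.card) := by ring
      omega
  rcases Nat.lt_or_ge W.card j with h | h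
  · refine ⟨∅, empty_subset W, by simp, ?_⟩
    intro F hF _
    have h1 := card_le_card (hF.trans sdiff_subset)
    have h2 : j < 4 ^ j := Nat.lt_pow_self (by norm_num)
    omega
  · obtain ⟨S, h1, h2, h3⟩ := key (W.card - j) (by omega)
    rw [show W.card - (W.card - j) = j by omega] at h2 h3
    exact ⟨S, h1, h2, h3⟩

end Pool.Agent.Helper49.PP
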