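import Pool.Agent.Helper49.PP.Frag

/-!
# The graph of a family of disjoint connected sets
-/

namespace Pool.Agent.Helper49.PP

open Finset

variable {V ι : Type} {G : SimpleGraph V}

/-- The quotient graph. -/
def Qt (G : SimpleGraph V) (s : Finset ι) (B : ι → Set V) : SimpleGraph ι where
  Adj i j := i ≠ j ∧ i ∈ s ∧ j ∈ s ∧ Ad G (B i) (B j)
  symm := ⟨fun _ _ h => ⟨Ne.symm h.1, h.2.2.1, h.2.1, h.2.2.2.symm⟩⟩
  loopless := ⟨fun _ h => h.1 rfl⟩

theorem conn_union {s : Finset ι} {B : ι → Set V} (hF : Fam G s B) {A : Set ι}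
    (hA : ((Qt G s B).induce A).Connected) (hs : ∀ i ∈ A, i ∈ s) :
    (G.induce (⋃ i ∈ A, B i)).Connected := by
  obtain ⟨⟨i0, hi0⟩⟩ := hA.nonempty
  obtain ⟨⟨u0, hu0⟩⟩ := (hF.conn i0 (hs i0 hi0)).nonempty
  have key : ∀ (i j : A) (_ : ((Qt G s B).induce A).Walk i j), ∀ x ∈ B i, ∀ y ∈ B j,
      ∃ T : Set V, T ⊆ ⋃ i ∈ A, B i ∧ (G.induce T).Connected ∧ x ∈ T ∧ y ∈ T := by
    intro i j w
    induction w with
    | @nil i =>
      intro x hx y hy
      exact ⟨B i, Set.subset_biUnion_of_mem (u := B) i.2, hF.conn _ (hs _ i.2), hx, hy⟩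
    | @cons i k j h w ih =>
      intro x hx y hy
      have h1 : (Qt G s B).Adj i k := h
      obtain ⟨u, hu, v, hv, huv⟩ := h1.2.2.2
      obtain ⟨T, hT, hTc, hvT, hyT⟩ := ih v hv y hy
      refine ⟨B i ∪ T, Set.union_subset (Set.subset_biUnion_of_mem (u := B) i.2) hT, ?_,
        Or.inl hx, Or.inr hyT⟩
      exact SimpleGraph.connected_induce_union (hF.conn _ (hs _ i.2)).preconnected
        hTc.preconnected hu hvT huv
  have hu0' : u0 ∈ ⋃ i ∈ A, B i := Set.mem_biUnion hi0 hu0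
  refine SimpleGraph.induce_connected_of_patches u0 hu0' ?_
  intro v hv
  simp only [Set.mem_iUnion] at hv
  obtain ⟨j, hj, hv⟩ := hv
  obtain ⟨w⟩ := hA.preconnected ⟨i0, hi0⟩ ⟨j, hj⟩
  obtain ⟨T, h1, h2, h3, h4⟩ := key _ _ w u0 hu0 v hv
  exact ⟨T, h1, h3, h4, h2.preconnected _ _⟩

theorem NoK5.qt (h : NoK5 G) {s : Finset ι} {B : ι → Set V} (hF : Fam G s B) :
    NoK5 (Qt G s B) := by
  intro A hA hdj had
  -- all elements are in `s`
  have hs : ∀ l, ∀ i ∈ A l, i ∈ s := by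
    intro l
    obtain ⟨l', hl'⟩ : ∃ l' : Fin 5, l ≠ l' := by
      fin_cases l
      · exact ⟨1, by decide⟩
      all_goals exact ⟨0, by decide⟩
    obtain ⟨u, hu, v, hv, huv⟩ := had l l' hl'
    have key : ∀ (i j : A l) (_ : ((Qt G s B).induce (A l)).Walk i j), (j : ι) ∈ s →
        (i : ι) ∈ s := by
      intro i j w
      cases w with
      | nil => exact id
      | cons h _ =>
        intro _
        have h1 : (Qt G s B).Adj i _ := h
        exact h1.2.1
    intro i hi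
    obtain ⟨w⟩ := (hA l).preconnected ⟨i, hi⟩ ⟨u, hu⟩
    exact key _ _ w huv.2.1
  refine h (fun l => ⋃ i ∈ A l, B i) (fun l => conn_union hF (hA l) (hs l)) ?_ ?_
  · intro l l' hl
    rw [Set.disjoint_left]
    intro x hx hx'
    simp only [Set.mem_iUnion] at hx hx'
    obtain ⟨i, hi, hxi⟩ := hx
    obtain ⟨j, hj, hxj⟩ := hx'
    have hij : i ≠ j := by
      rintro rfl
      exact Set.disjoint_left.1 (hdj l l' hl) hi hj
    exact Set.disjoint_left.1 (hF.disj i (hs l i hi) j (hs l' j hj) hij) hxi hxj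
  · intro l l' hl
    obtain ⟨i, hi, j, hj, hij⟩ := had l l' hl
    obtain ⟨u, hu, v, hv, huv⟩ := hij.2.2.2
    exact ⟨u, Set.mem_biUnion hi hu, v, Set.mem_biUnion hj hv, huv⟩

end Pool.Agent.Helper49.PP
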