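import Pool.Agent.Helper49.PP.BigK
import Pool.Agent.Helper49.PP.Quot

/-!
# Fragmentation of the positions
-/

namespace Pool.Agent.Helper49.PP

open Finset Pool.Agent.Helper41.PP

variable {V : Type} {G : SimpleGraph V} {f : ℕ → V} {N : ℕ} {D : V → Prop} {β : ℕ}

/-- A small family of components which gives all links within `P`. -/
theorem exists_cov [Fintype V] {d : ℕ} (hS : Sparse d G) (h : Big G f N D β)
    (P : Finset ℕ) (hP : P.Nonempty) (hPN : ∀ i ∈ P, i < N) :
    ∃ 𝒟 : Finset (HD G D).ConnectedComponent,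
      (∀ x ∈ P, ∀ y ∈ P, x ≠ y → Lk G D f x y →
        ∃ K ∈ 𝒟, Att G D K (f x) ∧ Att G D K (f y)) ∧
      (∀ K ∈ 𝒟, ∃ x, Att G D K x) ∧ 𝒟.card < d * P.card := by
  classical
  -- a minimal family which gives all links
  let Cov : Finset (HD G D).ConnectedComponent → Prop := fun 𝒟 => ∀ x ∈ P, ∀ y ∈ P, x ≠ y →
    Lk G D f x y → ∃ K ∈ 𝒟, Att G D K (f x) ∧ Att G D K (f y)
  have hfin : Finite (HD G D).ConnectedComponent := inferInstance
  have := Fintype.ofFinite (HD G D).ConnectedComponent
  have hex : ((univ : Finset (Finset (HD G D).ConnectedComponent)).filter Cov).Nonempty := by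
    refine ⟨univ, mem_filter.2 ⟨mem_univ _, ?_⟩⟩
    rintro x _ y _ _ ⟨K, h1, h2⟩
    exact ⟨K, mem_univ _, h1, h2⟩
  obtain ⟨𝒟, h𝒟, hmin⟩ := exists_min_image _ card hex
  have hcov : Cov 𝒟 := (mem_filter.1 h𝒟).2
  have hpriv : ∀ K : (HD G D).ConnectedComponent, ∃ x y : ℕ, K ∈ 𝒟 → x ∈ P ∧ y ∈ P ∧ x ≠ y ∧
      Att G D K (f x) ∧ Att G D K (f y) ∧
      ∀ K' ∈ 𝒟, Att G D K' (f x) → Att G D K' (f y) → K' = K := by
    intro K
    by_cases hK : K ∈ 𝒟
    · have h1 : ¬ Cov (𝒟.erase K) := by
        intro h1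
        have h2 := hmin _ (mem_filter.2 ⟨mem_univ _, h1⟩)
        have h3 := card_erase_lt_of_mem hK
        omega
      simp only [Cov] at h1
      push Not at h1
      obtain ⟨x, hx, y, hy, hxy, hl, hn⟩ := h1
      obtain ⟨K0, hK0, h2, h3⟩ := hcov x hx y hy hxy hl
      have huniq : ∀ K' ∈ 𝒟, Att G D K' (f x) → Att G D K' (f y) → K' = K := by
        intro K' hK' h4 h5
        by_contra h6
        exact hn K' (mem_erase.2 ⟨h6, hK'⟩) h4 h5
      have h4 := huniq K0 hK0 h2 h3
      subst h4
      exact ⟨x, y, fun _ => ⟨hx, hy, hxy, h2, h3, huniq⟩⟩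
    · exact ⟨0, 0, fun h => absurd h hK⟩
  choose px py hp using hpriv
  have hfd : ∀ i ∈ P, ∀ j ∈ P, i ≠ j → f i ≠ f j := by
    intro i hi j hj hij h1
    exact hij (h.per.inj i j (hPN i hi) (hPN j hj) h1)
  refine ⟨𝒟, hcov, fun K hK => ⟨_, (hp K hK).2.2.2.1⟩, ?_⟩
  -- the number of components of the family
  set B : ℕ → Set V := fun x => {f x} ∪ ⋃ K ∈ {K | K ∈ 𝒟 ∧ px K = x}, K.supp with hB
  have hF : Fam G P B := by
    constructor
    · intro x hx
      refine star_conn (single_conn _) _ _ (fun K _ => supp_conn K) ?_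
      rintro K ⟨hK, rfl⟩
      exact att_ad (hp K hK).2.2.2.1
    · intro x hx y hy hxy
      rw [Set.disjoint_left]
      rintro v (h1 | h1) (h2 | h2)
      · exact hfd x hx y hy hxy ((show v = f x from h1).symm.trans (show v = f y from h2))
      · simp only [Set.mem_iUnion] at h2
        obtain ⟨K, ⟨hK, _⟩, hv⟩ := h2
        have h3 := att_supp (hp K hK).2.2.2.1 v hv
        rw [show v = f x from h1] at h3
        exact h.out _ h3
      · simp only [Set.mem_iUnion] at h1
        obtain ⟨K, ⟨hK, _⟩, hv⟩ := h1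
        have h3 := att_supp (hp K hK).2.2.2.1 v hv
        rw [show v = f y from h2] at h3
        exact h.out _ h3
      · simp only [Set.mem_iUnion] at h1 h2
        obtain ⟨K, ⟨hK, hKx⟩, hv⟩ := h1
        obtain ⟨K', ⟨hK', hKy⟩, hv'⟩ := h2
        have h3 : K = K' := (show _ = K from hv).symm.trans (show _ = K' from hv')
        subst h3
        exact hxy (hKx.symm.trans hKy)
  have h1 : 2 * (𝒟.image fun K => (px K, py K)).card ≤ DD G P B := by
    refine two_card_le_DD ?_ ?_
    · intro p hp'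
      obtain ⟨K, hK, rfl⟩ := mem_image.1 hp'
      obtain ⟨h2, h3, h4, h5, h6, _⟩ := hp K hK
      refine ⟨h2, h3, h4, ?_⟩
      obtain ⟨u, _, huK, hyu⟩ := h6
      refine ⟨u, Or.inr ?_, f (py K), Or.inl rfl, hyu.symm⟩
      simp only [Set.mem_iUnion]
      exact ⟨K, ⟨hK, rfl⟩, huK⟩
    · intro p hp' hp''
      obtain ⟨K, hK, rfl⟩ := mem_image.1 hp'
      obtain ⟨K', hK', he⟩ := mem_image.1 hp''
      have e1 : px K' = py K := congrArg Prod.fst he
      have e2 : py K' = px K := congrArg Prod.snd he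
      obtain ⟨_, _, h4, h5, h6, h7⟩ := hp K hK
      obtain ⟨_, _, _, h5', h6', _⟩ := hp K' hK'
      rw [e1] at h5'
      rw [e2] at h6'
      have h8 := h7 K' hK' h6' h5'
      subst h8
      exact h4 (e2.symm ▸ e1 ▸ rfl)
  have h2 : (𝒟.image fun K => (px K, py K)).card = 𝒟.card := by
    refine card_image_of_injOn ?_
    intro K hK K' hK' he
    have e1 : px K = px K' := congrArg Prod.fst he
    have e2 : py K = py K' := congrArg Prod.snd he
    obtain ⟨_, _, _, h5, h6, _⟩ := hp K hK
    obtain ⟨_, _, _, _, _, h7⟩ := hp K' hK'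
    rw [e1] at h5
    rw [e2] at h6
    exact h7 K hK h5 h6
  have h3 := hS ℕ P B hP hF
  rw [h2] at h1
  rw [mul_assoc] at h3
  omega

/-- Two positions are adjacent or linked. -/
def Nr (G : SimpleGraph V) (D : V → Prop) (f : ℕ → V) (x y : ℕ) : Prop :=
  G.Adj (f x) (f y) ∨ Lk G D f x y

/-- Fragmentation of the positions. -/
theorem frag_pos [Fintype V] (hK : NoK5 G) (h : Big G f N D β) (P : Finset ℕ)
    (hPN : ∀ i ∈ P, i < N) {t : ℕ} (ht : 1 ≤ t)
    (hPt : ∀ i ∈ P, ∀ K, Att G D K (f i) → (ft G D f N K).card ≤ t) (j : ℕ) :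
    ∃ I ⊆ P, 2 ^ j * (P \ I).card ≤ 200 * t * N ∧
      ∀ (x : ℕ) (L : List ℕ), (∀ y ∈ x :: L, y ∈ I) → (x :: L).IsChain (Nr G D f) →
        (x :: L).toFinset.card ≤ 4 ^ j := by
  classical
  rcases P.eq_empty_or_nonempty with h0 | hP
  · refine ⟨∅, empty_subset P, by rw [h0]; simp, ?_⟩
    intro x L hL
    exact absurd (hL x List.mem_cons_self) (notMem_empty x)
  obtain ⟨𝒟, hcov, hatt, hcard⟩ := exists_cov hK.sparse h P hP hPN
  have hF := fam_sum h hPN hatt
  obtain ⟨S, hSs, hSc, hSf⟩ := (hK.qt hF).frag (P.disjSum 𝒟) j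
  refine ⟨P.filter fun i => Sum.inl i ∉ S ∧ ∀ K ∈ 𝒟, Att G D K (f i) → Sum.inr K ∉ S,
    filter_subset _ _, ?_, ?_⟩
  · set I := P.filter fun i => Sum.inl i ∉ S ∧ ∀ K ∈ 𝒟, Att G D K (f i) → Sum.inr K ∉ S with hI
    have h1 : P.card ≤ N := by
      have h2 : P ⊆ range N := fun i hi => mem_range.2 (hPN i hi)
      exact (card_le_card h2).trans (le_of_eq (card_range N))
    set g : ℕ ⊕ (HD G D).ConnectedComponent → Finset ℕ := Sum.elim (fun i => {i})
      (fun K => if ∃ x ∈ P, Att G D K (f x) then ft G D f N K else ∅) with hg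
    have hgc : ∀ z ∈ S, (g z).card ≤ t := by
      rintro (i | K) _
      · simp only [hg, Sum.elim_inl, card_singleton]
        exact ht
      · simp only [hg, Sum.elim_inr]
        split_ifs with h2
        · obtain ⟨x, hx, hxK⟩ := h2
          exact hPt x hx K hxK
        · simp
    have h3 : P \ I ⊆ S.biUnion g := by
      intro i hi
      obtain ⟨hiP, hiI⟩ := mem_sdiff.1 hi
      rw [hI, mem_filter, not_and, not_and_or] at hiI
      rw [mem_biUnion]
      rcases hiI hiP with h4 | h4
      · rw [not_not] at h4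
        exact ⟨Sum.inl i, h4, by simp [hg]⟩
      · push Not at h4
        obtain ⟨K, _, hKi, hKS⟩ := h4
        refine ⟨Sum.inr K, hKS, ?_⟩
        simp only [hg, Sum.elim_inr]
        rw [if_pos ⟨i, hiP, hKi⟩]
        exact mem_ft.2 ⟨hPN i hiP, hKi⟩
    have h4 : (P \ I).card ≤ t * S.card := by
      refine (card_le_card h3).trans (card_biUnion_le.trans ?_)
      rw [mul_comm, ← smul_eq_mul, ← sum_const]
      exact sum_le_sum hgc
    rw [card_disjSum] at hSc
    calc 2 ^ j * (P \ I).card ≤ 2 ^ j * (t * S.card) := Nat.mul_le_mul_left _ h4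
      _ = t * (2 ^ j * S.card) := by ring
      _ ≤ t * (50 * (P.card + 𝒟.card)) := Nat.mul_le_mul_left _ hSc
      _ ≤ t * (200 * N) := Nat.mul_le_mul_left _ (by omega)
      _ = 200 * t * N := by ring
  · have hI : ∀ i, i ∈ (P.filter fun i => Sum.inl i ∉ S ∧ ∀ K ∈ 𝒟, Att G D K (f i) →
        Sum.inr K ∉ S) ↔ i ∈ P ∧ Sum.inl i ∉ S ∧ ∀ K ∈ 𝒟, Att G D K (f i) → Sum.inr K ∉ S := by
      intro i
      rw [mem_filter]
    have key : ∀ (L : List ℕ) (x : ℕ), (∀ y ∈ x :: L, y ∈ P.filter fun i => Sum.inl i ∉ S ∧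
        ∀ K ∈ 𝒟, Att G D K (f i) → Sum.inr K ∉ S) → (x :: L).IsChain (Nr G D f) →
        ∃ F ⊆ (P.disjSum 𝒟) \ S, Cn (Qt G (P.disjSum 𝒟) (SB f)) F ∧
          ∀ y ∈ x :: L, Sum.inl y ∈ F := by
      intro L
      induction L with
      | nil =>
        intro x hx _
        have h1 := (hI x).1 (hx x List.mem_cons_self)
        refine ⟨{Sum.inl x}, ?_, Cn.single _, ?_⟩
        · rw [singleton_subset_iff, mem_sdiff, inl_mem_disjSum]
          exact ⟨h1.1, h1.2.1⟩
        · intro y hy
          rw [List.mem_singleton] at hy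
          rw [hy]
          exact mem_singleton_self _
      | cons y L ih =>
        intro x hx hc
        have hxI := (hI x).1 (hx x List.mem_cons_self)
        have hyI := (hI y).1 (hx y (List.mem_cons_of_mem _ List.mem_cons_self))
        obtain ⟨F, hFs, hFc, hFm⟩ := ih y (fun z hz => hx z (List.mem_cons_of_mem _ hz))
          (List.isChain_cons_cons.1 hc).2
        have hxy := (List.isChain_cons_cons.1 hc).1
        have hxs : Sum.inl x ∈ (P.disjSum 𝒟) \ S := by
          rw [mem_sdiff, inl_mem_disjSum]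
          exact ⟨hxI.1, hxI.2.1⟩
        by_cases hne : x = y
        · refine ⟨F, hFs, hFc, ?_⟩
          intro z hz
          rcases List.mem_cons.1 hz with h1 | h1
          · rw [h1, hne]
            exact hFm y List.mem_cons_self
          · exact hFm z h1
        · have hnes : (Sum.inl x : ℕ ⊕ (HD G D).ConnectedComponent) ≠ Sum.inl y := by
            intro h1
            exact hne (Sum.inl_injective h1)
          rcases hxy with h1 | h1
          · refine ⟨{Sum.inl x} ∪ F, union_subset (by simpa using hxs) hFs,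
              (Cn.single _).union_adj hFc (mem_singleton_self _) (hFm y List.mem_cons_self) ?_,
              ?_⟩
            · exact ⟨hnes, inl_mem_disjSum.2 hxI.1, inl_mem_disjSum.2 hyI.1, f x, rfl, f y, rfl,
                h1⟩
            · intro z hz
              rcases List.mem_cons.1 hz with h1 | h1
              · rw [h1]
                exact mem_union_left _ (mem_singleton_self _)
              · exact mem_union_right _ (hFm z h1)
          · obtain ⟨K, hKD, hKx, hKy⟩ := hcov x hxI.1 y hyI.1 hne h1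
            have hKs : Sum.inr K ∈ (P.disjSum 𝒟) \ S := by
              rw [mem_sdiff, inr_mem_disjSum]
              exact ⟨hKD, hxI.2.2 K hKD hKx⟩
            have c1 : Cn (Qt G (P.disjSum 𝒟) (SB f)) ({Sum.inl x} ∪ {Sum.inr K}) := by
              refine (Cn.single _).union_adj (Cn.single _) (mem_singleton_self _)
                (mem_singleton_self _) ?_
              exact ⟨by simp, inl_mem_disjSum.2 hxI.1, inr_mem_disjSum.2 hKD, att_ad hKx⟩
            refine ⟨({Sum.inl x} ∪ {Sum.inr K}) ∪ F, union_subset (union_subset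
              (by simpa using hxs) (by simpa using hKs)) hFs,
              c1.union_adj hFc (mem_union_right _ (mem_singleton_self _))
                (hFm y List.mem_cons_self) ?_, ?_⟩
            · exact ⟨by simp, inr_mem_disjSum.2 hKD, inl_mem_disjSum.2 hyI.1,
                (att_ad hKy).symm⟩
            · intro z hz
              rcases List.mem_cons.1 hz with h1 | h1
              · rw [h1]
                exact mem_union_left _ (mem_union_left _ (mem_singleton_self _))
              · exact mem_union_right _ (hFm z h1)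
    intro x L hL hc
    obtain ⟨F, hFs, hFc, hFm⟩ := key L x hL hc
    refine le_trans ?_ (hSf F hFs hFc)
    refine card_le_card_of_injOn Sum.inl ?_ (fun a _ b _ hab => Sum.inl_injective hab)
    intro y hy
    exact hFm y (List.mem_toFinset.1 hy)

end Pool.Agent.Helper49.PP
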