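import Pool.Agent.Helper49.PP.FragP

/-!
# Long jumps through one component
-/

namespace Pool.Agent.Helper49.PP

open Finset Pool.Agent.Helper41.PP

variable {V : Type} {G : SimpleGraph V} {f : ℕ → V} {N : ℕ} {D : V → Prop} {β : ℕ}

theorem run_comp {x y : V} {J : List V} (hJ : IsP G (x :: (J ++ [y]))) (h0 : J ≠ [])
    (hD : ∀ v ∈ J, D v) : ∃ K, Att G D K x ∧ Att G D K y ∧
      ∀ v ∈ J, (HD G D).connectedComponentMk v = K := by
  have e1 : x :: (J ++ [y]) = [] ++ ((x :: J) ++ [y]) := by simp
  have hJ1 : IsP G (x :: J) := by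
    rw [e1] at hJ
    exact hJ.inner
  have hJr : IsP G (y :: J.reverse) := by
    have h1 := hJ.reverse
    have e2 : (x :: (J ++ [y])).reverse = [] ++ ((y :: J.reverse) ++ [x]) := by simp
    rw [e2] at h1
    exact h1.inner
  obtain ⟨K, hK, hK'⟩ := piece_comp hJ1 h0 hD
  obtain ⟨K₂, hK₂, hK₂'⟩ := piece_comp hJr (by simpa using h0)
    (fun v hv => hD v (List.mem_reverse.1 hv))
  obtain ⟨u, hu⟩ := List.exists_mem_of_ne_nil J h0
  have h4 := (hK' u hu).symm.trans (hK₂' u (List.mem_reverse.2 hu))
  rw [← h4] at hK₂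
  exact ⟨K, hK, hK₂, hK'⟩

theorem nr_of_run {i j : ℕ} {J : List V} (hJ : IsP G (f i :: (J ++ [f j])))
    (hD : ∀ v ∈ J, D v) : Nr G D f i j := by
  by_cases h0 : J = []
  · left
    rw [h0] at hJ
    exact (List.isChain_cons_cons.1 hJ.1).1
  · right
    obtain ⟨K, h1, h2, _⟩ := run_comp hJ h0 hD
    exact ⟨K, h1, h2⟩

/-- A long run without positions, or few vertices between the first and the last position. -/
theorem runs {I : Finset ℕ} {l : ℕ} : ∀ (n : ℕ) (M : List V) (i j : ℕ),
    M.length ≤ n → i ∈ I → j ∈ I → IsP G (f i :: (M ++ [f j])) →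
    (∀ v ∈ M, (∃ i ∈ I, f i = v) ∨ D v) →
    (∃ i' ∈ I, ∃ j' ∈ I, ∃ J, IsP G (f i' :: (J ++ [f j'])) ∧ (∀ v ∈ J, D v) ∧ l ≤ J.length) ∨
    ∃ L : List ℕ, (i :: L).IsChain (Nr G D f) ∧ (∀ x ∈ i :: L, x ∈ I) ∧
      ((i :: L).map f).Sublist (f i :: (M ++ [f j])) ∧ M.length + 1 ≤ L.length * l := by
  intro n
  induction n with
  | zero =>
    intro M i j hn hi hj hP hM
    have h0 : M = [] := List.length_eq_zero_iff.1 (by omega)
    subst h0
    by_cases hl : l ≤ 0
    · exact Or.inl ⟨i, hi, j, hj, [], hP, by simp, by simpa using hl⟩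
    · refine Or.inr ⟨[j], ?_, ?_, ?_, ?_⟩
      · rw [List.isChain_cons_cons]
        exact ⟨nr_of_run hP (by simp), List.isChain_singleton _⟩
      · intro x hx
        simp only [List.mem_cons, List.not_mem_nil, or_false] at hx
        rcases hx with rfl | rfl
        · exact hi
        · exact hj
      · simp
      · simp only [List.length_cons, List.length_nil]
        omega
  | succ n ih =>
    intro M i j hn hi hj hP hM
    by_cases hex : ∃ v ∈ M, ∃ i ∈ I, f i = v
    · obtain ⟨J, v, B, rfl, ⟨i', hi', rfl⟩, hJ⟩ := exists_first (p := fun v => ∃ i ∈ I, f i = v) hex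
      have hJD : ∀ v ∈ J, D v := fun v hv =>
        (hM v (List.mem_append_left _ hv)).resolve_left (hJ v hv)
      have e1 : f i :: ((J ++ f i' :: B) ++ [f j]) = [] ++ ((f i :: (J ++ [f i'])) ++
          (B ++ [f j])) := by simp
      have e2 : f i :: ((J ++ f i' :: B) ++ [f j]) = (f i :: J) ++ ((f i' :: (B ++ [f j])) ++
          []) := by simp
      have hP1 : IsP G (f i :: (J ++ [f i'])) := by
        rw [e1] at hP
        exact hP.inner
      have hP2 : IsP G (f i' :: (B ++ [f j])) := by
        rw [e2] at hP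
        exact hP.inner
      by_cases hl : l ≤ J.length
      · exact Or.inl ⟨i, hi, i', hi', J, hP1, hJD, hl⟩
      · rw [List.length_append, List.length_cons] at hn
        rcases ih B i' j (by omega) hi' hj hP2 (fun v hv => hM v (by simp [hv])) with h1 | h1
        · exact Or.inl h1
        · obtain ⟨L, hc, hLI, hsub, hlen⟩ := h1
          refine Or.inr ⟨i' :: L, ?_, ?_, ?_, ?_⟩
          · rw [List.isChain_cons_cons]
            exact ⟨nr_of_run hP1 hJD, hc⟩
          · intro x hx
            rcases List.mem_cons.1 hx with rfl | h2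
            · exact hi
            · exact hLI x h2
          · rw [List.map_cons]
            refine List.Sublist.cons_cons _ ?_
            have e3 : (J ++ f i' :: B) ++ [f j] = J ++ (f i' :: (B ++ [f j])) := by simp
            rw [e3]
            exact List.sublist_append_of_sublist_right hsub
          · rw [List.length_append, List.length_cons, List.length_cons, add_mul, one_mul]
            omega
    · push Not at hex
      have hMD : ∀ v ∈ M, D v := fun v hv => (hM v hv).resolve_left (by
        rintro ⟨a, ha, hav⟩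
        exact hex v hv a ha hav)
      by_cases hl : l ≤ M.length
      · exact Or.inl ⟨i, hi, j, hj, M, hP, hMD, hl⟩
      · refine Or.inr ⟨[j], ?_, ?_, ?_, ?_⟩
        · rw [List.isChain_cons_cons]
          exact ⟨nr_of_run hP hMD, List.isChain_singleton _⟩
        · intro x hx
          simp only [List.mem_cons, List.not_mem_nil, or_false] at hx
          rcases hx with rfl | rfl
          · exact hi
          · exact hj
        · simp only [List.map_cons, List.map_nil]
          refine List.Sublist.cons_cons _ ?_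
          exact List.sublist_append_right M [f j]
        · simp only [List.length_cons, List.length_nil]
          omega

/-- A jump of length `l`, if the positions are fragmented and not very high. -/
theorem exists_jump {c : ℕ} (hE : Exc G f N D β c) {I : Finset ℕ}
    (hIN : ∀ i ∈ I, i < N) (hc : c + 1 ≤ I.card) {k l e : ℕ} (hl : 1 ≤ l)
    (hk : k * l + 2 * e ≤ β + c + 3)
    (hfr : ∀ (x : ℕ) (L : List ℕ), (∀ y ∈ x :: L, y ∈ I) → (x :: L).IsChain (Nr G D f) →
      (x :: L).toFinset.card ≤ k)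
    (hv : ∀ i ∈ I, ¬ ∃ A, IsP G (f i :: A) ∧ (∀ v ∈ A, D v) ∧ e ≤ A.length) :
    ∃ i ∈ I, ∃ j ∈ I, ∃ J, IsP G (f i :: (J ++ [f j])) ∧ (∀ v ∈ J, D v) ∧ l ≤ J.length := by
  classical
  obtain ⟨I', hI', hc'⟩ := exists_subset_card_eq (s := I) (n := c + 1) hc
  obtain ⟨P, hP, hlen, hPm, v, hv1, i, hi, hiv⟩ := hE I' (fun i hi => hIN i (hI' hi)) hc'
  set Z : Finset V := I'.image f with hZ
  have hPD : ∀ v ∈ P, v ∉ Z → D v := by
    intro v hv hvZ
    rcases hPm v hv with ⟨i, hi, hi2⟩ | h1
    · exact absurd (mem_image.2 ⟨i, hi, hi2⟩) hvZ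
    · exact h1
  have tail : ∀ a ∈ I', ∀ A : List V, IsP G (f a :: A) → (∀ v ∈ A, D v) → A.length < e := by
    intro a ha A hA hAD
    by_contra h1
    exact hv a (hI' ha) ⟨A, hA, hAD, by omega⟩
  have hk1 : 1 ≤ k := by
    have h1 := hfr i [] (by
      intro y hy
      rw [List.mem_singleton] at hy
      rw [hy]
      exact hI' hi) (List.isChain_singleton _)
    simpa using h1
  have hkl : l ≤ k * l := Nat.le_mul_of_pos_left l hk1
  rcases pieces (P := P) (S := Z) ⟨v, hv1, mem_image.2 ⟨i, hi, hiv⟩⟩ with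
    ⟨A₀, x, A₁, rfl, hx, hA₀, hA₁⟩ | ⟨A₀, x, M, z, A₁, rfl, hx, hz, hA₀, hA₁⟩
  · exfalso
    obtain ⟨a, ha, rfl⟩ := mem_image.1 hx
    have h1 := tail a ha A₁ (by
      have e1 : A₀ ++ f a :: A₁ = A₀ ++ ((f a :: A₁) ++ []) := by simp
      rw [e1] at hP
      exact hP.inner) (fun v hv => hPD v (by simp [hv]) (hA₁ v hv))
    have h2 := tail a ha A₀.reverse (by
      have e1 : A₀ ++ f a :: A₁ = [] ++ ((A₀ ++ [f a]) ++ A₁) := by simp
      rw [e1] at hP
      have h1 := hP.inner.reverse
      rw [List.reverse_append] at h1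
      exact h1) (fun v hv => hPD v (by simp [List.mem_reverse.1 hv]) (hA₀ v (List.mem_reverse.1 hv)))
    rw [List.length_reverse] at h2
    rw [List.length_append, List.length_cons] at hlen
    omega
  · obtain ⟨a, ha, rfl⟩ := mem_image.1 hx
    obtain ⟨b, hb, rfl⟩ := mem_image.1 hz
    have h1 := tail b hb A₁ (by
      have e1 : A₀ ++ f a :: (M ++ f b :: A₁) = (A₀ ++ f a :: M) ++ ((f b :: A₁) ++ []) := by simp
      rw [e1] at hP
      exact hP.inner) (fun v hv => hPD v (by simp [hv]) (hA₁ v hv))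
    have h2 := tail a ha A₀.reverse (by
      have e1 : A₀ ++ f a :: (M ++ f b :: A₁) = [] ++ ((A₀ ++ [f a]) ++ (M ++ f b :: A₁)) := by
        simp
      rw [e1] at hP
      have h1 := hP.inner.reverse
      rw [List.reverse_append] at h1
      exact h1) (fun v hv => hPD v (by simp [List.mem_reverse.1 hv]) (hA₀ v (List.mem_reverse.1 hv)))
    rw [List.length_reverse] at h2
    have e3 : A₀ ++ f a :: (M ++ f b :: A₁) = A₀ ++ ((f a :: (M ++ [f b])) ++ A₁) := by simp
    have hmid : IsP G (f a :: (M ++ [f b])) := by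
      rw [e3] at hP
      exact hP.inner
    rcases runs (D := D) (I := I') (l := l) M.length M a b le_rfl ha hb hmid (by
      intro v hv
      exact hPm v (by simp [hv])) with ⟨i', hi', j', hj', J, h3⟩ | ⟨L, hcL, hLI, hsub, hlL⟩
    · exact ⟨i', hI' hi', j', hI' hj', J, h3⟩
    · exfalso
      have h4 := hfr a L (fun y hy => hI' (hLI y hy)) hcL
      have h5 : (a :: L).Nodup := by
        have h6 := hsub.nodup hmid.2
        exact h6.of_map f
      rw [List.toFinset_card_of_nodup h5, List.length_cons] at h4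
      have h6 : L.length * l + l ≤ k * l := by
        have h7 : (L.length + 1) * l ≤ k * l := Nat.mul_le_mul_right l h4
        rwa [add_mul, one_mul] at h7
      simp only [List.length_append, List.length_cons] at hlen
      omega

/-- The tails of two positions. -/
theorem tails_far (h : Big G f N D β) {i j : ℕ} (hij : i < j) (hj : j < N) {A₁ A₂ : List V}
    (h1 : IsP G (f i :: A₁)) (h2 : IsP G (f j :: A₂)) (hD1 : ∀ v ∈ A₁, D v)
    (hD2 : ∀ v ∈ A₂, D v) (hdis : ∀ v ∈ A₁, v ∉ A₂) :
    A₁.length + A₂.length + 1 ≤ β + (j - i) := by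
  obtain ⟨m, hm⟩ : ∃ m, N = (j - i) + m + 1 := ⟨N - (j - i) - 1, by omega⟩
  have harc := h.per.arcP j (m + 2) (by omega)
  have e0 : arc f j (m + 2) = f j :: (arc f (j + 1) m ++ [f i]) := by
    rw [arc_succ', arc_succ]
    have e1 : j + (m + 1) = i + N := by omega
    rw [e1, h.per.per]
    rfl
  rw [e0] at harc
  have hda : ∀ v, D v → v ∉ f j :: (arc f (j + 1) m ++ [f i]) := by
    intro v hv hv2
    rw [← e0] at hv2
    obtain ⟨a, _, ha⟩ := mem_arc.1 hv2
    rw [← ha] at hv
    exact h.out _ hv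
  have hP : IsP G (A₂.reverse ++ f j :: (arc f (j + 1) m ++ f i :: A₁)) := by
    constructor
    · rw [List.isChain_split]
      refine ⟨?_, ?_⟩
      · have h3 := (h2.reverse).1
        simpa using h3
      · rw [← List.cons_append, List.isChain_split]
        refine ⟨by simpa using harc.1, h1.1⟩
    · have e2 : A₂.reverse ++ f j :: (arc f (j + 1) m ++ f i :: A₁) =
          A₂.reverse ++ ((f j :: (arc f (j + 1) m ++ [f i])) ++ A₁) := by simp
      rw [e2, List.nodup_append', List.nodup_append']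
      refine ⟨List.nodup_reverse.2 (List.nodup_cons.1 h2.2).2, ⟨harc.2,
        (List.nodup_cons.1 h1.2).2, ?_⟩, ?_⟩
      · intro v hv hv2
        exact hda v (hD1 v hv2) hv
      · intro v hv hv2
        have hv' := List.mem_reverse.1 hv
        rcases List.mem_append.1 hv2 with h3 | h3
        · exact hda v (hD2 v hv') h3
        · exact hdis v h3 hv'
  have h5 := h.top _ hP
  simp only [List.length_append, List.length_cons, List.length_reverse, arc_length] at h5
  omega

open Classical in
/-- Few positions are very high. -/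
theorem few_vh (h : Big G f N D β) {P : Finset ℕ} (hPN : ∀ i ∈ P, i < N) {t : ℕ}
    (hPt : ∀ i ∈ P, ∀ K, Att G D K (f i) → (ft G D f N K).card ≤ t) {e g : ℕ} (he : 1 ≤ e)
    (hg : 1 ≤ g) (heg : β + g ≤ 2 * e) :
    (P.filter fun i => ∃ A, IsP G (f i :: A) ∧ (∀ v ∈ A, D v) ∧ e ≤ A.length).card ≤
      t * (N / g + 1) := by
  set W := P.filter fun i => ∃ A, IsP G (f i :: A) ∧ (∀ v ∈ A, D v) ∧ e ≤ A.length with hW
  have h1 : W.card ≤ t * (W.image fun i => i / g).card := by
    refine card_le_mul_card_image W t ?_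
    intro a ha
    obtain ⟨i0, hi0, hi0a⟩ := mem_image.1 ha
    obtain ⟨hi0P, A0, hA0, hA0D, hA0e⟩ := mem_filter.1 hi0
    have hne : ∀ A : List V, e ≤ A.length → A ≠ [] := by
      rintro A hA rfl
      rw [List.length_nil] at hA
      omega
    obtain ⟨K0, hK0, hK0'⟩ := piece_comp hA0 (hne A0 hA0e) hA0D
    refine (card_le_card ?_).trans (hPt i0 hi0P K0 hK0)
    intro i hi
    obtain ⟨hiW, hia⟩ := mem_filter.1 hi
    obtain ⟨hiP, A, hA, hAD, hAe⟩ := mem_filter.1 hiW
    obtain ⟨K, hK, hK'⟩ := piece_comp hA (hne A hAe) hAD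
    by_cases hii : i = i0
    · rw [hii]
      exact mem_ft.2 ⟨hPN i0 hi0P, hK0⟩
    have hKK : K = K0 := by
      by_contra hKK
      have hdis : ∀ v ∈ A, v ∉ A0 := by
        intro v hv hv0
        exact hKK ((hK' v hv).symm.trans (hK0' v hv0))
      have hdis' : ∀ v ∈ A0, v ∉ A := fun v hv hv0 => hdis v hv0 hv
      have hdiv : i / g = i0 / g := hia.trans hi0a.symm
      have hg0 : 0 < g := hg
      have e1 := Nat.div_add_mod i g
      have e2 := Nat.div_add_mod i0 g
      have e3 := Nat.mod_lt i hg0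
      have e4 := Nat.mod_lt i0 hg0
      rw [hdiv] at e1
      rcases lt_trichotomy i i0 with h3 | h3 | h3
      · have h4 := tails_far h h3 (hPN i0 hi0P) hA hA0 hAD hA0D hdis
        omega
      · exact hii h3
      · have h4 := tails_far h h3 (hPN i hiP) hA0 hA hA0D hAD hdis'
        omega
    rw [hKK] at hK
    exact mem_ft.2 ⟨hPN i hiP, hK⟩
  refine h1.trans (Nat.mul_le_mul_left t ?_)
  have h2 : (W.image fun i => i / g) ⊆ range (N / g + 1) := by
    intro a ha
    obtain ⟨i, hi, rfl⟩ := mem_image.1 ha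
    have h3 := hPN i (mem_filter.1 hi).1
    rw [mem_range]
    exact Nat.lt_succ_of_le (Nat.div_le_div_right h3.le)
  exact (card_le_card h2).trans (le_of_eq (card_range _))

end Pool.Agent.Helper49.PP
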