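import Pool.Agent.Helper49.PP.Jump

/-!
# Many disjoint long jumps
-/

namespace Pool.Agent.Helper49.PP

open Finset Pool.Agent.Helper41.PP

variable {V : Type} {G : SimpleGraph V} {f : ℕ → V} {N : ℕ} {D : V → Prop} {β : ℕ}

/-- A jump through one component. -/
structure Gd (G : SimpleGraph V) (D : V → Prop) (f : ℕ → V) (I : Finset ℕ) (l : ℕ)
    (p : ℕ × List V × ℕ) : Prop where
  left : p.1 ∈ I
  right : p.2.2 ∈ I
  lt : p.1 < p.2.2
  path : IsP G (f p.1 :: (p.2.1 ++ [f p.2.2]))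
  len : l ≤ p.2.1.length
  comp : ∃ K, Att G D K (f p.1) ∧ Att G D K (f p.2.2) ∧
    ∀ v ∈ p.2.1, D v ∧ (HD G D).connectedComponentMk v = K

/-- Two disjoint jumps. -/
structure Ap (p q : ℕ × List V × ℕ) : Prop where
  ll : p.1 ≠ q.1
  lr : p.1 ≠ q.2.2
  rl : p.2.2 ≠ q.1
  rr : p.2.2 ≠ q.2.2
  dj : ∀ v ∈ p.2.1, v ∉ q.2.1

theorem Ap.symm {p q : ℕ × List V × ℕ} (h : Ap p q) : Ap q p :=
  ⟨Ne.symm h.ll, Ne.symm h.rl, Ne.symm h.lr, Ne.symm h.rr, fun v hv hv' => h.dj v hv' hv⟩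

theorem Gd.mono {I I' : Finset ℕ} (hI : I' ⊆ I) {l : ℕ} {p : ℕ × List V × ℕ}
    (h : Gd G D f I' l p) : Gd G D f I l p :=
  ⟨hI h.left, hI h.right, h.lt, h.path, h.len, h.comp⟩

/-- Oriented jumps. -/
theorem orient {I : Finset ℕ} {l : ℕ} (hl : 1 ≤ l) {i j : ℕ} (hi : i ∈ I) (hj : j ∈ I)
    {J : List V} (hJ : IsP G (f i :: (J ++ [f j]))) (hD : ∀ v ∈ J, D v) (hlJ : l ≤ J.length) :
    ∃ p, Gd G D f I l p := by
  have h0 : J ≠ [] := by
    rintro rfl
    rw [List.length_nil] at hlJ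
    omega
  obtain ⟨K, h1, h2, h3⟩ := run_comp hJ h0 hD
  have hij : i ≠ j := by
    rintro rfl
    have h4 := (List.nodup_cons.1 hJ.2).1
    exact h4 (by simp)
  rcases lt_or_gt_of_ne hij with h4 | h4
  · exact ⟨(i, J, j), hi, hj, h4, hJ, hlJ, K, h1, h2, fun v hv => ⟨hD v hv, h3 v hv⟩⟩
  · refine ⟨(j, J.reverse, i), hj, hi, h4, ?_, ?_, K, h2, h1, ?_⟩
    · have h5 := hJ.reverse
      simpa using h5
    · rw [List.length_reverse]
      exact hlJ
    · intro v hv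
      have hv' := List.mem_reverse.1 hv
      exact ⟨hD v hv', h3 v hv'⟩

/-- Many disjoint jumps. -/
theorem many_jumps {c : ℕ} (hE : Exc G f N D β c) {k l e t : ℕ}
    (hl : 1 ≤ l) (hk : k * l + 2 * e ≤ β + c + 3) : ∀ (M : ℕ) (I : Finset ℕ),
    (∀ i ∈ I, i < N) → c + 1 + M * t ≤ I.card →
    (∀ i ∈ I, ∀ K, Att G D K (f i) → (ft G D f N K).card ≤ t) →
    (∀ (x : ℕ) (L : List ℕ), (∀ y ∈ x :: L, y ∈ I) → (x :: L).IsChain (Nr G D f) →
      (x :: L).toFinset.card ≤ k) →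
    (∀ i ∈ I, ¬ ∃ A, IsP G (f i :: A) ∧ (∀ v ∈ A, D v) ∧ e ≤ A.length) →
    ∃ 𝒥 : Finset (ℕ × List V × ℕ), 𝒥.card = M ∧ (∀ p ∈ 𝒥, Gd G D f I l p) ∧
      ∀ p ∈ 𝒥, ∀ q ∈ 𝒥, p ≠ q → Ap p q := by
  classical
  intro M
  induction M with
  | zero =>
    intro I _ _ _ _ _
    exact ⟨∅, rfl, fun p hp => absurd hp (notMem_empty p), fun p hp => absurd hp (notMem_empty p)⟩
  | succ M ih =>
    intro I hIN hcard hIt hfr hv
    obtain ⟨i, hi, j, hj, J, hJ, hJD, hJl⟩ := exists_jump hE hIN (by omega) hl hk hfr hv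
    obtain ⟨p, hp⟩ := orient hl hi hj hJ hJD hJl
    obtain ⟨K, hK1, hK2, hK3⟩ := hp.comp
    have hft := hIt _ hp.left K hK1
    have hsub : I \ ft G D f N K ⊆ I := sdiff_subset
    have hc2 : I.card ≤ (I \ ft G D f N K).card + (ft G D f N K).card := by
      have h1 := card_le_card_sdiff_add_card (s := I) (t := ft G D f N K)
      exact h1
    obtain ⟨𝒥, hcJ, hgJ, haJ⟩ := ih (I \ ft G D f N K) (fun i hi => hIN i (hsub hi))
      (by rw [add_mul, one_mul] at hcard; omega) (fun i hi => hIt i (hsub hi))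
      (fun x L hL => hfr x L fun y hy => hsub (hL y hy)) (fun i hi => hv i (hsub hi))
    have hp1 : p.1 ∈ ft G D f N K := mem_ft.2 ⟨hIN _ hp.left, hK1⟩
    have hp2 : p.2.2 ∈ ft G D f N K := mem_ft.2 ⟨hIN _ hp.right, hK2⟩
    have hap : ∀ q ∈ 𝒥, Ap p q := by
      intro q hq
      have hgq := hgJ q hq
      have h1 := (mem_sdiff.1 hgq.left).2
      have h2 := (mem_sdiff.1 hgq.right).2
      refine ⟨?_, ?_, ?_, ?_, ?_⟩
      · intro h3
        exact h1 (h3 ▸ hp1)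
      · intro h3
        exact h2 (h3 ▸ hp1)
      · intro h3
        exact h1 (h3 ▸ hp2)
      · intro h3
        exact h2 (h3 ▸ hp2)
      · intro v hv hv'
        obtain ⟨K', h3, _, h5⟩ := hgq.comp
        have h6 := (hK3 v hv).2.symm.trans (h5 v hv').2
        rw [← h6] at h3
        exact h1 (mem_ft.2 ⟨hIN _ (hsub hgq.left), h3⟩)
    have hpn : p ∉ 𝒥 := fun h1 => (mem_sdiff.1 (hgJ p h1).left).2 hp1
    refine ⟨insert p 𝒥, ?_, ?_, ?_⟩
    · rw [card_insert_of_notMem hpn, hcJ]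
    · intro q hq
      rcases mem_insert.1 hq with rfl | h1
      · exact hp
      · exact (hgJ q h1).mono hsub
    · intro q hq r hr hqr
      rcases mem_insert.1 hq with rfl | h1
      · rcases mem_insert.1 hr with rfl | h2
        · exact absurd rfl hqr
        · exact hap r h2
      · rcases mem_insert.1 hr with rfl | h2
        · exact (hap q h1).symm
        · exact haJ q h1 r h2 hqr

end Pool.Agent.Helper49.PP
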