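import Pool.Agent.Helper49.PP.ZigP
import Pool.Agent.Helper49.PP.Final

/-!
# The path partition theorem for graphs without a `K₅` minor, up to nearly balanced partitions
-/

namespace Pool.Agent.Helper49.PP

open Finset Pool.Agent.Helper41.PP

variable {V : Type} {G : SimpleGraph V} {f : ℕ → V} {N : ℕ} {D : V → Prop} {β : ℕ}

/-- `c` is at least half of the length of the cycle, up to a loss. -/
theorem loss_le [Fintype V] (hK : NoK5 G) (h : Big G f N D β) {c : ℕ} (hE : Exc G f N D β c)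
    (hβ : β ≤ N) (h68 : N ≤ 68 * c) {t j k M0 : ℕ} (ht : 3 ≤ t) (hk : k = 4 ^ j)
    (hM : M0 = (544 * k) * ((544 * k) * (544 * k)) + 1) (hc4 : 4 * k ≤ c) (hc8 : 8 ≤ c) :
    ∃ s R : ℕ, (t - 2) * s ≤ 3 * N ∧ 2 ^ j * R ≤ 200 * t * N ∧
      N ≤ 2 * c + 2 + 2 * (M0 * t) + 6 * s + 2 * R + 546 * t := by
  classical
  have hfin : Finite (HD G D).ConnectedComponent := inferInstance
  have := Fintype.ofFinite (HD G D).ConnectedComponent
  have hk1 : 1 ≤ k := by rw [hk]; exact Nat.one_le_pow _ _ (by norm_num)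
  -- large components
  set 𝒦 : Finset (HD G D).ConnectedComponent :=
    univ.filter fun K => t + 1 ≤ (ft G D f N K).card with h𝒦
  have hs : (t - 2) * 𝒦.card ≤ 3 * N := by
    have h1 := few_big hK.sparse h (t := t + 1) (by omega) (𝒟 := 𝒦)
      (fun K hK => (mem_filter.1 hK).2)
    obtain ⟨u, hu⟩ : ∃ u, t = u + 2 := ⟨t - 2, by omega⟩
    rw [hu] at h1 ⊢
    have h2 : (u + 2 + 1) * 𝒦.card = u * 𝒦.card + 3 * 𝒦.card := by ring
    rw [Nat.add_sub_cancel]
    omega
  set W := (range N).filter fun i => ∃ K ∈ 𝒦, Att G D K (f i) with hW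
  set U := (range N).filter fun i => ¬ ∃ K ∈ 𝒦, Att G D K (f i) with hU
  have hWU : W.card + U.card = N := by
    rw [hW, hU, card_filter_add_card_filter_not, card_range]
  have hW2 : 2 * W.card ≤ N + 2 * 3 * 𝒦.card := half_big hK.sparse h 𝒦
  have hUN : ∀ i ∈ U, i < N := fun i hi => mem_range.1 (mem_filter.1 hi).1
  have hUt : ∀ i ∈ U, ∀ K, Att G D K (f i) → (ft G D f N K).card ≤ t := by
    intro i hi K hKi
    by_contra h1
    exact (mem_filter.1 hi).2 ⟨K, mem_filter.2 ⟨mem_univ _, by omega⟩, hKi⟩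
  -- fragments
  obtain ⟨I1, hI1U, hI1c, hI1f⟩ := frag_pos hK h U hUN (t := t) (by omega) hUt j
  have hUI : (U \ I1).card + I1.card = U.card := card_sdiff_add_card_eq_card hI1U
  refine ⟨𝒦.card, (U \ I1).card, hs, hI1c, ?_⟩
  by_contra hcon
  push Not at hcon
  obtain ⟨g, hg⟩ : ∃ g, g = c / 3 := ⟨_, rfl⟩
  obtain ⟨e, he⟩ : ∃ e, e = (β + g + 1) / 2 := ⟨_, rfl⟩
  obtain ⟨l, hl⟩ : ∃ l, l = c / (2 * k) := ⟨_, rfl⟩
  have hl1 : k * l * 2 ≤ c := by
    have h1 := Nat.mul_div_le c (2 * k)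
    rw [← hl] at h1
    have h2 : k * l * 2 = 2 * k * l := by ring
    omega
  have hl2 : c < k * l * 2 + 2 * k := by
    have h1 := Nat.lt_mul_div_succ c (show 0 < 2 * k by omega)
    rw [← hl] at h1
    have h2 : 2 * k * (l + 1) = k * l * 2 + 2 * k := by ring
    omega
  have hl0 : 1 ≤ l := by
    by_contra h1
    have h2 : l = 0 := by omega
    rw [h2] at hl2
    omega
  -- very high positions
  set VH := I1.filter fun i => ∃ A, IsP G (f i :: A) ∧ (∀ v ∈ A, D v) ∧ e ≤ A.length with hVH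
  set I2 := I1.filter fun i => ¬ ∃ A, IsP G (f i :: A) ∧ (∀ v ∈ A, D v) ∧ e ≤ A.length with hI2
  have hVI : VH.card + I2.card = I1.card := by
    rw [hVH, hI2, card_filter_add_card_filter_not]
  have hVHc : VH.card ≤ 273 * t := by
    have h1 := few_vh h (P := I1) (fun i hi => hUN i (hI1U hi))
      (fun i hi => hUt i (hI1U hi)) (e := e) (g := g) (by omega) (by omega) (by omega)
    have h2 : N / g ≤ 272 := by
      refine Nat.div_le_of_le_mul ?_
      omega
    refine h1.trans ?_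
    rw [mul_comm]
    exact Nat.mul_le_mul_right _ (by omega)
  -- many jumps
  obtain ⟨𝒥, hJc, hJg, hJa⟩ := many_jumps hE (k := k) (l := l) (e := e) (t := t) hl0
    (by omega) M0 I2 (fun i hi => hUN i (hI1U (mem_filter.1 hi).1)) (by omega)
    (fun i hi => hUt i (hI1U (mem_filter.1 hi).1))
    (fun x L hL hch => by
      rw [hk]
      exact hI1f x L (fun y hy => (mem_filter.1 (hL y hy)).1) hch)
    (fun i hi => (mem_filter.1 hi).2)
  have hfinal := jumps_le h (fun i hi => hUN i (hI1U (mem_filter.1 hi).1)) hJg hJa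
    (r := 544 * k) (by
      have h1 : (544 * k + 1) * l = 544 * (k * l) + l := by ring
      omega)
  omega

theorem exists_two_pow (x : ℕ) (hx : 2 ≤ x) : ∃ j, x ≤ 2 ^ j ∧ 2 ^ j ≤ 2 * x := by
  refine ⟨Nat.clog 2 x, Nat.le_pow_clog (by norm_num) _, ?_⟩
  have h2 := Nat.pow_pred_clog_lt_self (b := 2) (by norm_num) (show 1 < x by omega)
  have h3 : 0 < Nat.clog 2 x := Nat.clog_pos (by norm_num) (by omega)
  obtain ⟨m, hm⟩ : ∃ m, Nat.clog 2 x = m + 1 := ⟨Nat.clog 2 x - 1, by omega⟩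
  rw [hm, Nat.pred_succ] at h2
  rw [hm, pow_succ]
  omega

theorem pow_le [Fintype V] (hK : NoK5 G) (h : Big G f N D β) {c : ℕ} (hE : Exc G f N D β c)
    (hβ : β ≤ N) (h68 : N ≤ 68 * c) {t : ℕ} (ht : 50000000000000000 * t ^ 14 ≤ N) :
    t * N ≤ 63 * N + 2 * t * c := by
  by_contra hcon
  push Not at hcon
  have htbig : 63 < t := by
    have h1 : 63 * N < t * N := lt_of_le_of_lt (Nat.le_add_right _ _) hcon
    exact lt_of_mul_lt_mul_right h1 (Nat.zero_le _)
  have htt : 64 * 64 ≤ t * t := Nat.mul_le_mul htbig htbig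
  obtain ⟨j, hj1, hj2⟩ := exists_two_pow (16 * (t * t)) (by omega)
  obtain ⟨k, hk⟩ : ∃ k, k = 4 ^ j := ⟨_, rfl⟩
  obtain ⟨M0, hM⟩ : ∃ M0, M0 = (544 * k) * ((544 * k) * (544 * k)) + 1 := ⟨_, rfl⟩
  have hk4 : k ≤ 1024 * t ^ 4 := by
    have e1 : k = 2 ^ j * 2 ^ j := by
      rw [hk, ← mul_pow]
      norm_num
    rw [e1]
    calc 2 ^ j * 2 ^ j ≤ (2 * (16 * (t * t))) * (2 * (16 * (t * t))) := Nat.mul_le_mul hj2 hj2
      _ = 1024 * t ^ 4 := by ring
  have h1t10 : 1 ≤ t ^ 10 := Nat.one_le_pow _ _ (by omega)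
  have h1t12 : 1 ≤ t ^ 12 := Nat.one_le_pow _ _ (by omega)
  have h14a : t ^ 4 ≤ t ^ 14 := Nat.pow_le_pow_right (by omega) (by norm_num)
  have h14b : t ^ 2 ≤ t ^ 14 := Nat.pow_le_pow_right (by omega) (by norm_num)
  have h1t4 : 1 ≤ t ^ 4 := Nat.one_le_pow _ _ (by omega)
  have h1t2 : t ≤ t ^ 2 := Nat.le_self_pow (by norm_num) t
  obtain ⟨s, R, hs, hR, hloss⟩ := loss_le hK h hE hβ h68 (t := t) (by omega) hk hM
    (by omega) (by omega)
  have hts : 61 * (t * s) ≤ 189 * N := by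
    have h1 : 61 * (t * s) ≤ 63 * ((t - 2) * s) := by
      have h2 : 61 * t ≤ 63 * (t - 2) := by omega
      calc 61 * (t * s) = (61 * t) * s := by ring
        _ ≤ (63 * (t - 2)) * s := Nat.mul_le_mul_right _ h2
        _ = _ := by ring
    omega
  have htR : 16 * (t * R) ≤ 200 * N := by
    have h1 : t * (16 * (t * R)) ≤ t * (200 * N) := by
      calc t * (16 * (t * R)) = (16 * (t * t)) * R := by ring
        _ ≤ 2 ^ j * R := Nat.mul_le_mul_right _ hj1
        _ ≤ 200 * t * N := hR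
        _ = _ := by ring
    exact Nat.le_of_mul_le_mul_left h1 (by omega)
  have hM0 : t * (M0 * t) ≤ 172860820072431616 * t ^ 14 + t ^ 2 := by
    have h1 : 544 * k ≤ 557056 * t ^ 4 := by omega
    have h2 : M0 ≤ (557056 * t ^ 4) * ((557056 * t ^ 4) * (557056 * t ^ 4)) + 1 := by
      rw [hM]
      exact Nat.add_le_add_right (Nat.mul_le_mul h1 (Nat.mul_le_mul h1 h1)) 1
    calc t * (M0 * t) = t ^ 2 * M0 := by ring
      _ ≤ t ^ 2 * ((557056 * t ^ 4) * ((557056 * t ^ 4) * (557056 * t ^ 4)) + 1) :=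
        Nat.mul_le_mul_left _ h2
      _ = 172860820072431616 * t ^ 14 + t ^ 2 := by ring
  have hfin : t * N ≤ t * (2 * c + 2 + 2 * (M0 * t) + 6 * s + 2 * R + 546 * t) :=
    Nat.mul_le_mul_left _ hloss
  have e1 : t * (2 * c + 2 + 2 * (M0 * t) + 6 * s + 2 * R + 546 * t) =
      2 * t * c + 2 * t + 2 * (t * (M0 * t)) + 6 * (t * s) + 2 * (t * R) + 546 * t ^ 2 := by
    ring
  omega

/-- The exact theorem for lists. -/
theorem pow_list [Fintype V] (hK : NoK5 G) {a b x : ℕ} (hba : b ≤ a) (hx2 : x ≤ 2 * a)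
    (hab : 1000 ^ 14 * (a + b) ^ 13 ≤ x ^ 14)
    (hx : ∀ (f : ℕ → V) (N : ℕ), 3 ≤ N → Per G f N → x + N ≤ 2 * a)
    (hl : ∀ l, IsP G l → l.length ≤ a + b) {X : Finset V} (hX : MinHit G b X)
    (R : List V) (hR : IsP G R) (hRX : ∀ v ∈ R, v ∈ X) : R.length ≤ a := by
  classical
  by_contra hcon
  obtain ⟨f, N, D, β, c, hB, hE, hN, hβ⟩ := exists_big hl hX R hR hRX (by omega)
  have hNpos : 0 < N := by omega
  have hab0 : 1 ≤ (a + b) ^ 13 := Nat.one_le_pow _ _ (by omega)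
  have hx1000 : 1000 ≤ x := by
    have h1 : 1000 ^ 14 ≤ x ^ 14 := by
      calc 1000 ^ 14 = 1000 ^ 14 * 1 := (mul_one _).symm
        _ ≤ _ := Nat.mul_le_mul_left _ hab0
        _ ≤ _ := hab
    exact (Nat.pow_le_pow_iff_left (by norm_num)).1 h1
  have hxN := hx f N (by omega) hB.per
  have h1 := length_le (by norm_num) hK.sparse hB hE
  norm_num at h1
  -- the largest `t` with `5 * 10 ^ 16 * t ^ 14 ≤ N`
  obtain ⟨t, ht1, ht2⟩ : ∃ t, 50000000000000000 * t ^ 14 ≤ N ∧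
      N < 50000000000000000 * (t + 1) ^ 14 := by
    have hex : ∃ t, N < 50000000000000000 * (t + 1) ^ 14 := ⟨N, by
      have h2 : N + 1 ≤ (N + 1) ^ 14 := Nat.le_self_pow (by norm_num) _
      omega⟩
    refine ⟨Nat.find hex, ?_, Nat.find_spec hex⟩
    rcases Nat.eq_zero_or_pos (Nat.find hex) with h2 | h2
    · rw [h2]
      norm_num
    · have h3 := Nat.find_min hex (show Nat.find hex - 1 < Nat.find hex by omega)
      rw [Nat.sub_add_cancel h2] at h3
      omega
  have h2 := pow_le hK hB hE (by omega) h1 ht1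
  have h3 : (t + 1) * x ≤ 64 * N := by
    have h4 : t * (2 * c + x) ≤ t * N := Nat.mul_le_mul_left _ (by omega)
    have h5 : t * (2 * c + x) = 2 * t * c + t * x := by ring
    have h6 : (t + 1) * x = t * x + x := by ring
    omega
  have hx0 : 0 < x ^ 14 := by
    have : 0 < x := by omega
    positivity
  have h5 : x ^ 14 * N < 1000 ^ 14 * N ^ 14 := by
    calc x ^ 14 * N < x ^ 14 * (50000000000000000 * (t + 1) ^ 14) :=
          Nat.mul_lt_mul_of_pos_left ht2 hx0
      _ = 50000000000000000 * ((t + 1) * x) ^ 14 := by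
        rw [mul_pow]
        ring
      _ ≤ 50000000000000000 * (64 * N) ^ 14 :=
        Nat.mul_le_mul_left _ (Nat.pow_le_pow_left h3 14)
      _ = (50000000000000000 * 64 ^ 14) * N ^ 14 := by
        rw [mul_pow]
        ring
      _ ≤ 1000 ^ 14 * N ^ 14 := Nat.mul_le_mul_right _ (by norm_num)
  have h6 : x ^ 14 < 1000 ^ 14 * N ^ 13 := by
    have h7 : N * x ^ 14 < N * (1000 ^ 14 * N ^ 13) := by
      calc N * x ^ 14 = x ^ 14 * N := by ring
        _ < _ := h5
        _ = _ := by ring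
    exact Nat.lt_of_mul_lt_mul_left h7
  have h7 : 1000 ^ 14 * N ^ 13 ≤ 1000 ^ 14 * (a + b) ^ 13 :=
    Nat.mul_le_mul_left _ (Nat.pow_le_pow_left (by omega) 13)
  omega

/-- The path partition theorem, nearly up to balanced partitions. -/
theorem pow_partition [Fintype V] (hK : NoK5 G) (a b x : ℕ) (hx2 : x ≤ 2 * max a b)
    (hab : 1000 ^ 14 * (a + b) ^ 13 ≤ x ^ 14)
    (hx : ∀ (f : ℕ → V) (N : ℕ), 3 ≤ N → Per G f N → x + N ≤ 2 * max a b)
    (h : ∀ (u v : V) (p : G.Walk u v), p.IsPath → p.support.length ≤ a + b) :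
    ∃ S : Set V,
      (∀ (u v : ↥S) (p : (G.induce S).Walk u v), p.IsPath → p.support.length ≤ a) ∧
      (∀ (u v : ↥Sᶜ) (p : (G.induce Sᶜ).Walk u v), p.IsPath → p.support.length ≤ b) := by
  classical
  have sets : ∀ a b : ℕ, b ≤ a → x ≤ 2 * a → 1000 ^ 14 * (a + b) ^ 13 ≤ x ^ 14 →
      (∀ (f : ℕ → V) (N : ℕ), 3 ≤ N → Per G f N → x + N ≤ 2 * a) →
      (∀ (u v : V) (p : G.Walk u v), p.IsPath → p.support.length ≤ a + b) →
      ∀ M : Finset V, Tau G (M : Set V) b →
      (∀ M' : Finset V, Tau G (M' : Set V) b → M'.card ≤ M.card) → Tau G (M : Set V)ᶜ a := by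
    intro a b hba hx2 hab hx h M hM' hmax
    have hl := list_of_walk h
    have hX := minHit_compl hM' hmax
    rw [tau_iff]
    intro l hl' hlM
    refine pow_list hK hba hx2 hab hx hl hX l hl' ?_
    intro v hv
    rw [Finset.mem_sdiff]
    exact ⟨Finset.mem_univ v, fun h1 => hlM v hv (Finset.mem_coe.2 h1)⟩
  rcases Nat.le_total b a with hba | hba
  · rw [max_eq_left hba] at hx2 hx
    obtain ⟨M, hM', hmax⟩ := exists_maximum G b
    refine ⟨(M : Set V)ᶜ, sets a b hba hx2 hab hx h M hM' hmax, ?_⟩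
    rw [compl_compl]
    exact hM'
  · rw [max_eq_right hba] at hx2 hx
    obtain ⟨M, hM', hmax⟩ := exists_maximum G a
    exact ⟨(M : Set V), hM', sets b a hba hx2 (by rwa [add_comm b a]) hx
      (fun u v p hp => (add_comm a b) ▸ h u v p hp) M hM' hmax⟩

theorem per_walk {G : SimpleGraph V} {f : ℕ → V} {N : ℕ} (h : Per G f N) : ∀ m i : ℕ,
    ∃ q : G.Walk (f i) (f (i + m)), q.support = arc f i (m + 1) := by
  intro m
  induction m with
  | zero =>
    intro i
    exact ⟨SimpleGraph.Walk.nil, by rw [SimpleGraph.Walk.support_nil, arc_one]⟩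
  | succ m ih =>
    intro i
    obtain ⟨q, hq⟩ := ih (i + 1)
    have e : i + 1 + m = i + (m + 1) := by omega
    rw [e] at q
    obtain ⟨q, hq⟩ : ∃ q : G.Walk (f (i + 1)) (f (i + (m + 1))),
        q.support = arc f (i + 1) (m + 1) := by
      have := ih (i + 1)
      rwa [e] at this
    refine ⟨SimpleGraph.Walk.cons (h.adj i) q, ?_⟩
    rw [SimpleGraph.Walk.support_cons, hq, arc_succ f i (m + 1)]

/-- A periodic sequence is a cycle. -/
theorem per_cycle {G : SimpleGraph V} {f : ℕ → V} {N : ℕ} (h : Per G f N) (hN : 3 ≤ N) :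
    ∃ w : G.Walk (f 0) (f 0), w.IsCycle ∧ w.length = N := by
  obtain ⟨M, rfl⟩ : ∃ M, N = M + 1 := ⟨N - 1, by omega⟩
  obtain ⟨q, hq⟩ : ∃ q : G.Walk (f (0 + 1)) (f 0), q.support = arc f (0 + 1) (M + 1) := by
    have h1 := per_walk h M (0 + 1)
    have e : f (0 + 1 + M) = f 0 := by
      rw [← h.per 0]
      congr 1
      omega
    rwa [e] at h1
  have hql : q.length = M := by
    have h1 := congrArg List.length hq
    rw [SimpleGraph.Walk.length_support, arc_length] at h1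
    omega
  refine ⟨SimpleGraph.Walk.cons (h.adj 0) q, ?_, ?_⟩
  · rw [SimpleGraph.Walk.isCycle_iff_isPath_tail_and_le_length]
    simp only [SimpleGraph.Walk.getVert_cons_succ, SimpleGraph.Walk.tail_cons,
      SimpleGraph.Walk.isPath_copy, SimpleGraph.Walk.length_cons]
    constructor
    · rw [SimpleGraph.Walk.isPath_def, hq]
      exact (h.arcP _ _ le_rfl).2
    · rw [hql]
      omega
  · rw [SimpleGraph.Walk.length_cons, hql]

/-- From real to integer powers. -/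
theorem pow_of_rpow {s x : ℕ} (h : 1000 * ((s : ℝ)) ^ (13 / 14 : ℝ) ≤ x) :
    1000 ^ 14 * s ^ 13 ≤ x ^ 14 := by
  have h0 : (0 : ℝ) ≤ (s : ℝ) := by positivity
  have h1 : (1000 * ((s : ℝ)) ^ (13 / 14 : ℝ)) ^ 14 ≤ (x : ℝ) ^ 14 :=
    pow_le_pow_left₀ (by positivity) h 14
  have h2 : (((s : ℝ)) ^ (13 / 14 : ℝ)) ^ 14 = (s : ℝ) ^ 13 := by
    rw [← Real.rpow_natCast, ← Real.rpow_mul h0]
    norm_num
  rw [mul_pow, h2] at h1
  exact_mod_cast h1

/-- The theorem with walks, cycles and real powers. -/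
theorem real_partition [Fintype V] (hK : NoK5 G) (a b m : ℕ)
    (hm : ∀ (u : V) (w : G.Walk u u), w.IsCycle → w.length ≤ m)
    (hab : 1000 * ((a : ℝ) + b) ^ (13 / 14 : ℝ) ≤ |(a : ℝ) - b| + ((a : ℝ) + b - m))
    (h : ∀ (u v : V) (p : G.Walk u v), p.IsPath → p.support.length ≤ a + b) :
    ∃ S : Set V,
      (∀ (u v : ↥S) (p : (G.induce S).Walk u v), p.IsPath → p.support.length ≤ a) ∧
      (∀ (u v : ↥Sᶜ) (p : (G.induce Sᶜ).Walk u v), p.IsPath → p.support.length ≤ b) := by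
  obtain ⟨m', hm'⟩ : ∃ m', m' = min m (a + b) := ⟨_, rfl⟩
  have hab2 : a + b ≤ 2 * max a b := by omega
  have hreal : 1000 * (((a + b : ℕ) : ℝ)) ^ (13 / 14 : ℝ) ≤ ((2 * max a b - m' : ℕ) : ℝ) := by
    have e1 : ((2 * max a b - m' : ℕ) : ℝ) = 2 * ((max a b : ℕ) : ℝ) - (m' : ℝ) := by
      rw [Nat.cast_sub (by omega)]
      push_cast
      ring
    have e2 : |(a : ℝ) - b| + ((a : ℝ) + b) = 2 * ((max a b : ℕ) : ℝ) := by
      rcases Nat.le_total b a with h1 | h1
      · have h2 : (b : ℝ) ≤ a := by exact_mod_cast h1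
        rw [max_eq_left h1, abs_of_nonneg (by linarith)]
        ring
      · have h2 : (a : ℝ) ≤ b := by exact_mod_cast h1
        rw [max_eq_right h1, abs_of_nonpos (by linarith)]
        ring
    have e3 : (m' : ℝ) ≤ m := by
      have : m' ≤ m := by omega
      exact_mod_cast this
    rw [e1]
    push_cast at hab e2 ⊢
    linarith
  refine pow_partition hK a b (2 * max a b - m') (by omega) (pow_of_rpow hreal) ?_ h
  intro f N hN hf
  have h1 : N ≤ m := by
    obtain ⟨w, hw, hwl⟩ := per_cycle hf hN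
    rw [← hwl]
    exact hm _ w hw
  have h2 : N ≤ a + b := by
    have h3 := list_of_walk h _ (hf.arcP 0 N le_rfl)
    rwa [arc_length] at h3
  omega

end Pool.Agent.Helper49.PP
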