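import Pool.Agent.Helper49.PP.Fam

/-!
# Separators of graphs without a `K₅` minor (Alon, Seymour and Thomas)
-/

namespace Pool.Agent.Helper49.PP

open Finset

variable {V : Type} {G : SimpleGraph V}

/-- The finite set `A` induces a connected graph. -/
def Cn (G : SimpleGraph V) (A : Finset V) : Prop := (G.induce (A : Set V)).Connected

theorem Cn.nonempty {A : Finset V} (h : Cn G A) : A.Nonempty := by
  obtain ⟨⟨x, hx⟩⟩ := SimpleGraph.Connected.nonempty h
  exact ⟨x, hx⟩

theorem Cn.single (v : V) : Cn G {v} := by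
  unfold Cn
  rw [coe_singleton]
  have : Nonempty ({v} : Set V) := ⟨⟨v, rfl⟩⟩
  have h : Subsingleton ({v} : Set V) := by
    constructor
    rintro ⟨a, ha⟩ ⟨b, hb⟩
    have ha' : a = v := ha
    have hb' : b = v := hb
    exact Subtype.ext (ha'.trans hb'.symm)
  exact SimpleGraph.Connected.mk (SimpleGraph.Preconnected.of_subsingleton)

theorem Cn.union_adj [DecidableEq V] {A B : Finset V} (hA : Cn G A) (hB : Cn G B) {u v : V} (hu : u ∈ A)
    (hv : v ∈ B) (h : G.Adj u v) : Cn G (A ∪ B) := by
  unfold Cn
  rw [coe_union]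
  exact SimpleGraph.connected_induce_union hA.preconnected hB.preconnected
    (mem_coe.2 hu) (mem_coe.2 hv) h

theorem Cn.union_mem [DecidableEq V] {A B : Finset V} (hA : Cn G A) (hB : Cn G B) {u : V} (hu : u ∈ A)
    (hv : u ∈ B) : Cn G (A ∪ B) := by
  unfold Cn
  rw [coe_union]
  exact SimpleGraph.induce_union_connected hA.preconnected hB.preconnected
    ⟨u, mem_coe.2 hu, mem_coe.2 hv⟩

/-- Propagation of a property in a connected set. -/
theorem Cn.prop {F : Finset V} (hF : Cn G F) {P : V → Prop} {a : V} (ha : a ∈ F) (hP : P a)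
    (h : ∀ u ∈ F, ∀ v ∈ F, G.Adj u v → P u → P v) : ∀ v ∈ F, P v := by
  intro v hv
  obtain ⟨w⟩ := hF.preconnected ⟨a, mem_coe.2 ha⟩ ⟨v, mem_coe.2 hv⟩
  have key : ∀ (x y : (F : Set V)), (G.induce (F : Set V)).Walk x y → P x → P y := by
    intro x y w
    induction w with
    | nil => exact id
    | cons hxy _ ih => exact fun hx => ih (h _ (mem_coe.1 (Subtype.prop _)) _
        (mem_coe.1 (Subtype.prop _)) hxy hx)
  exact key _ _ w hP

/-- A set is connected if all its elements lie in connected subsets which contain `a`. -/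
theorem Cn.of_patches {F : Finset V} {a : V} (ha : a ∈ F)
    (h : ∀ v ∈ F, ∃ Q ⊆ F, Cn G Q ∧ a ∈ Q ∧ v ∈ Q) : Cn G F := by
  refine SimpleGraph.induce_connected_of_patches a (mem_coe.2 ha) ?_
  intro v hv
  obtain ⟨Q, hQF, hQ, haQ, hvQ⟩ := h v (mem_coe.1 hv)
  exact ⟨(Q : Set V), fun x hx => mem_coe.2 (hQF (mem_coe.1 hx)), mem_coe.2 haQ, mem_coe.2 hvQ,
    hQ.preconnected _ _⟩

/-- A small connected set which meets all the sets `A i`, or a small separator. -/
theorem tree_or_sep [DecidableEq V] (G : SimpleGraph V) (D : Finset V) (A : ℕ → Finset V) (K r : ℕ)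
    (hr : 1 ≤ r) :
    (∃ T ⊆ D, Cn G T ∧ T.card ≤ r ∧ ∀ i ≤ K, (T ∩ A i).Nonempty) ∨
    ∃ Z ⊆ D, r * Z.card ≤ K * D.card ∧ ∀ F ⊆ D \ Z, Cn G F → ∃ i ≤ K, Disjoint F (A i) := by
  classical
  rcases Nat.eq_zero_or_pos K with hK | hK
  · by_cases h : (D ∩ A 0).Nonempty
    · obtain ⟨a, ha⟩ := h
      rw [mem_inter] at ha
      refine Or.inl ⟨{a}, by simpa using ha.1, Cn.single a, by simpa using hr, ?_⟩
      intro i hi
      have : i = 0 := by omega
      rw [this]
      exact ⟨a, mem_inter.2 ⟨mem_singleton_self a, ha.2⟩⟩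
    · refine Or.inr ⟨∅, empty_subset _, by simp, ?_⟩
      intro F hF _
      refine ⟨0, by omega, ?_⟩
      rw [disjoint_left]
      intro x hx hx2
      exact h ⟨x, mem_inter.2 ⟨(mem_sdiff.1 (hF hx)).1, hx2⟩⟩
  let Φ : Finset (V × ℕ) → Finset (V × ℕ) := fun S => (D ×ˢ range K).filter fun p =>
    p ∈ S ∨ (p.2 = 0 ∧ p.1 ∈ A 0) ∨ (∃ u, (u, p.2) ∈ S ∧ G.Adj u p.1) ∨
      ∃ i, p.2 = i + 1 ∧ (p.1, i) ∈ S ∧ p.1 ∈ A (i + 1)
  obtain ⟨S, hS0, hS1⟩ : ∃ S : ℕ → Finset (V × ℕ), S 0 = ∅ ∧ ∀ j, S (j + 1) = Φ (S j) :=
    ⟨fun j => Nat.rec ∅ (fun _ T => Φ T) j, rfl, fun _ => rfl⟩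
  have hΦ : ∀ T p, p ∈ Φ T ↔ (p.1 ∈ D ∧ p.2 < K) ∧ (p ∈ T ∨ (p.2 = 0 ∧ p.1 ∈ A 0) ∨
      (∃ u, (u, p.2) ∈ T ∧ G.Adj u p.1) ∨
      ∃ i, p.2 = i + 1 ∧ (p.1, i) ∈ T ∧ p.1 ∈ A (i + 1)) := by
    intro T p
    simp only [Φ, mem_filter, mem_product, mem_range]
  have hsub : ∀ j, S j ⊆ D ×ˢ range K := by
    intro j
    cases j with
    | zero => rw [hS0]; exact empty_subset _
    | succ j =>
      intro p hp
      rw [hS1, hΦ] at hp
      exact mem_product.2 ⟨hp.1.1, mem_range.2 hp.1.2⟩
  have hmono : ∀ j, S j ⊆ S (j + 1) := by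
    intro j p hp
    rw [hS1, hΦ]
    have h1 := mem_product.1 (hsub j hp)
    exact ⟨⟨h1.1, mem_range.1 h1.2⟩, Or.inl hp⟩
  have hmono' : ∀ i j, i ≤ j → S i ⊆ S j := by
    intro i j hij
    induction j with
    | zero => rw [Nat.le_zero.1 hij]
    | succ j ih =>
      rcases Nat.lt_or_ge i (j + 1) with h | h
      · exact (ih (by omega)).trans (hmono j)
      · rw [show i = j + 1 by omega]
  have hinv : ∀ j, ∀ p ∈ S j, ∃ T ⊆ D, Cn G T ∧ T.card ≤ j ∧ p.1 ∈ T ∧
      ∀ m ≤ p.2, (T ∩ A m).Nonempty := by
    intro j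
    induction j with
    | zero =>
      intro p hp
      rw [hS0] at hp
      exact absurd hp (notMem_empty p)
    | succ j ih =>
      intro p hp
      rw [hS1, hΦ] at hp
      obtain ⟨⟨hpD, hpK⟩, h | ⟨h, h'⟩ | ⟨u, hu, huv⟩ | ⟨i, hi, hp', hpA⟩⟩ := hp
      · obtain ⟨T, h1, h2, h3, h4, h5⟩ := ih p h
        exact ⟨T, h1, h2, by omega, h4, h5⟩
      · refine ⟨{p.1}, by simpa using hpD, Cn.single _, by simp, mem_singleton_self _, ?_⟩
        intro m hm
        have : m = 0 := by omega
        rw [this]
        exact ⟨p.1, mem_inter.2 ⟨mem_singleton_self _, h'⟩⟩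
      · obtain ⟨T, h1, h2, h3, h4, h5⟩ := ih (u, p.2) hu
        refine ⟨T ∪ {p.1}, union_subset h1 (by simpa using hpD),
          h2.union_adj (Cn.single _) h4 (mem_singleton_self _) huv, ?_,
          mem_union_right _ (mem_singleton_self _), ?_⟩
        · have := card_union_le T {p.1}
          rw [card_singleton] at this
          omega
        · intro m hm
          exact (h5 m hm).mono (inter_subset_inter_right subset_union_left)
      · obtain ⟨T, h1, h2, h3, h4, h5⟩ := ih (p.1, i) hp'
        refine ⟨T, h1, h2, by omega, h4, ?_⟩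
        intro m hm
        rcases Nat.lt_or_ge m (i + 1) with h6 | h6
        · exact h5 m (by simpa using Nat.lt_succ_iff.1 h6)
        · have : m = i + 1 := by omega
          rw [this]
          exact ⟨p.1, mem_inter.2 ⟨h4, hpA⟩⟩
  rcases Classical.em (∃ v : V, (v, K - 1) ∈ S r ∧ v ∈ A K) with hend | hend
  · obtain ⟨v, hv, hvA⟩ := hend
    obtain ⟨T, h1, h2, h3, h4, h5⟩ := hinv r _ hv
    refine Or.inl ⟨T, h1, h2, h3, fun i hi => ?_⟩
    rcases Nat.lt_or_ge i K with h6 | h6
    · exact h5 i (by simp only; omega)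
    · have : i = K := by omega
      rw [this]
      exact ⟨v, mem_inter.2 ⟨h4, hvA⟩⟩
  right
  -- a small layer
  obtain ⟨j, hj, hL⟩ : ∃ j < r, r * (S (j + 1) \ S j).card ≤ K * D.card := by
    by_contra hcon
    push Not at hcon
    have h1 : ∀ j, (S j).card = ∑ i ∈ range j, (S (i + 1) \ S i).card := by
      intro j
      induction j with
      | zero => rw [hS0]; simp
      | succ j ih =>
        rw [sum_range_succ, ← ih]
        have := card_sdiff_add_card_eq_card (hmono j)
        omega
    have h2 : r * (S r).card ≤ r * (K * D.card) := by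
      refine Nat.mul_le_mul_left r ?_
      refine (card_le_card (hsub r)).trans (le_of_eq ?_)
      rw [card_product, card_range, mul_comm]
    have h3 : ∑ _i ∈ range r, (K * D.card + 1) ≤ r * (S r).card := by
      rw [h1, mul_sum]
      exact sum_le_sum fun i hi => hcon i (mem_range.1 hi)
    rw [sum_const, card_range, smul_eq_mul, mul_add, mul_one] at h3
    omega
  refine ⟨(S (j + 1) \ S j).image Prod.fst, ?_, ?_, ?_⟩
  · intro v hv
    obtain ⟨p, hp, rfl⟩ := mem_image.1 hv
    exact (mem_product.1 (hsub _ (mem_sdiff.1 hp).1)).1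
  · exact (Nat.mul_le_mul_left r card_image_le).trans hL
  · intro F hF hFc
    by_contra hcon
    push Not at hcon
    have hmeet : ∀ i ≤ K, ∃ a ∈ F, a ∈ A i := by
      intro i hi
      have h1 := hcon i hi
      rw [not_disjoint_iff] at h1
      exact h1
    have hFD : ∀ v ∈ F, v ∈ D := fun v hv => (mem_sdiff.1 (hF hv)).1
    have hback : ∀ v ∈ F, ∀ i, (v, i) ∈ S (j + 1) → (v, i) ∈ S j := by
      intro v hv i h1
      by_contra h2
      exact (mem_sdiff.1 (hF hv)).2 (mem_image.2 ⟨(v, i), mem_sdiff.2 ⟨h1, h2⟩, rfl⟩)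
    have hprop : ∀ i < K, ∀ a ∈ F, (a, i) ∈ S j → ∀ v ∈ F, (v, i) ∈ S j := by
      intro i hi a ha haS
      refine hFc.prop (P := fun v => (v, i) ∈ S j) ha haS ?_
      intro u hu v hv huv huS
      refine hback v hv i ?_
      rw [hS1, hΦ]
      exact ⟨⟨hFD v hv, hi⟩, Or.inr (Or.inr (Or.inl ⟨u, huS, huv⟩))⟩
    have hall : ∀ i < K, ∀ v ∈ F, (v, i) ∈ S j := by
      intro i
      induction i with
      | zero =>
        intro hi
        obtain ⟨a, ha, haA⟩ := hmeet 0 (by omega)
        refine hprop 0 hi a ha (hback a ha 0 ?_)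
        rw [hS1, hΦ]
        exact ⟨⟨hFD a ha, hi⟩, Or.inr (Or.inl ⟨rfl, haA⟩)⟩
      | succ i ih =>
        intro hi
        obtain ⟨a, ha, haA⟩ := hmeet (i + 1) (by omega)
        refine hprop (i + 1) hi a ha (hback a ha (i + 1) ?_)
        rw [hS1, hΦ]
        exact ⟨⟨hFD a ha, hi⟩, Or.inr (Or.inr (Or.inr ⟨i, rfl, ih (by omega) a ha, haA⟩))⟩
    obtain ⟨a, ha, haA⟩ := hmeet K le_rfl
    exact hend ⟨a, hmono' j r hj.le (hall (K - 1) (by omega) a ha), haA⟩

/-- `D` is the large component of `W \ X`. -/
structure Bg [DecidableEq V] (G : SimpleGraph V) (W X D : Finset V) : Prop where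
  sub : D ⊆ W \ X
  cn : Cn G D
  big : W.card < 2 * D.card
  max : ∀ F ⊆ W \ X, Cn G F → (F ∩ D).Nonempty → F ⊆ D

theorem Bg.exists [DecidableEq V] {W X A : Finset V} (hA : A ⊆ W \ X) (hc : Cn G A)
    (hb : W.card < 2 * A.card) : ∃ D, Bg G W X D := by
  classical
  obtain ⟨D, hD, hmax⟩ := exists_max_image ((W \ X).powerset.filter fun D => Cn G D) card
    ⟨A, mem_filter.2 ⟨mem_powerset.2 hA, hc⟩⟩
  have hD' := mem_filter.1 hD
  refine ⟨D, mem_powerset.1 hD'.1, hD'.2, ?_, ?_⟩
  · have := hmax A (mem_filter.2 ⟨mem_powerset.2 hA, hc⟩)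
    omega
  · intro F hF hFc hFD
    obtain ⟨u, hu⟩ := hFD
    rw [mem_inter] at hu
    have h1 := hmax (F ∪ D) (mem_filter.2 ⟨mem_powerset.2 (union_subset hF
      (mem_powerset.1 hD'.1)), hFc.union_mem hD'.2 hu.1 hu.2⟩)
    have h2 : F ∪ D = D := (eq_of_subset_of_card_le subset_union_right h1).symm
    rw [← h2]
    exact subset_union_left

theorem Bg.adj [DecidableEq V] {W X D : Finset V} (h : Bg G W X D) {u v : V} (hu : u ∈ D)
    (hv : v ∈ W) (hvX : v ∉ X) (huv : G.Adj u v) : v ∈ D := by
  have h1 := h.max ({u} ∪ {v}) (by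
    intro x hx
    rw [mem_union, mem_singleton, mem_singleton] at hx
    rcases hx with rfl | rfl
    · exact h.sub hu
    · exact mem_sdiff.2 ⟨hv, hvX⟩)
    ((Cn.single u).union_adj (Cn.single v) (mem_singleton_self u) (mem_singleton_self v) huv)
    ⟨u, mem_inter.2 ⟨mem_union_left _ (mem_singleton_self u), hu⟩⟩
  exact h1 (mem_union_right _ (mem_singleton_self v))

/-- A connected set which is closed under neighbours outside `X` is the large component. -/
theorem Bg.of_adj [DecidableEq V] {W X D : Finset V} (h1 : D ⊆ W \ X) (h2 : Cn G D)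
    (h3 : W.card < 2 * D.card) (h4 : ∀ u ∈ D, ∀ v ∈ W, v ∉ X → G.Adj u v → v ∈ D) :
    Bg G W X D := by
  refine ⟨h1, h2, h3, ?_⟩
  intro F hF hFc hFD
  obtain ⟨a, ha⟩ := hFD
  rw [mem_inter] at ha
  exact hFc.prop (P := fun v => v ∈ D) ha.1 ha.2 fun u _ v hv huv hu =>
    h4 u hu v (mem_sdiff.1 (hF hv)).1 (mem_sdiff.1 (hF hv)).2 huv

theorem Bg.anti [DecidableEq V] {W X X' D D' : Finset V} (h : Bg G W X D) (h' : Bg G W X' D')
    (hX : X ⊆ X') : D' ⊆ D := by
  refine h.max D' (h'.sub.trans (sdiff_subset_sdiff (Subset.refl W) hX)) h'.cn ?_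
  by_contra hne
  rw [not_nonempty_iff_eq_empty, ← disjoint_iff_inter_eq_empty] at hne
  have h1 : D' ∪ D ⊆ W := union_subset (h'.sub.trans sdiff_subset) (h.sub.trans sdiff_subset)
  have h2 := card_le_card h1
  rw [card_union_of_disjoint hne] at h2
  have h3 := h.big
  have h4 := h'.big
  omega

/-- The states of the proof of Alon, Seymour and Thomas. -/
structure St [DecidableEq V] (G : SimpleGraph V) (W : Finset V) (r k : ℕ) (C : ℕ → Finset V)
    (X D : Finset V) : Prop where
  cn : ∀ i < k, Cn G (C i)
  sub : ∀ i < k, C i ⊆ W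
  dj : ∀ i < k, ∀ j < k, i ≠ j → Disjoint (C i) (C j)
  ad : ∀ i < k, ∀ j < k, i ≠ j → ∃ u ∈ C i, ∃ v ∈ C j, G.Adj u v
  cov : ∀ x ∈ X, ∃ i < k, x ∈ C i
  le : ∀ i < k, (X ∩ C i).card ≤ r
  bg : Bg G W X D
  djD : ∀ i < k, Disjoint D (C i)

theorem St.card_le [DecidableEq V] {W : Finset V} {r k : ℕ} {C : ℕ → Finset V}
    {X D : Finset V} (h : St G W r k C X D) : X.card ≤ k * r := by
  have h1 : X ⊆ (range k).biUnion fun i => X ∩ C i := by
    intro x hx
    obtain ⟨i, hi, hxi⟩ := h.cov x hx
    exact mem_biUnion.2 ⟨i, mem_range.2 hi, mem_inter.2 ⟨hx, hxi⟩⟩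
  calc X.card ≤ _ := card_le_card h1
    _ ≤ ∑ i ∈ range k, (X ∩ C i).card := card_biUnion_le
    _ ≤ ∑ _i ∈ range k, r := sum_le_sum fun i hi => h.le i (mem_range.1 hi)
    _ = k * r := by rw [sum_const, card_range, smul_eq_mul]

theorem St.false [DecidableEq V] (hK : NoK5 G) {W : Finset V} {r : ℕ} (hr : 1 ≤ r)
    (h3 : 3 * W.card ≤ r * r)
    (hcon : ∀ X ⊆ W, X.card ≤ 5 * r → ∃ A ⊆ W \ X, Cn G A ∧ W.card < 2 * A.card) :
    ∀ (n k : ℕ) (C : ℕ → Finset V) (X D : Finset V), St G W r k C X D →
      k + X.card + 3 * D.card ≤ n → False := by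
  classical
  intro n
  induction n with
  | zero =>
    intro k C X D h hn
    have := h.bg.big
    omega
  | succ n ih =>
    intro k C X D h hn
    have hbig : ∀ X ⊆ W, X.card ≤ 5 * r → ∃ D, Bg G W X D := by
      intro X hX hXr
      obtain ⟨A, h1, h2, h3⟩ := hcon X hX hXr
      exact Bg.exists h1 h2 h3
    have hXW : X ⊆ W := by
      intro x hx
      obtain ⟨i, hi, hxi⟩ := h.cov x hx
      exact h.sub i hi hxi
    have hDW : D ⊆ W := h.bg.sub.trans sdiff_subset
    have hDX : ∀ v ∈ D, v ∉ X := fun v hv => (mem_sdiff.1 (h.bg.sub hv)).2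
    -- at most four sets
    have hk : k ≤ 4 := by
      by_contra hk
      refine hK (fun i => (C i.1 : Set V)) (fun i => h.cn i.1 (by omega)) ?_ ?_
      · intro i j hij
        have := h.dj i.1 (by omega) j.1 (by omega) (fun h1 => hij (Fin.ext h1))
        exact_mod_cast this
      · intro i j hij
        obtain ⟨u, hu, v, hv, huv⟩ := h.ad i.1 (by omega) j.1 (by omega)
          (fun h1 => hij (Fin.ext h1))
        exact ⟨u, mem_coe.2 hu, v, mem_coe.2 hv, huv⟩
    have hXr := h.card_le
    -- a new set
    have hT : ∀ T ⊆ D, Cn G T → T.card ≤ r → (∀ i < k, ∃ u ∈ T, ∃ v ∈ C i, G.Adj u v) →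
        False := by
      intro T hTD hTc hTr hTa
      have hTpos := card_pos.2 hTc.nonempty
      have h5 : (X ∪ T).card ≤ 5 * r := by
        have h6 := card_union_le X T
        have h7 : k * r ≤ 4 * r := Nat.mul_le_mul_right r hk
        omega
      obtain ⟨D', hD'⟩ := hbig (X ∪ T) (union_subset hXW (hTD.trans hDW)) h5
      have hD'D := h.bg.anti hD' subset_union_left
      have hD'T : Disjoint D' T := by
        rw [disjoint_left]
        intro x hx hxT
        exact (mem_sdiff.1 (hD'.sub hx)).2 (mem_union_right _ hxT)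
      have hcard : D'.card + T.card ≤ D.card := by
        rw [← card_union_of_disjoint hD'T]
        exact card_le_card (union_subset hD'D hTD)
      have hlt : ∀ i < k, Function.update C k T i = C i := by
        intro i hi
        rw [Function.update_of_ne (by omega)]
      refine ih (k + 1) (Function.update C k T) (X ∪ T) D' ⟨?_, ?_, ?_, ?_, ?_, ?_, hD', ?_⟩ ?_
      · intro i hi
        rcases Nat.lt_or_ge i k with h6 | h6
        · rw [hlt i h6]
          exact h.cn i h6
        · rw [show i = k by omega, Function.update_self]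
          exact hTc
      · intro i hi
        rcases Nat.lt_or_ge i k with h6 | h6
        · rw [hlt i h6]
          exact h.sub i h6
        · rw [show i = k by omega, Function.update_self]
          exact hTD.trans hDW
      · intro i hi j hj hij
        rcases Nat.lt_or_ge i k with h6 | h6
        · rcases Nat.lt_or_ge j k with h7 | h7
          · rw [hlt i h6, hlt j h7]
            exact h.dj i h6 j h7 hij
          · rw [hlt i h6, show j = k by omega, Function.update_self]
            exact ((h.djD i h6).mono_left hTD).symm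
        · rcases Nat.lt_or_ge j k with h7 | h7
          · rw [hlt j h7, show i = k by omega, Function.update_self]
            exact (h.djD j h7).mono_left hTD
          · omega
      · intro i hi j hj hij
        rcases Nat.lt_or_ge i k with h6 | h6
        · rcases Nat.lt_or_ge j k with h7 | h7
          · rw [hlt i h6, hlt j h7]
            exact h.ad i h6 j h7 hij
          · rw [hlt i h6, show j = k by omega, Function.update_self]
            obtain ⟨u, hu, v, hv, huv⟩ := hTa i h6
            exact ⟨v, hv, u, hu, huv.symm⟩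
        · rcases Nat.lt_or_ge j k with h7 | h7
          · rw [hlt j h7, show i = k by omega, Function.update_self]
            exact hTa j h7
          · omega
      · intro x hx
        rcases mem_union.1 hx with h6 | h6
        · obtain ⟨i, hi, hxi⟩ := h.cov x h6
          exact ⟨i, by omega, by rw [hlt i hi]; exact hxi⟩
        · exact ⟨k, by omega, by rw [Function.update_self]; exact h6⟩
      · intro i hi
        rcases Nat.lt_or_ge i k with h6 | h6
        · rw [hlt i h6]
          refine (card_le_card ?_).trans (h.le i h6)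
          intro x hx
          rw [mem_inter, mem_union] at hx
          refine mem_inter.2 ⟨hx.1.resolve_right fun h7 => ?_, hx.2⟩
          exact disjoint_left.1 (h.djD i h6) (hTD h7) hx.2
        · rw [show i = k by omega, Function.update_self]
          exact (card_le_card inter_subset_right).trans hTr
      · intro i hi
        rcases Nat.lt_or_ge i k with h6 | h6
        · rw [hlt i h6]
          exact (h.djD i h6).mono_left hD'D
        · rw [show i = k by omega, Function.update_self]
          exact hD'T
      · have := card_union_le X T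
        omega
    rcases Nat.eq_zero_or_pos k with hk0 | hk0
    · obtain ⟨v, hv⟩ := h.bg.cn.nonempty
      exact hT {v} (by simpa using hv) (Cn.single v) (by simpa using hr)
        (fun i hi => by omega)
    -- the attachments
    set A : ℕ → Finset V := fun i => D.filter fun u => ∃ v ∈ C i, G.Adj u v with hA
    have memA : ∀ i u, u ∈ A i ↔ u ∈ D ∧ ∃ v ∈ C i, G.Adj u v := by
      intro i u
      rw [hA, mem_filter]
    by_cases hne : ∃ i < k, ¬ (A i).Nonempty
    · obtain ⟨i, hi, hAi⟩ := hne
      rw [not_nonempty_iff_eq_empty] at hAi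
      have hno : ∀ u ∈ D, ∀ v ∈ C i, ¬ G.Adj u v := by
        intro u hu v hv huv
        have : u ∈ A i := (memA i u).2 ⟨hu, v, hv, huv⟩
        rw [hAi] at this
        exact notMem_empty u this
      obtain ⟨g, hg⟩ : ∃ g : ℕ → ℕ, ∀ j, g j = if j = i then k - 1 else j :=
        ⟨fun j => if j = i then k - 1 else j, fun _ => rfl⟩
      have hglt : ∀ j < k - 1, g j < k ∧ g j ≠ i := by
        intro j hj
        rw [hg]
        split_ifs with h6
        · exact ⟨by omega, by omega⟩
        · exact ⟨by omega, h6⟩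
      have hginj : ∀ j < k - 1, ∀ l < k - 1, j ≠ l → g j ≠ g l := by
        intro j hj l hl hjl
        rw [hg, hg]
        split_ifs <;> omega
      refine ih (k - 1) (fun j => C (g j)) (X \ C i) D ⟨?_, ?_, ?_, ?_, ?_, ?_, ?_, ?_⟩ ?_
      · exact fun j hj => h.cn _ (hglt j hj).1
      · exact fun j hj => h.sub _ (hglt j hj).1
      · exact fun j hj l hl hjl => h.dj _ (hglt j hj).1 _ (hglt l hl).1 (hginj j hj l hl hjl)
      · exact fun j hj l hl hjl => h.ad _ (hglt j hj).1 _ (hglt l hl).1 (hginj j hj l hl hjl)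
      · intro x hx
        rw [mem_sdiff] at hx
        obtain ⟨j, hj, hxj⟩ := h.cov x hx.1
        have hji : j ≠ i := by
          rintro rfl
          exact hx.2 hxj
        rcases Nat.lt_or_ge j (k - 1) with h6 | h6
        · refine ⟨j, h6, ?_⟩
          simp only [hg, if_neg hji]
          exact hxj
        · refine ⟨i, by omega, ?_⟩
          simp only [hg, if_true]
          rwa [show k - 1 = j by omega]
      · intro j hj
        exact (card_le_card (inter_subset_inter_right sdiff_subset)).trans
          (h.le _ (hglt j hj).1)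
      · refine Bg.of_adj ?_ h.bg.cn h.bg.big ?_
        · exact h.bg.sub.trans (sdiff_subset_sdiff (Subset.refl W) sdiff_subset)
        · intro u hu v hv hvX huv
          by_cases h6 : v ∈ X
          · exfalso
            rw [mem_sdiff, not_and_not_right] at hvX
            exact hno u hu v (hvX h6) huv
          · exact h.bg.adj hu hv h6 huv
      · exact fun j hj => h.djD _ (hglt j hj).1
      · have := card_le_card (sdiff_subset : X \ C i ⊆ X)
        omega
    · push Not at hne
      rcases tree_or_sep G D A (k - 1) r hr with ⟨T, hTD, hTc, hTr, hTA⟩ | ⟨Z0, hZ0D, hZ0, hZ0p⟩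
      · refine hT T hTD hTc hTr fun i hi => ?_
        obtain ⟨u, hu⟩ := hTA i (by omega)
        rw [mem_inter, memA] at hu
        exact ⟨u, hu.1, hu.2.2⟩
      · -- a minimal separator
        obtain ⟨Z, hZ, hZmin⟩ := exists_min_image
          (D.powerset.filter fun Z => ∀ F ⊆ D \ Z, Cn G F → ∃ i ≤ k - 1, Disjoint F (A i)) card
          ⟨Z0, mem_filter.2 ⟨mem_powerset.2 hZ0D, hZ0p⟩⟩
        have hZ' := mem_filter.1 hZ
        have hZD := mem_powerset.1 hZ'.1
        have hZp := hZ'.2
        have hZr : Z.card ≤ r := by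
          have h6 := hZmin Z0 (mem_filter.2 ⟨mem_powerset.2 hZ0D, hZ0p⟩)
          have h7 : r * Z.card ≤ r * Z0.card := Nat.mul_le_mul_left r h6
          have h8 : (k - 1) * D.card ≤ 3 * W.card :=
            Nat.mul_le_mul (by omega) (card_le_card hDW)
          exact Nat.le_of_mul_le_mul_left ((h7.trans hZ0).trans (h8.trans h3)) hr
        have hZne : 0 < Z.card := by
          rw [card_pos]
          by_contra h6
          rw [not_nonempty_iff_eq_empty] at h6
          obtain ⟨i, hi, hdj⟩ := hZp D (by rw [h6]; simp) h.bg.cn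
          obtain ⟨u, hu⟩ := hne i (by omega)
          exact disjoint_left.1 hdj ((memA i u).1 hu).1 hu
        have h5 : (X ∪ Z).card ≤ 5 * r := by
          have h6 := card_union_le X Z
          have h7 : k * r ≤ 4 * r := Nat.mul_le_mul_right r hk
          omega
        obtain ⟨D', hD'⟩ := hbig (X ∪ Z) (union_subset hXW (hZD.trans hDW)) h5
        have hD'D := h.bg.anti hD' subset_union_left
        have hD'Z : Disjoint D' Z := by
          rw [disjoint_left]
          intro x hx hxZ
          exact (mem_sdiff.1 (hD'.sub hx)).2 (mem_union_right _ hxZ)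
        have hcard : D'.card + Z.card ≤ D.card := by
          rw [← card_union_of_disjoint hD'Z]
          exact card_le_card (union_subset hD'D hZD)
        obtain ⟨i, hi, hdi⟩ := hZp D' (by
          intro x hx
          exact mem_sdiff.2 ⟨hD'D hx, disjoint_left.1 hD'Z hx⟩) hD'.cn
        have hik : i < k := by omega
        -- the neighbours of `D'` in `D` are in `Z`
        have hnZ : ∀ u ∈ D, u ∉ D' → ∀ v ∈ D', G.Adj u v → u ∈ Z := by
          intro u hu hu' v hv huv
          by_contra h6
          refine hu' (hD'.adj hv (hDW hu) ?_ huv.symm)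
          rw [mem_union]
          rintro (h7 | h7)
          · exact hDX u hu h7
          · exact h6 h7
        -- the reached vertices
        obtain ⟨Rc, hRc⟩ : ∃ Rc : V → Prop, ∀ v, Rc v ↔ ∃ Q ⊆ C i ∪ (D \ D'), Cn G Q ∧
            C i ⊆ Q ∧ v ∈ Q := ⟨_, fun _ => Iff.rfl⟩
        have step1 : ∀ a ∈ A i, Rc a := by
          intro a ha
          obtain ⟨haD, v, hv, hav⟩ := (memA i a).1 ha
          rw [hRc]
          refine ⟨C i ∪ {a}, union_subset_union_right ?_,
            (h.cn i hik).union_adj (Cn.single a) hv (mem_singleton_self a) hav.symm,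
            subset_union_left, mem_union_right _ (mem_singleton_self a)⟩
          rw [singleton_subset_iff, mem_sdiff]
          exact ⟨haD, fun h6 => disjoint_left.1 hdi h6 ha⟩
        have step2 : ∀ u v, Rc u → v ∈ D → v ∉ D' → G.Adj u v → Rc v := by
          intro u v hu hv hv' huv
          rw [hRc] at hu ⊢
          obtain ⟨Q, h6, h7, h8, h9⟩ := hu
          refine ⟨Q ∪ {v}, union_subset h6 ?_, h7.union_adj (Cn.single v) h9
            (mem_singleton_self v) huv, h8.trans subset_union_left,
            mem_union_right _ (mem_singleton_self v)⟩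
          rw [singleton_subset_iff]
          exact mem_union_right _ (mem_sdiff.2 ⟨hv, hv'⟩)
        have step3 : ∀ z ∈ Z, Rc z := by
          intro z hz
          by_contra hnz
          have h6 : ¬ ∀ F ⊆ D \ (Z.erase z), Cn G F → ∃ i ≤ k - 1, Disjoint F (A i) := by
            intro h7
            have h8 := hZmin (Z.erase z) (mem_filter.2
              ⟨mem_powerset.2 ((erase_subset z Z).trans hZD), h7⟩)
            have h9 := card_erase_lt_of_mem hz
            omega
          push Not at h6
          obtain ⟨F, hF, hFc, hFA⟩ := h6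
          have hzF : z ∈ F := by
            by_contra h7
            obtain ⟨j, hj, hdj⟩ := hZp F (by
              intro x hx
              have h8 := mem_sdiff.1 (hF hx)
              refine mem_sdiff.2 ⟨h8.1, fun h9 => h8.2 (mem_erase.2 ⟨?_, h9⟩)⟩
              rintro rfl
              exact h7 hx) hFc
            exact hFA j hj hdj
          have h7 := hFA i hi
          rw [not_disjoint_iff] at h7
          obtain ⟨a, haF, haA⟩ := h7
          have h8 := hFc.prop (P := fun v => v ∉ D' ∧ Rc v) haF
            ⟨fun h9 => disjoint_left.1 hdi h9 haA, step1 a haA⟩ (by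
              rintro u hu v hv huv ⟨h9, h10⟩
              have huD := (mem_sdiff.1 (hF hu))
              have hvD := (mem_sdiff.1 (hF hv))
              have h11 : v ∉ D' := by
                intro h11
                have h12 := hnZ u huD.1 h9 v h11 huv
                have h13 : u = z := by
                  by_contra h14
                  exact huD.2 (mem_erase.2 ⟨h14, h12⟩)
                rw [h13] at h10
                exact hnz h10
              exact ⟨h11, step2 u v h10 hvD.1 h11 huv⟩) z hzF
          exact hnz h8.2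
        have step4 : ∀ v ∈ D, v ∉ D' → Rc v := by
          intro v hv hv'
          by_contra hnv
          obtain ⟨a, ha⟩ := hne i hik
          have h8 := h.bg.cn.prop (P := fun v => v ∉ D' ∧ ¬ Rc v) hv ⟨hv', hnv⟩ (by
              rintro u hu w hw huw ⟨h9, h10⟩
              have h11 : w ∉ D' := fun h11 => h10 (step3 u (hnZ u hu h9 w h11 huw))
              exact ⟨h11, fun h12 => h10 (step2 w u h12 hu h9 huw.symm)⟩) a ((memA i a).1 ha).1
          exact h8.2 (step1 a ha)
        have hnewc : Cn G (C i ∪ (D \ D')) := by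
          obtain ⟨c0, hc0⟩ := (h.cn i hik).nonempty
          refine Cn.of_patches (mem_union_left _ hc0) ?_
          intro v hv
          rcases mem_union.1 hv with h6 | h6
          · exact ⟨C i, subset_union_left, h.cn i hik, hc0, h6⟩
          · have h7 := step4 v (mem_sdiff.1 h6).1 (mem_sdiff.1 h6).2
            rw [hRc] at h7
            obtain ⟨Q, h8, h9, h10, h11⟩ := h7
            exact ⟨Q, h8, h9, h10 hc0, h11⟩
        obtain ⟨C', hC'i, hC'⟩ : ∃ C' : ℕ → Finset V, C' i = C i ∪ (D \ D') ∧
            ∀ j, j ≠ i → C' j = C j :=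
          ⟨Function.update C i (C i ∪ (D \ D')), Function.update_self _ _ _,
            fun j hj => Function.update_of_ne hj _ _⟩
        refine ih k C' ((X \ C i) ∪ Z) D' ⟨?_, ?_, ?_, ?_, ?_, ?_, ?_, ?_⟩ ?_
        · intro j hj
          by_cases hji : j = i
          · rw [hji, hC'i]
            exact hnewc
          · rw [hC' j hji]
            exact h.cn j hj
        · intro j hj
          by_cases hji : j = i
          · rw [hji, hC'i]
            exact union_subset (h.sub i hik) (sdiff_subset.trans hDW)
          · rw [hC' j hji]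
            exact h.sub j hj
        · have h6 : ∀ j < k, j ≠ i → Disjoint (C' i) (C' j) := by
            intro j hj hji
            rw [hC'i, hC' j hji, disjoint_union_left]
            exact ⟨h.dj i hik j hj (Ne.symm hji), (h.djD j hj).mono_left sdiff_subset⟩
          intro j hj l hl hjl
          by_cases hji : j = i
          · subst hji
            exact h6 l hl (Ne.symm hjl)
          · by_cases hli : l = i
            · subst hli
              exact (h6 j hj hji).symm
            · rw [hC' j hji, hC' l hli]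
              exact h.dj j hj l hl hjl
        · have h6 : ∀ j, C j ⊆ C' j := by
            intro j
            by_cases hji : j = i
            · rw [hji, hC'i]
              exact subset_union_left
            · rw [hC' j hji]
          intro j hj l hl hjl
          obtain ⟨u, hu, v, hv, huv⟩ := h.ad j hj l hl hjl
          exact ⟨u, h6 j hu, v, h6 l hv, huv⟩
        · intro x hx
          rcases mem_union.1 hx with h6 | h6
          · rw [mem_sdiff] at h6
            obtain ⟨j, hj, hxj⟩ := h.cov x h6.1
            have hji : j ≠ i := by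
              rintro rfl
              exact h6.2 hxj
            exact ⟨j, hj, by rw [hC' j hji]; exact hxj⟩
          · refine ⟨i, hik, ?_⟩
            rw [hC'i]
            exact mem_union_right _ (mem_sdiff.2 ⟨hZD h6, fun h7 => disjoint_left.1 hD'Z h7 h6⟩)
        · intro j hj
          by_cases hji : j = i
          · rw [hji, hC'i]
            refine (card_le_card ?_).trans hZr
            intro x hx
            rw [mem_inter, mem_union, mem_union, mem_sdiff, mem_sdiff] at hx
            rcases hx.1 with h6 | h6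
            · exfalso
              rcases hx.2 with h7 | h7
              · exact h6.2 h7
              · exact hDX x h7.1 h6.1
            · exact h6
          · rw [hC' j hji]
            refine (card_le_card ?_).trans (h.le j hj)
            intro x hx
            rw [mem_inter, mem_union, mem_sdiff] at hx
            rcases hx.1 with h6 | h6
            · exact mem_inter.2 ⟨h6.1, hx.2⟩
            · exact absurd hx.2 (disjoint_left.1 (h.djD j hj) (hZD h6))
        · refine Bg.of_adj ?_ hD'.cn hD'.big ?_
          · intro x hx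
            have h6 := mem_sdiff.1 (hD'.sub hx)
            rw [mem_union, not_or] at h6
            rw [mem_sdiff, mem_union, mem_sdiff, not_or]
            exact ⟨h6.1, fun h7 => h6.2.1 h7.1, h6.2.2⟩
          · intro u hu v hv hvX huv
            rw [mem_union, mem_sdiff, not_or] at hvX
            by_cases h6 : v ∈ X
            · exfalso
              have h7 : v ∈ C i := by
                by_contra h8
                exact hvX.1 ⟨h6, h8⟩
              exact disjoint_left.1 hdi hu ((memA i u).2 ⟨hD'D hu, v, h7, huv⟩)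
            · refine hD'.adj hu hv ?_ huv
              rw [mem_union, not_or]
              exact ⟨h6, hvX.2⟩
        · intro j hj
          by_cases hji : j = i
          · rw [hji, hC'i, disjoint_union_right]
            exact ⟨(h.djD i hik).mono_left hD'D, disjoint_sdiff⟩
          · rw [hC' j hji]
            exact (h.djD j hj).mono_left hD'D
        · have h6 := card_union_le (X \ C i) Z
          have h7 := card_le_card (sdiff_subset : X \ C i ⊆ X)
          omega

/-- **A separator** of size `O(√n)`: every connected set outside has at most half of the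
vertices. -/
theorem NoK5.sep [DecidableEq V] (hK : NoK5 G) (W : Finset V) {r : ℕ} (hr : 1 ≤ r)
    (h3 : 3 * W.card ≤ r * r) :
    ∃ X ⊆ W, X.card ≤ 5 * r ∧ ∀ A ⊆ W \ X, Cn G A → 2 * A.card ≤ W.card := by
  by_contra hcon
  have hcon' : ∀ X ⊆ W, X.card ≤ 5 * r → ∃ A ⊆ W \ X, Cn G A ∧ W.card < 2 * A.card := by
    intro X hX hXr
    by_contra h1
    push Not at h1
    exact hcon ⟨X, hX, hXr, h1⟩
  obtain ⟨A, h1, h2, h4⟩ := hcon' ∅ (empty_subset W) (by simp)
  obtain ⟨D, hD⟩ := Bg.exists h1 h2 h4
  refine St.false hK hr h3 hcon' _ 0 (fun _ => ∅) ∅ D ⟨?_, ?_, ?_, ?_, ?_, ?_, hD, ?_⟩ le_rfl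
  · intro i hi
    omega
  · intro i hi
    omega
  · intro i hi
    omega
  · intro i hi
    omega
  · intro x hx
    exact absurd hx (notMem_empty x)
  · intro i hi
    omega
  · intro i hi
    omega

end Pool.Agent.Helper49.PP
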