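import Pool.Agent.Helper49.PP.Many
import Pool.Agent.Helper41.PP.Zig

/-!
# A long path through many disjoint jumps
-/

namespace Pool.Agent.Helper49.PP

open Finset Pool.Agent.Helper41.PP

variable {V : Type} {G : SimpleGraph V} {f : ℕ → V} {N : ℕ} {D : V → Prop} {β : ℕ}

/-- An increasing list of numbers in an interval. -/
theorem sub_range' {L : List ℕ} (hL : L.Pairwise (· < ·)) {a m : ℕ}
    (h : ∀ x ∈ L, a ≤ x ∧ x < a + m) : L.Sublist (List.range' a m) := by
  refine List.sublist_of_subperm_of_pairwise ?_ hL List.pairwise_lt_range'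
  refine List.subperm_of_subset (hL.imp fun h => ne_of_lt h) ?_
  intro x hx
  rw [List.mem_range'_1]
  exact h x hx

theorem arc_range' (i m : ℕ) : arc f i m = (List.range' i m).map f := by
  unfold arc
  rw [List.range'_eq_map_range, List.map_map]
  rfl

/-- Many jumps over one position. -/
theorem zig_cross (h : Big G f N D β) {I : Finset ℕ} (hIN : ∀ i ∈ I, i < N) {l : ℕ}
    {𝒥 : Finset (ℕ × List V × ℕ)} (hg : ∀ p ∈ 𝒥, Gd G D f I l p)
    (ha : ∀ p ∈ 𝒥, ∀ q ∈ 𝒥, p ≠ q → Ap p q) {x r : ℕ} (hx : x ≤ N)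
    (hc : ∀ p ∈ 𝒥, p.1 < x ∧ x ≤ p.2.2) (hr : r * r < 𝒥.card) :
    (r + 1) * l ≤ N + β := by
  classical
  -- the jumps, as a function of the left ends
  set E : Finset ℕ := 𝒥.image fun p => p.1 with hE
  have hinj : ∀ p ∈ 𝒥, ∀ q ∈ 𝒥, p.1 = q.1 → p = q := by
    intro p hp q hq hpq
    by_contra hne
    exact (ha p hp q hq hne).ll hpq
  have hEc : E.card = 𝒥.card := card_image_of_injOn fun p hp q hq hpq => hinj p hp q hq hpq
  obtain ⟨g, hgE⟩ : ∃ g : ℕ → ℕ × List V × ℕ, ∀ i ∈ E, g i ∈ 𝒥 ∧ (g i).1 = i := by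
    have : ∀ i, ∃ p : ℕ × List V × ℕ, i ∈ E → p ∈ 𝒥 ∧ p.1 = i := by
      intro i
      by_cases hi : i ∈ E
      · obtain ⟨p, hp, hpi⟩ := mem_image.1 hi
        exact ⟨p, fun _ => ⟨hp, hpi⟩⟩
      · exact ⟨(0, [], 0), fun h => absurd h hi⟩
    choose g hg using this
    exact ⟨g, hg⟩
  set L0 := E.sort (· ≤ ·) with hL0
  have hL0m : ∀ i, i ∈ L0 ↔ i ∈ E := fun i => by rw [hL0, Finset.mem_sort]
  have hL0p : L0.Pairwise (· < ·) := by
    rw [hL0]
    exact (Finset.sortedLT_sort E).pairwise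
  have hL0l : L0.length = 𝒥.card := by rw [hL0, Finset.length_sort, hEc]
  have hes := es (fun i => (g i).2.2) r r L0 (hL0p.imp fun h => ne_of_lt h) (by
    intro a haE b hbE hab
    have h1 := hgE a ((hL0m a).1 haE)
    have h2 := hgE b ((hL0m b).1 hbE)
    by_contra hne
    have h3 : g a ≠ g b := by
      intro h4
      exact hne (h1.2.symm.trans ((congrArg Prod.fst h4).trans h2.2))
    exact (ha _ h1.1 _ h2.1 h3).rr hab) (by rw [hL0l]; exact hr)
  -- the two sides
  have hA : IsP G (arc f 0 x) := h.per.arcP 0 x hx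
  have hB : IsP G (arc f x (N - x)) := h.per.arcP x (N - x) (by omega)
  have hAB : ∀ v ∈ arc f 0 x, v ∉ arc f x (N - x) := by
    intro v hv hv'
    obtain ⟨a, ha1, rfl⟩ := mem_arc.1 hv
    obtain ⟨b, hb1, hb2⟩ := mem_arc.1 hv'
    exact h.per.ne (show 0 + a < x + b by omega) (by omega) hb2.symm
  have hout : ∀ i m, ∀ v ∈ arc f i m, v ∉ {v | D v} := by
    intro i m v hv hv'
    obtain ⟨a, _, rfl⟩ := mem_arc.1 hv
    exact h.out _ hv'
  -- the common part
  have main : ∀ (l' : List ℕ) (B : List V), l'.Sublist L0 → l'.length = r + 1 → IsP G B →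
      (∀ v ∈ B, v ∈ arc f x (N - x)) → (l'.map fun i => f (g i).2.2).Sublist B →
      (r + 1) * l ≤ N + β := by
    intro l' B hl' hll hBP hBm hBs
    have hmem : ∀ i ∈ l', i ∈ E := fun i hi => (hL0m i).1 (hl'.subset hi)
    have hl'p : l'.Pairwise (· < ·) := hL0p.sublist hl'
    have hZ : ZZ G l (r + 1) {v | D v} (arc f 0 x) B := by
      refine ZZ.of_sublist (r + 1) (l'.map fun i => (f (g i).1, (g i).2.1, f (g i).2.2)) _ _ _
        (by rw [List.length_map, hll]) ?_ ?_ ?_ ?_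
      · rw [List.map_map]
        have e1 : (l'.map ((fun p : V × List V × V => p.1) ∘
            fun i => (f (g i).1, (g i).2.1, f (g i).2.2))) = l'.map f := by
          refine List.map_congr_left fun i hi => ?_
          simp only [Function.comp_apply]
          rw [(hgE i (hmem i hi)).2]
        rw [e1, arc_range']
        refine List.Sublist.map f (sub_range' hl'p ?_)
        intro y hy
        have h1 := hgE y (hmem y hy)
        have h2 := (hc _ h1.1).1
        rw [h1.2] at h2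
        omega
      · rw [List.map_map]
        exact hBs
      · intro p hp
        obtain ⟨i, hi, rfl⟩ := List.mem_map.1 hp
        have h1 := hg _ (hgE i (hmem i hi)).1
        obtain ⟨K, _, _, h4⟩ := h1.comp
        refine ⟨h1.path.1, ?_, ?_, fun v hv => (h4 v hv).1⟩
        · have h5 := (List.nodup_cons.1 h1.path.2).2
          exact (List.nodup_append'.1 h5).1
        · have := h1.len
          simp only
          omega
      · rw [List.pairwise_map]
        refine hl'p.imp_of_mem ?_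
        intro a b ha' hb' hab v hv
        have h1 := hgE a (hmem a ha')
        have h2 := hgE b (hmem b hb')
        have h3 : g a ≠ g b := by
          intro h4
          exact (ne_of_lt hab) (h1.2.symm.trans ((congrArg Prod.fst h4).trans h2.2))
        exact (ha _ h1.1 _ h2.1 h3).dj v hv
    obtain ⟨Z, hZP, _, hZl, _⟩ := ZZ.path (r + 1) {v | D v} (arc f 0 x) B hA hBP
      (fun v hv hv' => hAB v hv (hBm v hv')) (hout 0 x)
      (fun v hv => hout x (N - x) v (hBm v hv)) hZ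
    exact hZl.trans (h.top Z hZP)
  have hrange : ∀ l' : List ℕ, l'.Sublist L0 → ∀ i ∈ l', x ≤ (g i).2.2 ∧
      (g i).2.2 < x + (N - x) := by
    intro l' hl' i hi
    have h1 := hgE i ((hL0m i).1 (hl'.subset hi))
    have h2 := (hc _ h1.1).2
    have h3 := hIN _ (hg _ h1.1).right
    omega
  rcases hes with ⟨l', hl', hll, hpw⟩ | ⟨l', hl', hll, hpw⟩
  · refine main l' (arc f x (N - x)) hl' hll hB (fun v hv => hv) ?_
    have e1 : (l'.map fun i => f (g i).2.2) = (l'.map fun i => (g i).2.2).map f := by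
      rw [List.map_map]
      rfl
    rw [e1, arc_range']
    refine List.Sublist.map f (sub_range' (List.pairwise_map.2 hpw) ?_)
    intro y hy
    obtain ⟨i, hi, rfl⟩ := List.mem_map.1 hy
    exact hrange l' hl' i hi
  · refine main l' (arc f x (N - x)).reverse hl' hll hB.reverse
      (fun v hv => List.mem_reverse.1 hv) ?_
    have e1 : (l'.map fun i => f (g i).2.2) =
        (((l'.map fun i => (g i).2.2).reverse).map f).reverse := by
      rw [List.map_reverse, List.reverse_reverse, List.map_map]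
      rfl
    rw [e1, arc_range']
    refine List.Sublist.reverse (List.Sublist.map f (sub_range' ?_ ?_))
    · rw [List.pairwise_reverse]
      exact List.pairwise_map.2 hpw
    · intro y hy
      obtain ⟨i, hi, rfl⟩ := List.mem_map.1 (List.mem_reverse.1 hy)
      exact hrange l' hl' i hi

/-- One step along the cycle and through a jump. -/
theorem greedy_step (h : Big G f N D β) {I : Finset ℕ} (hIN : ∀ i ∈ I, i < N) {l x : ℕ}
    {q : ℕ × List V × ℕ} (hq : Gd G D f I l q) (hx : x ≤ q.1) {Z' : List V} (hZ : IsP G Z')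
    (hhead : ∀ y ∈ Z'.head?, y = f (q.2.2 + 1))
    (hm : ∀ v ∈ Z', (∃ i, q.2.2 + 1 ≤ i ∧ i < N ∧ f i = v) ∨ (D v ∧ v ∉ q.2.1)) :
    IsP G (arc f x (q.1 - x) ++ f q.1 :: (q.2.1 ++ f q.2.2 :: Z')) ∧
      (arc f x (q.1 - x) ++ f q.1 :: (q.2.1 ++ f q.2.2 :: Z')).head? = some (f x) := by
  have h1N := hIN _ hq.left
  have h2N := hIN _ hq.right
  have hlt := hq.lt
  have hJD : ∀ v ∈ q.2.1, D v := by
    obtain ⟨K, _, _, h4⟩ := hq.comp
    exact fun v hv => (h4 v hv).1
  have hne : ∀ i j, i < N → j < N → f i = f j → i = j := fun i j hi hj => h.per.inj i j hi hj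
  have harc := h.per.arcP x (q.1 - x + 1) (by omega)
  rw [arc_succ', show x + (q.1 - x) = q.1 by omega] at harc
  refine ⟨⟨?_, ?_⟩, ?_⟩
  · rw [List.isChain_split]
    refine ⟨harc.1, ?_⟩
    rw [← List.cons_append, List.isChain_split]
    refine ⟨by simpa using hq.path.1, ?_⟩
    rw [List.isChain_cons]
    refine ⟨?_, hZ.1⟩
    intro y hy
    rw [hhead y hy]
    exact h.per.adj _
  · have e2 : arc f x (q.1 - x) ++ f q.1 :: (q.2.1 ++ f q.2.2 :: Z') =
        arc f x (q.1 - x) ++ ((f q.1 :: (q.2.1 ++ [f q.2.2])) ++ Z') := by simp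
    rw [e2, List.nodup_append', List.nodup_append']
    refine ⟨(List.nodup_append'.1 harc.2).1, ⟨hq.path.2, hZ.2, ?_⟩, ?_⟩
    · intro v hv hv2
      rcases hm v hv2 with ⟨i, hi, hiN, rfl⟩ | ⟨hD, hnJ⟩
      · simp only [List.mem_cons, List.mem_append, List.not_mem_nil, or_false] at hv
        rcases hv with h3 | h3 | h3
        · have := hne _ _ hiN h1N h3
          omega
        · exact h.out _ (hJD _ h3)
        · have := hne _ _ hiN h2N h3
          omega
      · simp only [List.mem_cons, List.mem_append, List.not_mem_nil, or_false] at hv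
        rcases hv with h3 | h3 | h3
        · rw [h3] at hD
          exact h.out _ hD
        · exact hnJ h3
        · rw [h3] at hD
          exact h.out _ hD
    · intro v hv hv2
      obtain ⟨a, ha, rfl⟩ := mem_arc.1 hv
      simp only [List.mem_cons, List.mem_append, List.not_mem_nil, or_false] at hv2
      rcases hv2 with (h3 | h3 | h3) | h3
      · have := hne _ _ (by omega) h1N h3
        omega
      · exact h.out _ (hJD _ h3)
      · have := hne _ _ (by omega) h2N h3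
        omega
      · rcases hm _ h3 with ⟨i, hi, hiN, h4⟩ | ⟨hD, _⟩
        · have := hne _ _ hiN (by omega) h4
          omega
        · exact h.out _ hD
  · rcases Nat.eq_zero_or_pos (q.1 - x) with h3 | h3
    · rw [h3, arc_zero, List.nil_append, List.head?_cons, show x = q.1 by omega]
    · obtain ⟨m, hm⟩ : ∃ m, q.1 - x = m + 1 := ⟨q.1 - x - 1, by omega⟩
      rw [hm, arc_succ, List.cons_append, List.head?_cons]

open Classical in
/-- Few jumps over each position: a path through consecutive jumps. -/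
theorem greedy (h : Big G f N D β) {I : Finset ℕ} (hIN : ∀ i ∈ I, i < N) {l : ℕ}
    {𝒥 : Finset (ℕ × List V × ℕ)} (hg : ∀ p ∈ 𝒥, Gd G D f I l p)
    (ha : ∀ p ∈ 𝒥, ∀ q ∈ 𝒥, p ≠ q → Ap p q) {r : ℕ}
    (hc : ∀ x ≤ N, (𝒥.filter fun p => p.1 < x ∧ x ≤ p.2.2).card ≤ r) :
    ∀ (T x : ℕ), T * r < (𝒥.filter fun p => x ≤ p.1).card →
      ∃ Z : List V, IsP G Z ∧ Z.head? = some (f x) ∧ (T + 1) * l ≤ Z.length ∧
        ∀ v ∈ Z, (∃ i, x ≤ i ∧ i < N ∧ f i = v) ∨ (D v ∧ ∃ p ∈ 𝒥, x ≤ p.1 ∧ v ∈ p.2.1) := by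
  -- the jump with the smallest right end
  have hfirst : ∀ x, (𝒥.filter fun p => x ≤ p.1).Nonempty → ∃ q ∈ 𝒥, x ≤ q.1 ∧
      ∀ p ∈ 𝒥, x ≤ p.1 → q.2.2 ≤ p.2.2 := by
    intro x hx
    obtain ⟨q, hq, hmin⟩ := exists_min_image _ (fun p : ℕ × List V × ℕ => p.2.2) hx
    obtain ⟨h1, h2⟩ := mem_filter.1 hq
    exact ⟨q, h1, h2, fun p hp hxp => hmin p (mem_filter.2 ⟨hp, hxp⟩)⟩
  have hmem : ∀ (x : ℕ) (q : ℕ × List V × ℕ) (Z' : List V), q ∈ 𝒥 → x ≤ q.1 →
      (∀ v ∈ Z', (∃ i, q.2.2 + 1 ≤ i ∧ i < N ∧ f i = v) ∨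
        (D v ∧ ∃ p ∈ 𝒥, q.2.2 + 1 ≤ p.1 ∧ v ∈ p.2.1)) →
      ∀ v ∈ arc f x (q.1 - x) ++ f q.1 :: (q.2.1 ++ f q.2.2 :: Z'),
        (∃ i, x ≤ i ∧ i < N ∧ f i = v) ∨ (D v ∧ ∃ p ∈ 𝒥, x ≤ p.1 ∧ v ∈ p.2.1) := by
    intro x q Z' hq hx hZ' v hv
    have h1N := hIN _ (hg q hq).left
    have h2N := hIN _ (hg q hq).right
    have hlt := (hg q hq).lt
    obtain ⟨K, _, _, h4⟩ := (hg q hq).comp
    simp only [List.mem_cons, List.mem_append] at hv
    rcases hv with h3 | h3 | h3 | h3 | h3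
    · obtain ⟨a, ha, rfl⟩ := mem_arc.1 h3
      exact Or.inl ⟨x + a, by omega, by omega, rfl⟩
    · exact Or.inl ⟨q.1, hx, h1N, h3.symm⟩
    · exact Or.inr ⟨(h4 v h3).1, q, hq, hx, h3⟩
    · exact Or.inl ⟨q.2.2, by omega, h2N, h3.symm⟩
    · rcases hZ' v h3 with ⟨i, hi, hiN, h5⟩ | ⟨hD, p, hp, h5, h6⟩
      · exact Or.inl ⟨i, by omega, hiN, h5⟩
      · exact Or.inr ⟨hD, p, hp, by omega, h6⟩
  intro T
  induction T with
  | zero =>
    intro x hx
    obtain ⟨q, hq, hxq, _⟩ := hfirst x (card_pos.1 (by omega))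
    obtain ⟨h1, h2⟩ := greedy_step h hIN (hg q hq) hxq (Z' := [])
      ⟨List.isChain_nil, List.nodup_nil⟩ (by simp) (by simp)
    refine ⟨_, h1, h2, ?_, hmem x q [] hq hxq (by simp)⟩
    have := (hg q hq).len
    simp only [List.length_append, List.length_cons]
    omega
  | succ T ih =>
    intro x hx
    obtain ⟨q, hq, hxq, hmin⟩ := hfirst x (card_pos.1 (by omega))
    have hlt := (hg q hq).lt
    have h3 : (𝒥.filter fun p => x ≤ p.1) ⊆ (𝒥.filter fun p => q.2.2 + 1 ≤ p.1) ∪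
        (𝒥.filter fun p => p.1 < q.2.2 ∧ q.2.2 ≤ p.2.2) := by
      intro p hp
      obtain ⟨hp1, hp2⟩ := mem_filter.1 hp
      rw [mem_union, mem_filter, mem_filter]
      by_cases h4 : q.2.2 + 1 ≤ p.1
      · exact Or.inl ⟨hp1, h4⟩
      · refine Or.inr ⟨hp1, ?_, hmin p hp1 hp2⟩
        have h5 : p.1 ≠ q.2.2 := by
          by_cases h6 : p = q
          · rw [h6]
            omega
          · exact (ha p hp1 q hq h6).lr
        omega
    have h4 := (card_le_card h3).trans (card_union_le _ _)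
    have h5 := hc q.2.2 (hIN _ (hg q hq).right).le
    rw [add_mul, one_mul] at hx
    obtain ⟨Z', hZP, hZh, hZl, hZm⟩ := ih (q.2.2 + 1) (by omega)
    obtain ⟨h1, h2⟩ := greedy_step h hIN (hg q hq) hxq hZP (by
        intro y hy
        rw [hZh] at hy
        exact (Option.some.inj hy).symm) (by
        intro v hv
        rcases hZm v hv with h6 | ⟨h6, p, hp, hpx, hvp⟩
        · exact Or.inl h6
        · refine Or.inr ⟨h6, fun h7 => ?_⟩
          have hpq : p ≠ q := by
            rintro rfl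
            omega
          exact (ha p hp q hq hpq).dj v hvp h7)
    refine ⟨_, h1, h2, ?_, hmem x q Z' hq hxq hZm⟩
    have h6 := (hg q hq).len
    simp only [List.length_append, List.length_cons]
    rw [add_mul, one_mul]
    omega

/-- There are not too many disjoint long jumps. -/
theorem jumps_le (h : Big G f N D β) {I : Finset ℕ} (hIN : ∀ i ∈ I, i < N) {l : ℕ}
    {𝒥 : Finset (ℕ × List V × ℕ)} (hg : ∀ p ∈ 𝒥, Gd G D f I l p)
    (ha : ∀ p ∈ 𝒥, ∀ q ∈ 𝒥, p ≠ q → Ap p q) {r : ℕ} (hr : N + β < (r + 1) * l) :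
    𝒥.card ≤ r * (r * r) := by
  classical
  by_contra hcon
  push Not at hcon
  by_cases hex : ∃ x ≤ N, r * r < (𝒥.filter fun p => p.1 < x ∧ x ≤ p.2.2).card
  · obtain ⟨x, hx, hxc⟩ := hex
    have h1 := zig_cross h hIN (fun p hp => hg p (mem_filter.1 hp).1)
      (fun p hp q hq => ha p (mem_filter.1 hp).1 q (mem_filter.1 hq).1) hx
      (fun p hp => (mem_filter.1 hp).2) hxc
    omega
  · push Not at hex
    have h2 : (𝒥.filter fun p => 0 ≤ p.1) = 𝒥 := filter_true_of_mem fun p _ => Nat.zero_le _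
    obtain ⟨Z, hZ, _, hZl, _⟩ := greedy h hIN hg ha hex r 0 (by rw [h2]; exact hcon)
    have h3 := h.top Z hZ
    omega

end Pool.Agent.Helper49.PP
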